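import Pool.Agent.H21Geo.Feat

set_option autoImplicit false
set_option linter.unusedSimpArgs false
set_option linter.unusedVariables false

/-! Counting lists of visits. -/

namespace Pool.Agent.H21Geo

open Finset

def vec (r : ℕ) (V : List Vis) : Fin r → Vis := fun i => gv V i

lemma eq_of_gv {V V' : List Vis} (h : V.length = V'.length)
    (h2 : ∀ t, t < V.length → gv V t = gv V' t) : V = V' := by
  refine List.ext_getElem h fun t h3 h4 => ?_
  have := h2 t h3
  unfold gv at this
  rwa [List.getD_eq_getElem _ _ h3, List.getD_eq_getElem _ _ h4] at this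

open Classical in
/-- all lists of length `r` with at most `n` steps -/
noncomputable def base (r n : ℕ) : Finset (List Vis) :=
  ((Fintype.piFinset (fun _ : Fin r => (Finset.univ : Finset (Fin 4)) ×ˢ
    Finset.Icc (-(n : ℤ)) n)).image List.ofFn).filter (fun V => len V ≤ n)

lemma mem_base {r n : ℕ} {V : List Vis} : V ∈ base r n ↔ V.length = r ∧ len V ≤ n := by
  classical
  unfold base
  rw [Finset.mem_filter, Finset.mem_image]
  constructor
  · rintro ⟨⟨v, hv, rfl⟩, h⟩
    exact ⟨by simp, h⟩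
  · rintro ⟨h1, h2⟩
    refine ⟨⟨vec r V, ?_, ?_⟩, h2⟩
    · rw [Fintype.mem_piFinset]
      intro i
      rw [Finset.mem_product]
      refine ⟨Finset.mem_univ _, ?_⟩
      rw [Finset.mem_Icc, ← abs_le]
      exact (abs_mf_le V i).trans h2
    · refine eq_of_gv (by simp [h1]) fun t ht => ?_
      simp only [List.length_ofFn] at ht
      unfold gv vec gv
      rw [List.getD_eq_getElem _ _ (by simpa using ht)]
      simp

/-- Counting by an injection into a box. -/
lemma count_box {r q : ℕ} (hq : 1 ≤ q) (e : Fin r → ℕ) (Ω : Finset (List Vis))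
    (Φ : List Vis → Fin r → Vis) (hinj : Set.InjOn Φ Ω)
    (hb : ∀ V ∈ Ω, ∀ i, |(Φ V i).2| ≤ 2 * (q : ℤ) ^ (e i)) :
    Ω.card ≤ 20 ^ r * q ^ (∑ i, e i) := by
  classical
  have h1 : Ω.card ≤ (Fintype.piFinset (fun i : Fin r => (Finset.univ : Finset (Fin 4)) ×ˢ
      Finset.Icc (-(2 * (q : ℤ) ^ (e i))) (2 * (q : ℤ) ^ (e i)))).card := by
    refine Finset.card_le_card_of_injOn Φ ?_ hinj
    intro V hV
    rw [Finset.mem_coe, Fintype.mem_piFinset]
    intro i
    rw [Finset.mem_product]
    refine ⟨Finset.mem_univ _, ?_⟩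
    rw [Finset.mem_Icc, ← abs_le]
    exact hb V hV i
  refine h1.trans ?_
  rw [Fintype.card_piFinset]
  calc ∏ i : Fin r, ((Finset.univ : Finset (Fin 4)) ×ˢ
      Finset.Icc (-(2 * (q : ℤ) ^ (e i))) (2 * (q : ℤ) ^ (e i))).card
      ≤ ∏ i : Fin r, 20 * q ^ (e i) := by
        refine Finset.prod_le_prod' fun i _ => ?_
        rw [Finset.card_product, Int.card_Icc]
        have h2 : (2 * (q : ℤ) ^ (e i) + 1 - -(2 * (q : ℤ) ^ (e i))).toNat =
            4 * q ^ (e i) + 1 := by
          have : (2 * (q : ℤ) ^ (e i) + 1 - -(2 * (q : ℤ) ^ (e i))) =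
            ((4 * q ^ (e i) + 1 : ℕ) : ℤ) := by push_cast; ring
          rw [this]; exact Int.toNat_natCast _
        rw [h2]
        have h3 : 1 ≤ q ^ (e i) := Nat.one_le_pow _ _ hq
        simp only [Finset.card_univ, Fintype.card_fin]
        omega
    _ = _ := by
        rw [Finset.prod_mul_distrib, Finset.prod_const, Finset.prod_pow_eq_pow_sum]
        simp

lemma count_union {G : Finset (List Vis)} {ι : Type} [Fintype ι] (P : ι → List Vis → Prop)
    (hcov : ∀ V ∈ G, ∃ i, P i V) {M : ℕ}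
    (hM : ∀ i, ∀ Ω : Finset (List Vis), (∀ V ∈ Ω, V ∈ G ∧ P i V) → Ω.card ≤ M) :
    G.card ≤ Fintype.card ι * M := by
  classical
  have h1 : G ⊆ Finset.univ.biUnion (fun i => G.filter (P i)) := by
    intro V hV
    rw [Finset.mem_biUnion]
    obtain ⟨i, hi⟩ := hcov V hV
    exact ⟨i, Finset.mem_univ _, Finset.mem_filter.2 ⟨hV, hi⟩⟩
  refine (Finset.card_le_card h1).trans ?_
  rw [← Finset.card_univ]
  refine Finset.card_biUnion_le_card_mul _ _ _ fun i _ => ?_
  refine hM i _ fun V hV => ?_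
  exact Finset.mem_filter.1 hV

lemma sum_upd {r : ℕ} (f : Fin r → ℕ) (j : Fin r) (x : ℕ) :
    (∑ i, Function.update f j x i) + f j = (∑ i, f i) + x := by
  classical
  rw [Finset.sum_update_of_mem (Finset.mem_univ j),
    ← Finset.add_sum_erase _ f (Finset.mem_univ j), Finset.sdiff_singleton_eq_erase]
  ring

lemma eq_of_sum_eq {s : Finset ℕ} {f g : ℕ → ℤ} {a : ℕ} (ha : a ∈ s)
    (h : ∀ t ∈ s, t ≠ a → f t = g t) (hs : ∑ t ∈ s, f t = ∑ t ∈ s, g t) : f a = g a := by
  rw [← Finset.add_sum_erase _ f ha, ← Finset.add_sum_erase _ g ha] at hs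
  have : ∑ t ∈ s.erase a, f t = ∑ t ∈ s.erase a, g t :=
    Finset.sum_congr rfl fun t ht => h t (Finset.mem_of_mem_erase ht) (Finset.ne_of_mem_erase ht)
  linarith

def gL (p : Vis) : ℤ := max (hd p) 0 - max (vd p) 0

lemma LL_eq (V : List Vis) : LL V = ∑ t ∈ range V.length, gL (gv V t) := by
  unfold LL nE nN ps gL
  rw [← Finset.sum_sub_distrib]
  rfl

lemma gL_inj {p p' : Vis} (h0 : p.2 ≠ 0) (h0' : p'.2 ≠ 0) (h1 : dir p = 0 ∨ dir p = 1)
    (h1' : dir p' = 0 ∨ dir p' = 1) (hk : p.1 = p'.1) (hg : gL p = gL p') : p = p' := by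
  obtain ⟨k, m⟩ := p
  obtain ⟨k', m'⟩ := p'
  simp only at hk h0 h0'
  subst hk
  have key : ∀ m : ℤ, m ≠ 0 → (dir (k, m) = 0 ∨ dir (k, m) = 1) →
      ((k = 0 ∨ k = 1) ∧ 0 < m) ∨ ((k = 2 ∨ k = 3) ∧ m < 0) := by
    intro m hm hd
    rcases lt_or_gt_of_ne hm with h | h
    · right
      refine ⟨?_, h⟩
      have h' : ¬ 0 < m := by omega
      simp only [dir, h', if_false] at hd
      have h9 : ∀ k : Fin 4, (k + 2 = 0 ∨ k + 2 = 1) → (k = 2 ∨ k = 3) := by decide
      exact h9 k hd
    · left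
      refine ⟨?_, h⟩
      simpa only [dir, h, if_true] using hd
  have e1 := key m h0 h1
  have e2 := key m' h0' h1'
  rcases e1 with ⟨h2, h3⟩ | ⟨h2, h3⟩ <;> rcases e2 with ⟨h4, h5⟩ | ⟨h4, h5⟩
  · rcases h2 with rfl | rfl
    · simp only [gL, hd, vd, max_eq_left h3.le, max_eq_left h5.le, max_self, sub_zero] at hg
      rw [hg]
    · simp only [gL, hd, vd, max_eq_left h3.le, max_eq_left h5.le, max_self, zero_sub,
        neg_inj] at hg
      rw [hg]
  · exfalso
    rcases h2 with rfl | rfl <;> simp at h4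
  · exfalso
    rcases h2 with rfl | rfl <;> simp at h4
  · rcases h2 with rfl | rfl
    · simp only [gL, hd, vd, max_eq_left (neg_nonneg.2 h3.le), max_eq_left (neg_nonneg.2 h5.le),
        max_self, sub_zero, neg_inj] at hg
      rw [hg]
    · simp only [gL, hd, vd, max_eq_left (neg_nonneg.2 h3.le), max_eq_left (neg_nonneg.2 h5.le),
        max_self, zero_sub, neg_inj, neg_neg] at hg
      rw [hg]

/-- If all visits but one agree, then `LL` and the state determine the last one. -/
lemma LL_det {V V' : List Vis} (hV : Red V) (hV' : Red V') (hl : V.length = V'.length)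
    {j : ℕ} (hj : j < V.length) (h : ∀ t, t < V.length → t ≠ j → gv V t = gv V' t)
    (hd : dir (gv V j) = 0 ∨ dir (gv V j) = 1) (hd' : dir (gv V' j) = 0 ∨ dir (gv V' j) = 1)
    (hk : kf V j = kf V' j) (hL : LL V = LL V') : V = V' := by
  have h1 : gv V j = gv V' j := by
    refine gL_inj (mf_ne_zero hV hj) (mf_ne_zero hV' (by omega)) hd hd' hk ?_
    rw [LL_eq, LL_eq, ← hl] at hL
    refine eq_of_sum_eq (f := fun t => gL (gv V t)) (g := fun t => gL (gv V' t))
      (Finset.mem_range.2 hj) ?_ hL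
    intro t ht htj
    simp only [h t (Finset.mem_range.1 ht) htj]
  refine eq_of_gv hl fun t ht => ?_
  by_cases htj : t = j
  · rw [htj]; exact h1
  · exact h t ht htj

/-- The perpendicular displacement determines one visit. -/
lemma Dl_det {V V' : List Vis} {b : Bool} {a j : ℕ} (haj : a < j)
    (h : ∀ t, a ≤ t → t < j → t ≠ a → comp b (gv V t) = comp b (gv V' t))
    (hk : kf V a = kf V' a) (hb : ax (kf V a) = b)
    (hD : ∑ u ∈ Ico a j, comp b (gv V u) = ∑ u ∈ Ico a j, comp b (gv V' u)) :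
    gv V a = gv V' a := by
  have h1 : comp b (gv V a) = comp b (gv V' a) := by
    refine eq_of_sum_eq (f := fun t => comp b (gv V t)) (g := fun t => comp b (gv V' t))
      (Finset.mem_Ico.2 ⟨le_rfl, haj⟩) ?_ hD
    intro t ht hta
    rw [Finset.mem_Ico] at ht
    exact h t ht.1 ht.2 hta
  have e1 : gv V a = (kf V a, mf V a) := rfl
  have e2 : gv V' a = (kf V a, mf V' a) := by rw [hk]; rfl
  rw [e1, e2] at h1
  rw [e1, e2, comp_inj hb h1]

lemma Dl_abs_le (b : Bool) (V : List Vis) {a j : ℕ} (hj : j ≤ V.length) :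
    |∑ u ∈ Ico a j, comp b (gv V u)| ≤ len V := by
  refine (Finset.abs_sum_le_sum_abs _ _).trans ?_
  calc ∑ u ∈ Ico a j, |comp b (gv V u)| ≤ ∑ u ∈ Ico a j, |mf V u| := by
        refine Finset.sum_le_sum fun u _ => ?_
        unfold mf
        generalize gv V u = p
        obtain ⟨k, m⟩ := p
        cases b
        · revert k; simp only [forall_fin4]; simp [comp, vd]
        · revert k; simp only [forall_fin4]; simp [comp, hd]
    _ ≤ len V := by
        unfold len
        refine Finset.sum_le_sum_of_subset_of_nonneg ?_ (fun _ _ _ => abs_nonneg _)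
        intro u hu
        rw [Finset.mem_Ico] at hu
        rw [Finset.mem_range]; omega

end Pool.Agent.H21Geo
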