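import Pool.Agent.H21Geo.Lower

set_option autoImplicit false
set_option linter.unusedSimpArgs false
set_option linter.unusedVariables false

/-! The family consists of geodesics. -/

namespace Pool.Agent.H21Geo

open Finset

set_option maxHeartbeats 2000000 in
theorem fam_geo {q r1 r2 x y k l δ : ℤ} (hq : 1 ≤ q) (h1 : 1 ≤ r1) (h1' : r1 ≤ q ^ 2)
    (h2 : 1 ≤ r2) (h2' : r2 ≤ q ^ 2) (hy : 10 * q ^ 2 ≤ y) (hl : 10 * q ^ 2 ≤ l)
    (hk : 10 * q ^ 2 ≤ k) (hk2 : k ≤ 11 * q ^ 2) (δ0 : 0 ≤ δ) (δ1 : δ < q)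
    (hx : x = y + l - k + δ) : Geo 1 (fam r1 r2 x y k l) 0 := by
  intro V0 hX0 hY0 hZ0
  obtain ⟨V, hR, hX, hY, hZ, hcost⟩ := exists_geo_red 1 0 V0
  refine le_trans ?_ hcost
  rw [hX0] at hX
  rw [hY0] at hY
  rw [hZ0] at hZ
  rw [fam_XX] at hX
  rw [fam_YY] at hY
  rw [fam_ZZ] at hZ
  obtain ⟨R, hRdef⟩ : ∃ R, R = q ^ 2 := ⟨_, rfl⟩
  rw [← hRdef] at h1' h2' hy hl hk hk2
  have hqR : q ≤ R := by rw [hRdef]; nlinarith
  have hR1 : 1 ≤ R := by linarith
  have hδR : δ ^ 2 ≤ R := by rw [hRdef]; nlinarith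
  by_contra hc
  push Not at hc
  have hc2 : (cost 1 V 0 : ℤ) + 1 ≤ cost 1 (fam r1 r2 x y k l) 0 := by exact_mod_cast hc
  rw [fam_cost (by linarith) (by linarith) (by linarith) (by linarith) (by linarith)
    (by linarith), cost_eq, len_eq] at hc2
  have hAR : AR V ≤ nE V * nN V := AR_le (by rw [hX]; linarith) (by rw [hY]; linarith)
  have eX := XX_eq V
  have eY := YY_eq V
  have eZ := ZZ_eq V
  rw [hX] at eX
  rw [hY] at eY
  rw [hZ] at eZ
  have pE := nE_nonneg V
  have pW := nW_nonneg V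
  have pN := nN_nonneg V
  have pS := nS_nonneg V
  have pm := mu_nonneg V
  -- `4 a' b' - 4 D - 4 mu = s² - δ² - 4 μ`
  have e1 : 4 * ((nE V + 1) * (nN V + 1)) - 4 * (nE V * nN V - AR V) - 4 * mu V =
      (x + k + y + l + 2) ^ 2 - δ ^ 2 - 4 * (r1 + r2) := by
    have : x + k = y + l + δ := by linarith
    have e : 4 * ((x + k + 1) * (y + l + 1)) = (x + k + y + l + 2) ^ 2 - δ ^ 2 := by
      rw [show x = y + l - k + δ from hx]; ring
    have e' : (nE V + 1) * (nN V + 1) - (nE V * nN V - AR V) - mu V =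
        (x + k + 1) * (y + l + 1) - (r1 + r2) := by
      linear_combination (-1 : ℤ) * eZ - eX - eY
    linear_combination 4 * e' + e
  have e2 : 4 * ((nE V + 1) * (nN V + 1)) = (nE V + nN V + 2) ^ 2 - (nE V - nN V) ^ 2 := by ring
  -- step 3
  have s3 : k + l ≤ nW V + nS V := by
    by_contra h
    push Not at h
    have f1 : nE V + nN V + 2 ≤ x + k + y + l + 1 := by linarith
    have f2 : (nE V + nN V + 2) ^ 2 ≤ (x + k + y + l + 1) ^ 2 :=
      pow_le_pow_left₀ (by linarith) f1 2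
    have f3 : 0 ≤ (nE V - nN V) ^ 2 := sq_nonneg _
    nlinarith
  -- step 4
  have s4 : 3 ≤ tgs 1 V 0 := by
    by_contra h
    push Not at h
    have hA := AR_short hR (by omega)
    rw [hA] at eZ
    have f1 : 20 * (y + l) ≤ (x + k) * (y + l) := by
      refine mul_le_mul_of_nonneg_right ?_ (by linarith)
      linarith
    have f2 : (0 : ℤ) ≤ (tgs 1 V 0 : ℤ) := by positivity
    linarith
  have s4' : (3 : ℤ) ≤ (tgs 1 V 0 : ℤ) := by exact_mod_cast s4
  have s5 : nW V + nS V = k + l := by omega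
  have s5' : tgs 1 V 0 ≤ 4 := by omega
  -- step 6
  have s6 : (nE V - nN V) ^ 2 + 4 * (nE V * nN V - AR V) + 4 * mu V = δ ^ 2 + 4 * (r1 + r2) := by
    have : nE V + nN V + 2 = x + k + y + l + 2 := by linarith
    rw [this] at e2
    linarith
  have hD : nE V * nN V - AR V < 3 * R := by
    have := sq_nonneg (nE V - nN V)
    linarith
  have hm : mu V < 3 * R := by
    have := sq_nonneg (nE V - nN V)
    linarith
  have hd : |nE V - nN V| ≤ 3 * R := by
    refine abs_le_of_sq_le_sq ?_ (by linarith)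
    have g1 : (nE V - nN V) ^ 2 ≤ 9 * R := by linarith
    have g2 : 9 * R ≤ (3 * R) ^ 2 := by
      have : 0 ≤ R * (R - 1) := mul_nonneg (by linarith) (by linarith)
      linarith
    linarith
  rw [abs_le] at hd
  have hW : 8 * R ≤ nW V := by linarith [hd.1, hd.2]
  have hS : 8 * R ≤ nS V := by linarith [hd.1, hd.2]
  have hxn : 0 ≤ XX V := by rw [hX]; linarith
  have hyn : 0 ≤ YY V := by rw [hY]; linarith
  rcases states_cases hR s5' (exists_state2 (by linarith)) (exists_state3 (by linarith)) with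
    h | h
  · have f1 := defect_0 hxn hyn h
    rw [hY] at f1
    have f2 : 5 * R * (10 * R) ≤ (nW V - mu V) * y :=
      mul_le_mul (by linarith) hy (by linarith) (by linarith)
    have f3 : R * 1 ≤ R * R := mul_le_mul_of_nonneg_left hR1 (by linarith)
    have f4 : (mu V - nW V) * y = -((nW V - mu V) * y) := by ring
    rw [f4] at f1
    linarith
  · have f1 := defect_1 hxn hyn h
    have f2 : nS V * nW V ≤ nS V * nE V := mul_le_mul_of_nonneg_left (by linarith) pS
    have f3 : 7 * R * (8 * R) ≤ (y - mu V) * nE V :=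
      mul_le_mul (by linarith) (by linarith) (by linarith) (by linarith)
    have f4 : nE V * nN V = nE V * y + nE V * nS V := by rw [eY]; ring
    have f5 : R * 1 ≤ R * R := mul_le_mul_of_nonneg_left hR1 (by linarith)
    linarith

end Pool.Agent.H21Geo
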