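import Pool.Agent.H21Geo.Struct

set_option autoImplicit false
set_option linter.unusedSimpArgs false
set_option linter.unusedVariables false

/-! Features of long geodesics. -/

namespace Pool.Agent.H21Geo

open Finset

lemma reversal_bound {V : List Vis} (hx : 0 ≤ XX V) (hy : 0 ≤ YY V) (hR : Red V) {i : ℕ}
    (hi : i + 1 < V.length) (hd : dir (gv V (i + 1)) = dir (gv V i) + 2) :
    (ax (kf V i) = true ∧ min |mf V i| |mf V (i + 1)| * nN V ≤ nE V * nN V - AR V) ∨
    (ax (kf V i) = false ∧ min |mf V i| |mf V (i + 1)| * nE V ≤ nE V * nN V - AR V) := by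
  have hX := hx
  have hY := hy
  rw [XX_eq_pre] at hX
  rw [YY_eq_pre] at hY
  have mi := mf_ne_zero hR (t := i) (by omega)
  have mj := mf_ne_zero hR (t := i + 1) hi
  have h1 := hd_dir (p := gv V i) mi
  have h2 := hd_dir (p := gv V (i + 1)) mj
  set t := min |mf V i| |mf V (i + 1)| with ht
  have t0 : 0 ≤ t := le_min (abs_nonneg _) (abs_nonneg _)
  have t1 : t ≤ |mf V i| := min_le_left _ _
  have t2 : t ≤ |mf V (i + 1)| := min_le_right _ _
  rcases h1 with ⟨d1, a1, b1, c1⟩ | ⟨d1, a1, b1, c1⟩ | ⟨d1, a1, b1, c1⟩ | ⟨d1, a1, b1, c1⟩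
  · have d2 : dir (gv V (i + 1)) = 2 := by rw [hd, d1]; rfl
    rcases h2 with ⟨d3, a2, b2, c2⟩ | ⟨d3, a2, b2, c2⟩ | ⟨d3, a2, b2, c2⟩ | ⟨d3, a2, b2, c2⟩
    · rw [d2] at d3; simp at d3
    · rw [d2] at d3; simp at d3
    rotate_left
    · rw [d2] at d3; simp at d3
    left
    refine ⟨ax_of c1, ?_⟩
    have := reversal_h (h := hf V) (w := vf V) hX hY hi b2 (c := t)
      (Or.inl ⟨t0, by rw [show hf V i = |mf V i| from a1]; exact t1,
        by rw [show hf V (i + 1) = -|mf V (i + 1)| from a2, neg_neg]; exact t2⟩)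
    rw [abs_of_nonneg t0] at this
    change ar (hf V) (vf V) V.length + t * nN V ≤ nE V * nN V at this
    change _ ≤ nE V * nN V - ar (hf V) (vf V) V.length
    linarith
  · have d2 : dir (gv V (i + 1)) = 3 := by rw [hd, d1]; rfl
    rcases h2 with ⟨d3, a2, b2, c2⟩ | ⟨d3, a2, b2, c2⟩ | ⟨d3, a2, b2, c2⟩ | ⟨d3, a2, b2, c2⟩
    · rw [d2] at d3; simp at d3
    · rw [d2] at d3; simp at d3
    · rw [d2] at d3; simp at d3
    right
    refine ⟨ax_of' c1, ?_⟩
    have := reversal_v (h := hf V) (w := vf V) hX hY hi a1 (c := t)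
      (Or.inl ⟨t0, by rw [show vf V i = |mf V i| from b1]; exact t1,
        by rw [show vf V (i + 1) = -|mf V (i + 1)| from b2, neg_neg]; exact t2⟩)
    rw [abs_of_nonneg t0] at this
    change ar (hf V) (vf V) V.length + t * nE V ≤ nE V * nN V at this
    change _ ≤ nE V * nN V - ar (hf V) (vf V) V.length
    linarith
  · have d2 : dir (gv V (i + 1)) = 0 := by rw [hd, d1]; rfl
    rcases h2 with ⟨d3, a2, b2, c2⟩ | ⟨d3, a2, b2, c2⟩ | ⟨d3, a2, b2, c2⟩ | ⟨d3, a2, b2, c2⟩
    rotate_left
    · rw [d2] at d3; simp at d3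
    · rw [d2] at d3; simp at d3
    · rw [d2] at d3; simp at d3
    left
    refine ⟨ax_of c1, ?_⟩
    have := reversal_h (h := hf V) (w := vf V) hX hY hi b2 (c := -t)
      (Or.inr ⟨by linarith, by rw [show hf V i = -|mf V i| from a1]; linarith,
        by rw [show hf V (i + 1) = |mf V (i + 1)| from a2]; linarith⟩)
    rw [abs_neg, abs_of_nonneg t0] at this
    change ar (hf V) (vf V) V.length + t * nN V ≤ nE V * nN V at this
    change _ ≤ nE V * nN V - ar (hf V) (vf V) V.length
    linarith
  · have d2 : dir (gv V (i + 1)) = 1 := by rw [hd, d1]; rfl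
    rcases h2 with ⟨d3, a2, b2, c2⟩ | ⟨d3, a2, b2, c2⟩ | ⟨d3, a2, b2, c2⟩ | ⟨d3, a2, b2, c2⟩
    · rw [d2] at d3; simp at d3
    rotate_left
    · rw [d2] at d3; simp at d3
    · rw [d2] at d3; simp at d3
    right
    refine ⟨ax_of' c1, ?_⟩
    have := reversal_v (h := hf V) (w := vf V) hX hY hi a1 (c := -t)
      (Or.inr ⟨by linarith, by rw [show vf V i = -|mf V i| from b1]; linarith,
        by rw [show vf V (i + 1) = |mf V (i + 1)| from b2]; linarith⟩)
    rw [abs_neg, abs_of_nonneg t0] at this
    change ar (hf V) (vf V) V.length + t * nE V ≤ nE V * nN V at this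
    change _ ≤ nE V * nN V - ar (hf V) (vf V) V.length
    linarith

lemma exists_E {V : List Vis} (hR : Red V) (h : 0 < nE V) :
    ∃ j, j < V.length ∧ dir (gv V j) = 0 := by
  by_contra hc
  push Not at hc
  have : nE V = 0 := by
    unfold nE ps
    refine Finset.sum_eq_zero fun t ht => ?_
    rw [Finset.mem_range] at ht
    have h1 := mf_ne_zero hR ht
    rcases hd_dir (p := gv V t) h1 with ⟨d1, a1, b1, c1⟩ | ⟨d1, a1, b1, c1⟩ | ⟨d1, a1, b1, c1⟩ |
      ⟨d1, a1, b1, c1⟩
    · exact absurd d1 (hc t ht)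
    · simp [hf, a1]
    · simp [hf, a1]
    · simp [hf, a1]
  omega

lemma exists_N {V : List Vis} (hR : Red V) (h : 0 < nN V) :
    ∃ j, j < V.length ∧ dir (gv V j) = 1 := by
  by_contra hc
  push Not at hc
  have : nN V = 0 := by
    unfold nN ps
    refine Finset.sum_eq_zero fun t ht => ?_
    rw [Finset.mem_range] at ht
    have h1 := mf_ne_zero hR ht
    rcases hd_dir (p := gv V t) h1 with ⟨d1, a1, b1, c1⟩ | ⟨d1, a1, b1, c1⟩ | ⟨d1, a1, b1, c1⟩ |
      ⟨d1, a1, b1, c1⟩
    · simp [vf, b1]
    · exact absurd d1 (hc t ht)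
    · simp [vf, b1]
    · simp [vf, b1]
  omega

lemma exists_W {V : List Vis} (hR : Red V) (h : 0 < nW V) :
    ∃ j, j < V.length ∧ dir (gv V j) = 2 := by
  by_contra hc
  push Not at hc
  have : nW V = 0 := by
    unfold nW ns
    refine Finset.sum_eq_zero fun t ht => ?_
    rw [Finset.mem_range] at ht
    have h1 := mf_ne_zero hR ht
    rcases hd_dir (p := gv V t) h1 with ⟨d1, a1, b1, c1⟩ | ⟨d1, a1, b1, c1⟩ | ⟨d1, a1, b1, c1⟩ |
      ⟨d1, a1, b1, c1⟩
    · simp [hf, a1]
    · simp [hf, a1]
    · exact absurd d1 (hc t ht)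
    · simp [hf, a1]
  omega

lemma exists_S {V : List Vis} (hR : Red V) (h : 0 < nS V) :
    ∃ j, j < V.length ∧ dir (gv V j) = 3 := by
  by_contra hc
  push Not at hc
  have : nS V = 0 := by
    unfold nS ns
    refine Finset.sum_eq_zero fun t ht => ?_
    rw [Finset.mem_range] at ht
    have h1 := mf_ne_zero hR ht
    rcases hd_dir (p := gv V t) h1 with ⟨d1, a1, b1, c1⟩ | ⟨d1, a1, b1, c1⟩ | ⟨d1, a1, b1, c1⟩ |
      ⟨d1, a1, b1, c1⟩
    · simp [vf, b1]
    · simp [vf, b1]
    · simp [vf, b1]
    · exact absurd d1 (hc t ht)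
  omega

lemma W_small {V : List Vis} (hR : Red V) {j : ℕ} (hj : j < V.length)
    (hd : dir (gv V j) = 2) : |mf V j| ≤ nW V := by
  have h1 : max (-(hf V j)) 0 ≤ nW V :=
    Finset.single_le_sum (f := fun t => max (-(hf V t)) 0) (fun _ _ => le_max_right _ _)
      (Finset.mem_range.2 hj)
  rcases hd_dir (p := gv V j) (mf_ne_zero hR hj) with ⟨d1, a1, b1, c1⟩ | ⟨d1, a1, b1, c1⟩ |
    ⟨d1, a1, b1, c1⟩ | ⟨d1, a1, b1, c1⟩
  · rw [d1] at hd; simp at hd
  · rw [d1] at hd; simp at hd
  · rw [show hf V j = -|mf V j| from a1, neg_neg] at h1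
    exact (le_max_left _ _).trans h1
  · rw [d1] at hd; simp at hd

lemma S_small {V : List Vis} (hR : Red V) {j : ℕ} (hj : j < V.length)
    (hd : dir (gv V j) = 3) : |mf V j| ≤ nS V := by
  have h1 : max (-(vf V j)) 0 ≤ nS V :=
    Finset.single_le_sum (f := fun t => max (-(vf V t)) 0) (fun _ _ => le_max_right _ _)
      (Finset.mem_range.2 hj)
  rcases hd_dir (p := gv V j) (mf_ne_zero hR hj) with ⟨d1, a1, b1, c1⟩ | ⟨d1, a1, b1, c1⟩ |
    ⟨d1, a1, b1, c1⟩ | ⟨d1, a1, b1, c1⟩
  · rw [d1] at hd; simp at hd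
  · rw [d1] at hd; simp at hd
  · rw [d1] at hd; simp at hd
  · rw [show vf V j = -|mf V j| from b1, neg_neg] at h1
    exact (le_max_left _ _).trans h1

/-- the statistic `nE - nN` -/
def LL (V : List Vis) : ℤ := nE V - nN V

lemma dir_ax {V : List Vis} (hR : Red V) {j : ℕ} (hj : j < V.length) :
    (ax (kf V j) = true ↔ (dir (gv V j) = 0 ∨ dir (gv V j) = 2)) ∧
    (ax (kf V j) = false ↔ (dir (gv V j) = 1 ∨ dir (gv V j) = 3)) := by
  rcases hd_dir (p := gv V j) (mf_ne_zero hR hj) with ⟨d1, a1, b1, c1⟩ | ⟨d1, a1, b1, c1⟩ |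
    ⟨d1, a1, b1, c1⟩ | ⟨d1, a1, b1, c1⟩
  · rw [show ax (kf V j) = true from ax_of c1, d1]; simp
  · rw [show ax (kf V j) = false from ax_of' c1, d1]; simp
  · rw [show ax (kf V j) = true from ax_of c1, d1]; simp
  · rw [show ax (kf V j) = false from ax_of' c1, d1]; simp

lemma fin4_ne {a b : Fin 4} (h1 : a ≠ b) (h2 : b ≠ a + 2) :
    (a = 0 ∨ a = 2) ∧ (b = 1 ∨ b = 3) ∨ (a = 1 ∨ a = 3) ∧ (b = 0 ∨ b = 2) := by
  revert a b; decide

/-- a small visit or a pair -/
lemma rev_or_pair {V : List Vis} (hx : 0 ≤ XX V) (hy : 0 ≤ YY V) (hR : Red V) {c : ℕ}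
    (hc : (V.map dir).toFinset.card ≤ c) (hch : c ≤ chg V) (hV : V ≠ []) :
    (∃ i, i + 1 < V.length ∧ dir (gv V (i + 1)) = dir (gv V i) + 2) ∨
    (∃ i j, ∃ b : Bool, ∃ i' : ℕ, i + 1 < j ∧ j < V.length ∧ dir (gv V i) = dir (gv V j) ∧
      (i' = i ∨ i' = j) ∧ ax (kf V i) ≠ b ∧ ax (kf V j) ≠ b ∧ ax (kf V (i + 1)) = b ∧
      |mf V i'| * |Dl b V i j| ≤ nE V * nN V - AR V) := by
  rcases repeat_dir V hV with ⟨i, j, h1, h2, h3, h4⟩ | h
  · by_cases hrev : dir (gv V (i + 1)) = dir (gv V i) + 2
    · exact Or.inl ⟨i, by omega, hrev⟩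
    · right
      obtain ⟨b, i', g1, g2, g3, g4⟩ := pair_bound hx hy hR h1 h2 h3
      refine ⟨i, j, b, i', h1, h2, h3, g1, g2, g3, ?_, g4⟩
      have e1 := dir_ax hR (j := i) (by omega)
      have e2 := dir_ax hR (j := i + 1) (by omega)
      have e3 := fin4_ne h4 hrev
      rcases e3 with ⟨f1, f2⟩ | ⟨f1, f2⟩
      · rw [e2.2.2 f2]
        rw [e1.1.2 f1] at g2
        cases b <;> simp_all
      · rw [e2.1.2 f2]
        rw [e1.2.2 f1] at g2
        cases b <;> simp_all
  · omega

/-- Geodesics with seven visits. -/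
theorem feat7 {V : List Vis} {s f : Fin 4} (hS : Std V) (h : Geo s V f) (hR : Red V)
    (h7 : V.length = 7) {S n : ℤ} (hS0 : 1 ≤ S) (hn : n < S ^ 2 + S) (hlen : len V ≤ n) :
    |LL V| ≤ 2 * S ∧
    ((∃ i0 j0, i0 < 7 ∧ j0 < 7 ∧ i0 ≠ j0 ∧ |mf V i0| ≤ 1 ∧
        (dir (gv V j0) = 0 ∨ dir (gv V j0) = 1)) ∨
     (∃ i j, ∃ b : Bool, ∃ i' j0 : ℕ, i + 1 < j ∧ j < 7 ∧ i' < 7 ∧ j0 < 7 ∧
        i' ≠ i + 1 ∧ j0 ≠ i' ∧ ax (kf V (i + 1)) = b ∧ ax (kf V j0) ≠ b ∧
        (dir (gv V j0) = 0 ∨ dir (gv V j0) = 1) ∧ |mf V i'| * |Dl b V i j| ≤ n)) := by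
  have hV : V ≠ [] := by rintro rfl; simp at h7
  have h6 : 6 ≤ V.length := by omega
  have t6 := upper6 hS h
  have t1 := tgs_red hR hV s f
  have t2 : s = kf V 0 := by
    by_contra hc
    rw [if_neg hc] at t1
    omega
  have t3 : tgs s V f = 6 := by
    have := tgs_ge hR hV s f
    omega
  have u1 : (XX V + 1) * (YY V + 1 + (nW V + nS V)) < ZZ V + XX V + YY V + 1 := by
    by_contra hc
    push Not at hc
    have := shape1 hS h hR h6 hc
    omega
  have u2 : (XX V + 1 + (nW V + nS V)) * (YY V + 1) < ZZ V + XX V + YY V + 1 := by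
    by_contra hc
    push Not at hc
    have := shape2 hS h hR h6 hc
    omega
  have hAR := AR_le hS.hx hS.hy
  have hmu := mu_nonneg V
  have hW := nW_nonneg V
  have hSS := nS_nonneg V
  have hk : 1 ≤ nW V := by
    by_contra hc
    have h0 : nW V = 0 := by omega
    rw [Zval', XX_eq, YY_eq, h0] at u1
    nlinarith
  have hl : 1 ≤ nS V := by
    by_contra hc
    have h0 : nS V = 0 := by omega
    rw [Zval', XX_eq, YY_eq, h0] at u2
    nlinarith
  have hD1 := defect_l hS h hR h6 hl
  have hD2 := defect_k hS h hR h6 hk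
  have hEn : nE V ≤ n := by
    have := len_eq V
    have := nN_nonneg V
    linarith
  have hx := XX_eq V
  have hy := YY_eq V
  have hE1 : 1 ≤ nE V := by have := hS.hx; linarith
  have hN1 : 1 ≤ nN V := by have := hS.hy; linarith
  have hL1 : nE V - nN V < 2 * S := by
    by_contra hc
    push Not at hc
    have h8 := small_k hS h hR h6 hS0 (by linarith) hc
    rw [Zval', XX_eq, YY_eq] at u1
    nlinarith
  have hL2 : nN V - nE V < 2 * S := by
    by_contra hc
    push Not at hc
    have h8 := small_l hS h hR h6 hS0 (by linarith) hc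
    rw [Zval', XX_eq, YY_eq] at u2
    nlinarith
  refine ⟨abs_le.2 ⟨by unfold LL; linarith, by unfold LL; linarith⟩, ?_⟩
  have hch : 4 ≤ chg V := by
    cases V with
    | nil => simp at h7
    | cons p V =>
      have e : s = p.1 := by rw [t2]; simp [kf]
      rw [e] at h t3
      have := lane h hR
      omega
  have hcard : (V.map dir).toFinset.card ≤ 4 := (Finset.card_le_univ _).trans (by simp)
  rcases rev_or_pair hS.hx hS.hy hR hcard hch hV with ⟨i, hi, hrev⟩ | hp
  · left
    -- the smaller of the two has at most one step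
    have hsmall : ∃ i0, i0 < 7 ∧ ax (kf V i0) = ax (kf V i) ∧ |mf V i0| ≤ 1 := by
      have hax : ax (kf V (i + 1)) = ax (kf V i) := by
        have e1 := dir_ax hR (j := i) (by omega)
        have e2 := dir_ax hR (j := i + 1) (by omega)
        by_cases hb : ax (kf V i) = true
        · rw [hb]
          rcases e1.1.1 hb with h9 | h9
          · exact e2.1.2 (Or.inr (by rw [hrev, h9]; rfl))
          · exact e2.1.2 (Or.inl (by rw [hrev, h9]; rfl))
        · have hb : ax (kf V i) = false := by simpa using hb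
          rw [hb]
          rcases e1.2.1 hb with h9 | h9
          · exact e2.2.2 (Or.inr (by rw [hrev, h9]; rfl))
          · exact e2.2.2 (Or.inl (by rw [hrev, h9]; rfl))
      have hmin : min |mf V i| |mf V (i + 1)| ≤ 1 := by
        by_contra hc
        push Not at hc
        rcases reversal_bound hS.hx hS.hy hR hi hrev with ⟨_, h9⟩ | ⟨_, h9⟩
        · have : 2 * nN V ≤ min |mf V i| |mf V (i + 1)| * nN V :=
            mul_le_mul_of_nonneg_right (by omega) (by omega)
          linarith
        · have : 2 * nE V ≤ min |mf V i| |mf V (i + 1)| * nE V :=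
            mul_le_mul_of_nonneg_right (by omega) (by omega)
          linarith
      rcases min_le_iff.1 hmin with h9 | h9
      · exact ⟨i, by omega, rfl, h9⟩
      · exact ⟨i + 1, by omega, hax, h9⟩
    obtain ⟨i0, g1, g2, g3⟩ := hsmall
    by_cases hb : ax (kf V i0) = true
    · obtain ⟨j0, k1, k2⟩ := exists_N hR (by linarith : 0 < nN V)
      refine ⟨i0, j0, g1, by omega, ?_, g3, Or.inr k2⟩
      rintro rfl
      have := (dir_ax hR k1).2.2 (Or.inl k2)
      rw [hb] at this; simp at this
    · have hb : ax (kf V i0) = false := by simpa using hb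
      obtain ⟨j0, k1, k2⟩ := exists_E hR (by linarith : 0 < nE V)
      refine ⟨i0, j0, g1, by omega, ?_, g3, Or.inl k2⟩
      rintro rfl
      have := (dir_ax hR k1).1.2 (Or.inl k2)
      rw [hb] at this; simp at this
  · right
    obtain ⟨i, j, b, i', g1, g2, g3, g4, g5, g6, g7, g8⟩ := hp
    have hbound : |mf V i'| * |Dl b V i j| ≤ n := by linarith
    have hi' : ax (kf V i') ≠ b := by
      rcases g4 with rfl | rfl
      · exact g5
      · exact g6
    have hne : i' ≠ i + 1 := by
      rcases g4 with rfl | rfl <;> omega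
    have hi'7 : i' < 7 := by rcases g4 with rfl | rfl <;> omega
    -- choose `j0`
    have hj0 : ∃ j0, j0 < 7 ∧ j0 ≠ i' ∧ ax (kf V j0) ≠ b ∧
        (dir (gv V j0) = 0 ∨ dir (gv V j0) = 1) := by
      by_cases hpos : dir (gv V i) = 0 ∨ dir (gv V i) = 1
      · rcases g4 with rfl | rfl
        · refine ⟨j, by omega, by omega, g6, by rw [← g3]; exact hpos⟩
        · exact ⟨i, by omega, by omega, g5, hpos⟩
      · push Not at hpos
        have e1 := dir_ax hR (j := i) (by omega)
        have hdi' : dir (gv V i') = dir (gv V i) := by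
          rcases g4 with rfl | rfl
          · rfl
          · exact g3.symm
        by_cases hb : ax (kf V i) = true
        · have hd2 : dir (gv V i) = 2 := (e1.1.1 hb).resolve_left hpos.1
          obtain ⟨j0, k1, k2⟩ := exists_E hR (by linarith : 0 < nE V)
          refine ⟨j0, by omega, ?_, ?_, Or.inl k2⟩
          · rintro rfl
            rw [hdi', hd2] at k2; simp at k2
          · rw [(dir_ax hR k1).1.2 (Or.inl k2), ← hb]; exact g5
        · have hb : ax (kf V i) = false := by simpa using hb
          have hd2 : dir (gv V i) = 3 := (e1.2.1 hb).resolve_left hpos.2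
          obtain ⟨j0, k1, k2⟩ := exists_N hR (by linarith : 0 < nN V)
          refine ⟨j0, by omega, ?_, ?_, Or.inr k2⟩
          · rintro rfl
            rw [hdi', hd2] at k2; simp at k2
          · rw [(dir_ax hR k1).2.2 (Or.inl k2), ← hb]; exact g5
    obtain ⟨j0, k1, k2, k3, k4⟩ := hj0
    exact ⟨i, j, b, i', j0, g1, by omega, hi'7, k1, hne, k2, g7, k3, k4, hbound⟩

/-- Geodesics with six visits. -/
theorem feat6 {V : List Vis} {s f : Fin 4} (hS : Std V) (h : Geo s V f) (hR : Red V)
    (h6' : V.length = 6) {S n : ℤ} (hS0 : 1 ≤ S) (hn : n < S ^ 2 + S) (hlen : len V ≤ n) :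
    (|LL V| ≤ 2 * S ∧ ∃ j0, j0 < 6 ∧ (dir (gv V j0) = 0 ∨ dir (gv V j0) = 1)) ∨
    (∃ i0, i0 < 6 ∧ |mf V i0| ≤ S) ∨
    (∃ i j, ∃ b : Bool, ∃ i' : ℕ, i + 1 < j ∧ j < 6 ∧ i' < 6 ∧ i' ≠ i + 1 ∧
        ax (kf V (i + 1)) = b ∧ |mf V i'| * |Dl b V i j| ≤ n) := by
  have hV : V ≠ [] := by rintro rfl; simp at h6'
  have h6 : 6 ≤ V.length := by omega
  have hAR := AR_le hS.hx hS.hy
  have hmu := mu_nonneg V
  have hW := nW_nonneg V
  have hSS := nS_nonneg V
  have hE0 := nE_nonneg V
  have hN0 := nN_nonneg V
  have hx := XX_eq V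
  have hy := YY_eq V
  have hex := exc_pos hS
  have hL := len_eq V
  have fin : tgs s V f ≤ 5 → s = kf V 0 ∧ 3 ≤ chg V := by
    intro t5
    have t1 := tgs_red hR hV s f
    have t2 : s = kf V 0 := by
      by_contra hc
      rw [if_neg hc] at t1
      omega
    have t3 : tgs s V f = 5 := by
      have := tgs_ge hR hV s f
      omega
    refine ⟨t2, ?_⟩
    cases V with
    | nil => simp at h6
    | cons p V =>
      have e : s = p.1 := by rw [t2]; simp [kf]
      rw [e] at h t3
      have := lane h hR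
      omega
  by_cases hL0 : |LL V| ≤ 2 * S
  · left
    refine ⟨hL0, ?_⟩
    rcases lt_or_ge 0 (nE V) with h1 | h1
    · obtain ⟨j, k1, k2⟩ := exists_E hR h1
      exact ⟨j, by omega, Or.inl k2⟩
    · rcases lt_or_ge 0 (nN V) with h2 | h2
      · obtain ⟨j, k1, k2⟩ := exists_N hR h2
        exact ⟨j, by omega, Or.inr k2⟩
      · exfalso
        have := hS.hx
        have := hS.hy
        linarith
  · right
    rw [abs_le, not_and_or] at hL0
    push Not at hL0
    rcases hL0 with hL0 | hL0
    · -- more north than east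
      unfold LL at hL0
      have hl := small_l hS h hR h6 hS0 (by linarith) (by linarith)
      rcases lt_or_ge 0 (nS V) with h1 | h1
      · left
        obtain ⟨j, k1, k2⟩ := exists_S hR h1
        exact ⟨j, by omega, by have := S_small hR k1 k2; linarith⟩
      · have h0 : nS V = 0 := by omega
        have hk : 1 ≤ nW V := by omega
        have hD2 := defect_k hS h hR h6 hk
        have t5 : tgs s V f ≤ 5 := by
          refine shape2 hS h hR h6 ?_
          rw [Zval', XX_eq, YY_eq, h0]
          nlinarith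
        obtain ⟨t2, hch⟩ := fin t5
        have hnoS : (3 : Fin 4) ∉ (V.map dir).toFinset := by
          rw [List.mem_toFinset, List.mem_map]
          rintro ⟨a, ha, hda⟩
          obtain ⟨n', hn', hn2⟩ := List.getElem_of_mem ha
          have hgv : gv V n' = a := by
            unfold gv
            rw [List.getD_eq_getElem _ _ hn', hn2]
          have h9 := S_small hR hn' (by rw [hgv]; exact hda)
          have h10 := mf_ne_zero hR hn'
          have h11 : 0 < |mf V n'| := abs_pos.2 h10
          linarith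
        have hcard : (V.map dir).toFinset.card ≤ 3 := by
          have : (V.map dir).toFinset ⊆ Finset.univ.erase 3 := by
            intro d hd
            rw [Finset.mem_erase]
            exact ⟨fun h => hnoS (h ▸ hd), Finset.mem_univ _⟩
          exact (Finset.card_le_card this).trans (by simp)
        rcases rev_or_pair hS.hx hS.hy hR hcard hch hV with ⟨i, hi, hrev⟩ | hp
        · left
          have hmin : min |mf V i| |mf V (i + 1)| ≤ 1 := by
            by_contra hc
            push Not at hc
            rcases reversal_bound hS.hx hS.hy hR hi hrev with ⟨_, h9⟩ | ⟨h8, h9⟩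
            · have : 2 * nN V ≤ min |mf V i| |mf V (i + 1)| * nN V :=
                mul_le_mul_of_nonneg_right (by omega) (by omega)
              linarith
            · exfalso
              rcases (dir_ax hR (j := i) (by omega)).2.1 h8 with h10 | h10
              · apply hnoS
                rw [List.mem_toFinset, List.mem_map]
                refine ⟨gv V (i + 1), ?_, by rw [hrev, h10]; rfl⟩
                unfold gv
                rw [List.getD_eq_getElem _ _ hi]
                exact List.getElem_mem _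
              · apply hnoS
                rw [List.mem_toFinset, List.mem_map]
                refine ⟨gv V i, ?_, h10⟩
                unfold gv
                rw [List.getD_eq_getElem _ _ (by omega : i < V.length)]
                exact List.getElem_mem _
          rcases min_le_iff.1 hmin with h9 | h9
          · exact ⟨i, by omega, by linarith⟩
          · exact ⟨i + 1, by omega, by linarith⟩
        · right
          obtain ⟨i, j, b, i', g1, g2, g3, g4, g5, g6, g7, g8⟩ := hp
          refine ⟨i, j, b, i', g1, by omega, ?_, ?_, g7, by linarith⟩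
          · rcases g4 with rfl | rfl <;> omega
          · rcases g4 with rfl | rfl <;> omega
    · -- more east than north
      unfold LL at hL0
      have hl := small_k hS h hR h6 hS0 (by linarith) (by linarith)
      rcases lt_or_ge 0 (nW V) with h1 | h1
      · left
        obtain ⟨j, k1, k2⟩ := exists_W hR h1
        exact ⟨j, by omega, by have := W_small hR k1 k2; linarith⟩
      · have h0 : nW V = 0 := by omega
        have hk : 1 ≤ nS V := by omega
        have hD2 := defect_l hS h hR h6 hk
        have t5 : tgs s V f ≤ 5 := by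
          refine shape1 hS h hR h6 ?_
          rw [Zval', XX_eq, YY_eq, h0]
          nlinarith
        obtain ⟨t2, hch⟩ := fin t5
        have hnoW : (2 : Fin 4) ∉ (V.map dir).toFinset := by
          rw [List.mem_toFinset, List.mem_map]
          rintro ⟨a, ha, hda⟩
          obtain ⟨n', hn', hn2⟩ := List.getElem_of_mem ha
          have hgv : gv V n' = a := by
            unfold gv
            rw [List.getD_eq_getElem _ _ hn', hn2]
          have h9 := W_small hR hn' (by rw [hgv]; exact hda)
          have h10 := mf_ne_zero hR hn'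
          have h11 : 0 < |mf V n'| := abs_pos.2 h10
          linarith
        have hcard : (V.map dir).toFinset.card ≤ 3 := by
          have : (V.map dir).toFinset ⊆ Finset.univ.erase 2 := by
            intro d hd
            rw [Finset.mem_erase]
            exact ⟨fun h => hnoW (h ▸ hd), Finset.mem_univ _⟩
          exact (Finset.card_le_card this).trans (by simp)
        rcases rev_or_pair hS.hx hS.hy hR hcard hch hV with ⟨i, hi, hrev⟩ | hp
        · left
          have hmin : min |mf V i| |mf V (i + 1)| ≤ 1 := by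
            by_contra hc
            push Not at hc
            rcases reversal_bound hS.hx hS.hy hR hi hrev with ⟨h8, h9⟩ | ⟨_, h9⟩
            · exfalso
              rcases (dir_ax hR (j := i) (by omega)).1.1 h8 with h10 | h10
              · apply hnoW
                rw [List.mem_toFinset, List.mem_map]
                refine ⟨gv V (i + 1), ?_, by rw [hrev, h10]; rfl⟩
                unfold gv
                rw [List.getD_eq_getElem _ _ hi]
                exact List.getElem_mem _
              · apply hnoW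
                rw [List.mem_toFinset, List.mem_map]
                refine ⟨gv V i, ?_, h10⟩
                unfold gv
                rw [List.getD_eq_getElem _ _ (by omega : i < V.length)]
                exact List.getElem_mem _
            · have : 2 * nE V ≤ min |mf V i| |mf V (i + 1)| * nE V :=
                mul_le_mul_of_nonneg_right (by omega) (by omega)
              linarith
          rcases min_le_iff.1 hmin with h9 | h9
          · exact ⟨i, by omega, by linarith⟩
          · exact ⟨i + 1, by omega, by linarith⟩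
        · right
          obtain ⟨i, j, b, i', g1, g2, g3, g4, g5, g6, g7, g8⟩ := hp
          refine ⟨i, j, b, i', g1, by omega, ?_, ?_, g7, by linarith⟩
          · rcases g4 with rfl | rfl <;> omega
          · rcases g4 with rfl | rfl <;> omega

end Pool.Agent.H21Geo
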