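import Pool.Agent.H21Geo.Fam

set_option autoImplicit false
set_option linter.unusedSimpArgs false
set_option linter.unusedVariables false

/-! Assembly. -/

namespace Pool.Agent.H21Geo

open Finset

def push (s : Fin 4) (m : ℤ) : List Vis → List Vis
  | [] => [(s, m)]
  | p :: V => if p.1 = s then (s, m + p.2) :: V else (s, m) :: p :: V

/-- decoding of words -/
def dec : Fin 4 → List Q → List Vis × Fin 4
  | s, [] => ([], s)
  | s, l :: w => if l.k = 0 then (push s l.x (dec s w).1, (dec s w).2) else dec (s + l.k) w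

lemma dec_tog (s j : Fin 4) (w : List Q) : dec s (tog j ++ w) = dec (s + j) w := by
  by_cases h : j = 0
  · subst h; simp
  · rw [tog_ne h]
    simp [dec, h]

lemma push_new {s : Fin 4} {m : ℤ} {V : List Vis} (h : ∀ p W, V = p :: W → p.1 ≠ s) :
    push s m V = (s, m) :: V := by
  cases V with
  | nil => rfl
  | cons p V => simp [push, h p V rfl]

lemma dec_pw {s : Fin 4} {w : List Q} (h : ∀ p W, (dec s w).1 = p :: W → p.1 ≠ s) :
    ∀ n : ℕ, dec s (pw ((n : ℤ) + 1) ++ w) = ((s, (n : ℤ) + 1) :: (dec s w).1, (dec s w).2) ∧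
      dec s (pw (-((n : ℤ) + 1)) ++ w) = ((s, -((n : ℤ) + 1)) :: (dec s w).1, (dec s w).2) := by
  intro n
  induction n with
  | zero =>
    constructor
    · simp only [Nat.cast_zero, zero_add]
      rw [show pw 1 = [am 1] from rfl]
      simp only [List.cons_append, List.nil_append, dec, am_k, if_true, am_x]
      rw [push_new h]
    · simp only [Nat.cast_zero, zero_add]
      rw [show pw (-1) = [am (-1)] from rfl]
      simp only [List.cons_append, List.nil_append, dec, am_k, if_true, am_x]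
      rw [push_new h]
  | succ n ih =>
    constructor
    · rw [← pw_cons_pos (m := ((n + 1 : ℕ) : ℤ)) (by positivity)]
      push_cast
      simp only [List.cons_append, dec, am_k, if_true, am_x]
      rw [ih.1]
      simp only [push, if_true]
      rw [add_comm (1 : ℤ)]
    · have e : (-(((n + 1 : ℕ) : ℤ) + 1)) = -((n : ℤ) + 1) - 1 := by push_cast; ring
      rw [e, ← pw_cons_neg (m := -((n : ℤ) + 1)) (by omega)]
      simp only [List.cons_append, dec, am_k, if_true, am_x]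
      rw [ih.2]
      simp only [push, if_true]
      rw [show (-1 : ℤ) + -((n : ℤ) + 1) = -((n : ℤ) + 1) - 1 by ring]

lemma dec_pw' {s : Fin 4} {w : List Q} (h : ∀ p W, (dec s w).1 = p :: W → p.1 ≠ s) {m : ℤ}
    (hm : m ≠ 0) : dec s (pw m ++ w) = ((s, m) :: (dec s w).1, (dec s w).2) := by
  rcases lt_or_gt_of_ne hm with h1 | h1
  · have := (dec_pw h (m.natAbs - 1)).2
    have e : -(((m.natAbs - 1 : ℕ) : ℤ) + 1) = m := by omega
    rwa [e] at this
  · have := (dec_pw h (m.natAbs - 1)).1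
    have e : (((m.natAbs - 1 : ℕ) : ℤ) + 1) = m := by omega
    rwa [e] at this

lemma dec_wd (s : Fin 4) (V : List Vis) (f : Fin 4) (hR : Red V) : dec s (wd s V f) = (V, f) := by
  induction V generalizing s with
  | nil =>
    have := dec_tog s (f - s) []
    rw [List.append_nil] at this
    simp only [wd]
    rw [this]
    simp [dec]
  | cons p V ih =>
    simp only [wd]
    rw [dec_tog, add_sub_cancel]
    have h1 := ih p.1 hR.tail
    rw [dec_pw' (by
      intro q W hq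
      rw [h1] at hq
      simp only at hq
      subst hq
      exact hR.2.1.symm) hR.head, h1]

lemma wd_inj {s : Fin 4} {V V' : List Vis} {f f' : Fin 4} (hR : Red V) (hR' : Red V')
    (h : wd s V f = wd s V' f') : V = V' ∧ f = f' := by
  have h1 := dec_wd s V f hR
  have h2 := dec_wd s V' f' hR'
  rw [h, h2] at h1
  rw [Prod.mk.injEq] at h1
  exact ⟨h1.1.symm, h1.2.symm⟩

/-- the set of geodesic words of length at most `n` -/
def GW (n : ℕ) : Set (List Q) := {w | w.length ≤ n ∧ IsGeo w}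

lemma fin_of_bound {n M : ℕ} (h : ∀ W : Finset (List Q), (∀ w ∈ W, w ∈ GW n) → W.card ≤ M) :
    (GW n).Finite ∧ (GW n).ncard ≤ M := by
  have hfin : (GW n).Finite := by
    by_contra hinf
    obtain ⟨t, ht, hcard⟩ := Set.Infinite.exists_subset_card_eq hinf (M + 1)
    have := h t (fun w hw => ht hw)
    omega
  refine ⟨hfin, ?_⟩
  rw [Set.ncard_eq_toFinset_card _ hfin]
  exact h _ fun w hw => by simpa using hw

lemma GW_poly {n : ℕ} (hn : 1 ≤ n) :
    (GW n).Finite ∧ (GW n).ncard ≤ 8 * (20 ^ 7 * n ^ 7) * 4 := by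
  refine fin_of_bound fun W hW => ?_
  exact words_le (n := n) _ (fun Ω hΩ => card_poly hn Ω hΩ) W fun w hw =>
    ⟨(hW w hw).2, (hW w hw).1⟩

lemma GW_upper {q : ℕ} (hq : 1 ≤ q) : (GW (q ^ 6)).ncard ≤ CU * q ^ 35 * 4 := by
  refine (fin_of_bound fun W hW => ?_).2
  exact words_le (n := q ^ 6) _ (fun Ω hΩ => card_all hq Ω fun V hV =>
    ⟨(hΩ V hV).1, by simpa using (hΩ V hV).2⟩) W fun w hw => ⟨(hW w hw).2, (hW w hw).1⟩

/-- parameters of the family -/
def par (q : ℕ) : Finset (ℕ × ℕ × ℕ × ℕ × ℕ × ℕ) :=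
  range (q ^ 2) ×ˢ range (q ^ 2) ×ˢ range (q ^ 2) ×ˢ range (q ^ 2) ×ˢ range (q ^ 2) ×ˢ range q

def famP (q : ℕ) (x : ℕ × ℕ × ℕ × ℕ × ℕ × ℕ) : List Vis :=
  fam (x.1 + 1) (x.2.1 + 1)
    ((10 * q ^ 2 + x.2.2.1) + (10 * q ^ 2 + x.2.2.2.1) - (10 * q ^ 2 + x.2.2.2.2.1) +
      x.2.2.2.2.2)
    (10 * q ^ 2 + x.2.2.1) (10 * q ^ 2 + x.2.2.2.2.1) (10 * q ^ 2 + x.2.2.2.1)

lemma famP_inj (q : ℕ) : Function.Injective (famP q) := by
  rintro ⟨r1, r2, y, l, k, d⟩ ⟨r1', r2', y', l', k', d'⟩ h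
  simp only [famP, fam, List.cons.injEq, Prod.mk.injEq, true_and, and_true] at h
  obtain ⟨g1, g2, g3, g4, g5, g6⟩ := h
  have a1 : r1 = r1' := by omega
  have a2 : r2 = r2' := by omega
  have a3 : l = l' := by omega
  have a4 : y = y' := by omega
  have a5 : k = k' := by omega
  have a6 : d = d' := by omega
  subst a1; subst a2; subst a3; subst a4; subst a5; subst a6
  rfl

lemma famP_geo {q : ℕ} (hq : 1 ≤ q) {x : ℕ × ℕ × ℕ × ℕ × ℕ × ℕ} (hx : x ∈ par q) :
    Geo 1 (famP q x) 0 ∧ Red (famP q x) ∧ cost 1 (famP q x) 0 ≤ 100 * q ^ 2 := by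
  obtain ⟨r1, r2, y, l, k, d⟩ := x
  simp only [par, Finset.mem_product, Finset.mem_range] at hx
  obtain ⟨h1, h2, h3, h4, h5, h6⟩ := hx
  have i1 : (r1 : ℤ) + 1 ≤ (q : ℤ) ^ 2 := by exact_mod_cast h1
  have i2 : (r2 : ℤ) + 1 ≤ (q : ℤ) ^ 2 := by exact_mod_cast h2
  have i3 : (y : ℤ) + 1 ≤ (q : ℤ) ^ 2 := by exact_mod_cast h3
  have i4 : (l : ℤ) + 1 ≤ (q : ℤ) ^ 2 := by exact_mod_cast h4
  have i5 : (k : ℤ) + 1 ≤ (q : ℤ) ^ 2 := by exact_mod_cast h5
  have i6 : (d : ℤ) + 1 ≤ (q : ℤ) := by exact_mod_cast h6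
  have hq' : (1 : ℤ) ≤ q := by exact_mod_cast hq
  have hqq : (q : ℤ) ≤ (q : ℤ) ^ 2 := by nlinarith
  have n1 : (0 : ℤ) ≤ r1 := by positivity
  have n2 : (0 : ℤ) ≤ r2 := by positivity
  have n3 : (0 : ℤ) ≤ y := by positivity
  have n4 : (0 : ℤ) ≤ l := by positivity
  have n5 : (0 : ℤ) ≤ k := by positivity
  have n6 : (0 : ℤ) ≤ d := by positivity
  refine ⟨?_, ?_, ?_⟩
  · exact fam_geo (q := q) (δ := d) hq' (by simp only; linarith) (by simp only; linarith)
      (by simp only; linarith)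
      (by simp only; linarith) (by simp only; linarith) (by simp only; linarith)
      (by simp only; linarith) (by simp only; linarith) n6 (by linarith) (by simp only)
  · exact fam_red (by simp only; linarith) (by simp only; linarith) (by simp only; linarith)
      (by simp only; linarith) (by simp only; linarith) (by simp only; linarith)
  · have h := fam_cost (r1 := r1 + 1) (r2 := r2 + 1)
      (x := (10 * q ^ 2 + y) + (10 * q ^ 2 + l) - (10 * q ^ 2 + k) + d)
      (y := 10 * q ^ 2 + y) (k := 10 * q ^ 2 + k) (l := 10 * q ^ 2 + l) (by linarith)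
      (by linarith) (by linarith) (by linarith) (by linarith) (by linarith)
    have h' : (cost 1 (famP q (r1, r2, y, l, k, d)) 0 : ℤ) ≤ ((100 * q ^ 2 : ℕ) : ℤ) := by
      change (cost 1 (fam (r1 + 1) (r2 + 1)
        ((10 * q ^ 2 + y) + (10 * q ^ 2 + l) - (10 * q ^ 2 + k) + d)
        (10 * q ^ 2 + y) (10 * q ^ 2 + k) (10 * q ^ 2 + l)) 0 : ℤ) ≤ _
      rw [h]
      push_cast
      linarith
    exact_mod_cast h'

/-- the corresponding word -/
def famW (q : ℕ) (x : ℕ × ℕ × ℕ × ℕ × ℕ × ℕ) : List Q :=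
  wd 0 (rotV (rotV (rotV (famP q x)))) 3

lemma famW_mem {q : ℕ} (hq : 1 ≤ q) {x : ℕ × ℕ × ℕ × ℕ × ℕ × ℕ} (hx : x ∈ par q) :
    famW q x ∈ GW (100 * q ^ 2) := by
  obtain ⟨h1, h2, h3⟩ := famP_geo hq hx
  have h4 : Geo 0 (rotV (rotV (rotV (famP q x)))) 3 := geo_rotV (geo_rotV (geo_rotV h1))
  refine ⟨?_, isGeo_of_geo h4⟩
  unfold famW
  rw [wd_length]
  have h5 := cost_rotV 1 (famP q x) 0
  have h6 := cost_rotV (1 + 1) (rotV (famP q x)) (0 + 1)
  have h7 := cost_rotV (1 + 1 + 1) (rotV (rotV (famP q x))) (0 + 1 + 1)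
  have h8 : cost 0 (rotV (rotV (rotV (famP q x)))) 3 = cost 1 (famP q x) 0 := by
    rw [← h5, ← h6, ← h7]; rfl
  rw [h8]
  exact h3

lemma GW_lower {q : ℕ} (hq : 1 ≤ q) : q ^ 11 ≤ (GW (100 * q ^ 2)).ncard := by
  classical
  have hfin := (GW_poly (n := 100 * q ^ 2) (by nlinarith [Nat.one_le_pow 2 q hq])).1
  have hinj : Set.InjOn (famW q) (par q) := by
    intro x hx y hy h
    have hx2 := (famP_geo hq hx).2.1
    have hy2 := (famP_geo hq hy).2.1
    have h1 := (wd_inj (red_rotV (red_rotV (red_rotV hx2))) (red_rotV (red_rotV (red_rotV hy2)))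
      h).1
    exact famP_inj q (rotV_inj (rotV_inj (rotV_inj h1)))
  have h1 : ((par q).image (famW q)).card = q ^ 11 := by
    rw [Finset.card_image_of_injOn hinj]
    simp only [par, Finset.card_product, Finset.card_range]
    ring
  rw [← h1, Set.ncard_eq_toFinset_card _ hfin]
  refine Finset.card_le_card ?_
  intro w hw
  rw [Finset.mem_image] at hw
  obtain ⟨x, hx, rfl⟩ := hw
  simpa using famW_mem hq hx

open Classical in
/-- the generating set -/
noncomputable def SS : Finset Q := {am 1, tg 1, tg 2}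

lemma mem_SS (x : Q) : (x ∈ SS ∨ x⁻¹ ∈ SS) ↔ IsLet x := by
  have h3 : (tg 1)⁻¹ = tg 3 := by rw [tg_inv]; rfl
  have h2 : (tg 2)⁻¹ = tg 2 := by rw [tg_inv]; rfl
  have h1 : (am 1)⁻¹ = am (-1) := am_inv 1
  simp only [SS, Finset.mem_insert, Finset.mem_singleton, IsLet]
  rw [inv_eq_iff_eq_inv, inv_eq_iff_eq_inv, inv_eq_iff_eq_inv, h1, h2, h3]
  tauto

lemma closure_SS : Subgroup.closure (SS : Set Q) = ⊤ := by
  rw [eq_top_iff]
  intro g _
  have hlet : ∀ l, IsLet l → l ∈ Subgroup.closure (SS : Set Q) := by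
    intro l hl
    rcases (mem_SS l).2 hl with h | h
    · exact Subgroup.subset_closure h
    · exact inv_mem_iff.1 (Subgroup.subset_closure h)
  obtain ⟨x, y, z, k⟩ := g
  have h1 := wd_prod 0 [(0, z), (2, z), (1, y), (0, x)] k
  have h2 : evq [(0, z), (2, z), (1, y), (0, x)] * tg k = ⟨x, y, z, k⟩ := by
    ext <;> simp [evq, XX, YY, ZZ, hd, vd, dz]
  rw [h2, tg_zero, one_mul] at h1
  rw [← h1]
  exact Subgroup.list_prod_mem _ fun l hl => hlet l (wd_let _ _ _ l hl)

end Pool.Agent.H21Geo
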