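import Mathlib

set_option autoImplicit false

/-! The virtually Heisenberg group: the integral Heisenberg group extended by the automorphism of
order four which rotates the generators. -/

namespace Pool.Agent.H21Geo

/-- Elements: `(x, y, z)` in the Heisenberg group, `k` the power of the rotation. -/
@[ext] structure Q where
  x : ℤ
  y : ℤ
  z : ℤ
  k : Fin 4

def rx (k : Fin 4) (x y : ℤ) : ℤ := match k with
  | 0 => x
  | 1 => -y
  | 2 => -x
  | 3 => y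

def ry (k : Fin 4) (x y : ℤ) : ℤ := match k with
  | 0 => y
  | 1 => x
  | 2 => -y
  | 3 => -x

def rz (k : Fin 4) (x y z : ℤ) : ℤ := match k with
  | 0 => z
  | 1 => z + y - x * y
  | 2 => z + x + y
  | 3 => z + x - x * y

instance : Mul Q := ⟨fun g h => ⟨g.x + rx g.k h.x h.y, g.y + ry g.k h.x h.y,
  g.z + rz g.k h.x h.y h.z + g.x * ry g.k h.x h.y, g.k + h.k⟩⟩
instance : One Q := ⟨⟨0, 0, 0, 0⟩⟩
instance : Inv Q := ⟨fun g => ⟨rx (-g.k) (-g.x) (-g.y), ry (-g.k) (-g.x) (-g.y),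
  rz (-g.k) (-g.x) (-g.y) (-g.z + g.x * g.y), -g.k⟩⟩

@[simp] lemma mul_x (g h : Q) : (g * h).x = g.x + rx g.k h.x h.y := rfl
@[simp] lemma mul_y (g h : Q) : (g * h).y = g.y + ry g.k h.x h.y := rfl
@[simp] lemma mul_z (g h : Q) : (g * h).z =
  g.z + rz g.k h.x h.y h.z + g.x * ry g.k h.x h.y := rfl
@[simp] lemma mul_k (g h : Q) : (g * h).k = g.k + h.k := rfl
@[simp] lemma one_x : (1 : Q).x = 0 := rfl
@[simp] lemma one_y : (1 : Q).y = 0 := rfl
@[simp] lemma one_z : (1 : Q).z = 0 := rfl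
@[simp] lemma one_k : (1 : Q).k = 0 := rfl
@[simp] lemma inv_x (g : Q) : (g⁻¹).x = rx (-g.k) (-g.x) (-g.y) := rfl
@[simp] lemma inv_y (g : Q) : (g⁻¹).y = ry (-g.k) (-g.x) (-g.y) := rfl
@[simp] lemma inv_z (g : Q) : (g⁻¹).z = rz (-g.k) (-g.x) (-g.y) (-g.z + g.x * g.y) := rfl
@[simp] lemma inv_k (g : Q) : (g⁻¹).k = -g.k := rfl

lemma forall_fin4 {p : Fin 4 → Prop} : (∀ k, p k) ↔ p 0 ∧ p 1 ∧ p 2 ∧ p 3 := by
  constructor
  · intro h; exact ⟨h 0, h 1, h 2, h 3⟩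
  · rintro ⟨h0, h1, h2, h3⟩ k
    fin_cases k
    · exact h0
    · exact h1
    · exact h2
    · exact h3

lemma rx_add (j k : Fin 4) (x y : ℤ) : rx (j + k) x y = rx j (rx k x y) (ry k x y) := by
  revert j k
  simp only [forall_fin4]
  refine ⟨⟨?_, ?_, ?_, ?_⟩, ⟨?_, ?_, ?_, ?_⟩, ⟨?_, ?_, ?_, ?_⟩, ⟨?_, ?_, ?_, ?_⟩⟩ <;>
    simp [rx, ry, show (1 : Fin 4) + 1 = 2 from rfl, show (1 : Fin 4) + 2 = 3 from rfl,
      show (1 : Fin 4) + 3 = 0 from rfl, show (2 : Fin 4) + 1 = 3 from rfl,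
      show (2 : Fin 4) + 2 = 0 from rfl, show (2 : Fin 4) + 3 = 1 from rfl,
      show (3 : Fin 4) + 1 = 0 from rfl, show (3 : Fin 4) + 2 = 1 from rfl,
      show (3 : Fin 4) + 3 = 2 from rfl]

lemma ry_add (j k : Fin 4) (x y : ℤ) : ry (j + k) x y = ry j (rx k x y) (ry k x y) := by
  revert j k
  simp only [forall_fin4]
  refine ⟨⟨?_, ?_, ?_, ?_⟩, ⟨?_, ?_, ?_, ?_⟩, ⟨?_, ?_, ?_, ?_⟩, ⟨?_, ?_, ?_, ?_⟩⟩ <;>
    simp [rx, ry, show (1 : Fin 4) + 1 = 2 from rfl, show (1 : Fin 4) + 2 = 3 from rfl,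
      show (1 : Fin 4) + 3 = 0 from rfl, show (2 : Fin 4) + 1 = 3 from rfl,
      show (2 : Fin 4) + 2 = 0 from rfl, show (2 : Fin 4) + 3 = 1 from rfl,
      show (3 : Fin 4) + 1 = 0 from rfl, show (3 : Fin 4) + 2 = 1 from rfl,
      show (3 : Fin 4) + 3 = 2 from rfl]

lemma rz_add (j k : Fin 4) (x y z : ℤ) :
    rz (j + k) x y z = rz j (rx k x y) (ry k x y) (rz k x y z) := by
  revert j k
  simp only [forall_fin4]
  refine ⟨⟨?_, ?_, ?_, ?_⟩, ⟨?_, ?_, ?_, ?_⟩, ⟨?_, ?_, ?_, ?_⟩, ⟨?_, ?_, ?_, ?_⟩⟩ <;>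
    simp [rx, ry, rz, show (1 : Fin 4) + 1 = 2 from rfl, show (1 : Fin 4) + 2 = 3 from rfl,
      show (1 : Fin 4) + 3 = 0 from rfl, show (2 : Fin 4) + 1 = 3 from rfl,
      show (2 : Fin 4) + 2 = 0 from rfl, show (2 : Fin 4) + 3 = 1 from rfl,
      show (3 : Fin 4) + 1 = 0 from rfl, show (3 : Fin 4) + 2 = 1 from rfl,
      show (3 : Fin 4) + 3 = 2 from rfl] <;> ring

/-- The rotation is an automorphism of the Heisenberg group. -/
lemma r_mul (k : Fin 4) (x y z x' y' z' : ℤ) :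
    rx k (x + x') (y + y') = rx k x y + rx k x' y' ∧
    ry k (x + x') (y + y') = ry k x y + ry k x' y' ∧
    rz k (x + x') (y + y') (z + z' + x * y') =
      rz k x y z + rz k x' y' z' + rx k x y * ry k x' y' := by
  revert k
  simp only [forall_fin4]
  refine ⟨?_, ?_, ?_, ?_⟩ <;> refine ⟨?_, ?_, ?_⟩ <;> simp only [rx, ry, rz] <;> ring

lemma Q.mul_assoc' (a b c : Q) : a * b * c = a * (b * c) := by
  obtain ⟨h1, h2, h3⟩ := r_mul a.k b.x b.y b.z (rx b.k c.x c.y) (ry b.k c.x c.y)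
    (rz b.k c.x c.y c.z)
  ext
  · simp only [mul_x, mul_y, mul_k, h1, rx_add]; ring
  · simp only [mul_x, mul_y, mul_k, h2, ry_add]; ring
  · simp only [mul_x, mul_y, mul_z, mul_k, h2, h3, ry_add, rz_add]
    ring
  · simp only [mul_k, add_assoc]

@[simp] lemma rx_zero (x y : ℤ) : rx 0 x y = x := rfl
@[simp] lemma ry_zero (x y : ℤ) : ry 0 x y = y := rfl
@[simp] lemma rz_zero (x y z : ℤ) : rz 0 x y z = z := rfl
@[simp] lemma rx_zz (k : Fin 4) : rx k 0 0 = 0 := by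
  revert k; simp only [forall_fin4]; simp [rx]
@[simp] lemma ry_zz (k : Fin 4) : ry k 0 0 = 0 := by
  revert k; simp only [forall_fin4]; simp [ry]
@[simp] lemma rz_zz (k : Fin 4) : rz k 0 0 0 = 0 := by
  revert k; simp only [forall_fin4]; simp [rz]

instance : Group Q := Group.ofLeftAxioms Q.mul_assoc' (by
    intro a
    ext <;> simp) (by
    intro a
    obtain ⟨h1, h2, h3⟩ := r_mul (-a.k) (-a.x) (-a.y) (-a.z + a.x * a.y) a.x a.y a.z
    ext
    · simp only [mul_x, inv_x, inv_k, one_x]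
      rw [← h1]; simp
    · simp only [mul_y, inv_y, inv_k, one_y]
      rw [← h2]; simp
    · simp only [mul_z, inv_z, inv_x, inv_k, one_z]
      rw [← h3]
      have : -a.z + a.x * a.y + a.z + -a.x * a.y = 0 := by ring
      rw [this]; simp
    · simp)

end Pool.Agent.H21Geo
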