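import Mathlib

set_option autoImplicit false

/-! A discrete isoperimetric inequality for sequences of steps. -/

namespace Pool.Agent.H21Geo

open Finset

/-- prefix sums -/
def pre (h : ℕ → ℤ) (t : ℕ) : ℤ := ∑ u ∈ range t, h u

/-- area functional -/
def ar (h w : ℕ → ℤ) (r : ℕ) : ℤ := ∑ t ∈ range r, w t * pre h t

/-- sum of positive parts -/
def ps (h : ℕ → ℤ) (r : ℕ) : ℤ := ∑ t ∈ range r, max (h t) 0

/-- sum of negative parts -/
def ns (h : ℕ → ℤ) (r : ℕ) : ℤ := ∑ t ∈ range r, max (-(h t)) 0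

lemma ps_sub_ns (h : ℕ → ℤ) (r : ℕ) : ps h r - ns h r = pre h r := by
  unfold ps ns pre
  rw [← Finset.sum_sub_distrib]
  refine Finset.sum_congr rfl fun t _ => ?_
  rcases le_total (h t) 0 with h1 | h1
  · rw [max_eq_right h1, max_eq_left (by omega)]; ring
  · rw [max_eq_left h1, max_eq_right (by omega)]; ring

lemma ps_nonneg (h : ℕ → ℤ) (r : ℕ) : 0 ≤ ps h r :=
  Finset.sum_nonneg fun _ _ => le_max_right _ _

lemma ns_nonneg (h : ℕ → ℤ) (r : ℕ) : 0 ≤ ns h r :=
  Finset.sum_nonneg fun _ _ => le_max_right _ _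

lemma pre_sub_le {h : ℕ → ℤ} {t u r : ℕ} (htu : t ≤ u) (hur : u ≤ r) :
    pre h u - pre h t ≤ ps h r := by
  unfold pre ps
  rw [← Finset.sum_Ico_eq_sub _ htu]
  calc ∑ k ∈ Ico t u, h k ≤ ∑ k ∈ Ico t u, max (h k) 0 :=
        Finset.sum_le_sum fun _ _ => le_max_left _ _
    _ ≤ _ := by
        refine Finset.sum_le_sum_of_subset_of_nonneg ?_ (fun _ _ _ => le_max_right _ _)
        intro k hk
        rw [Finset.mem_Ico] at hk
        rw [Finset.mem_range]; omega

lemma pre_sub_ge {h : ℕ → ℤ} {t u r : ℕ} (htu : t ≤ u) (hur : u ≤ r) :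
    pre h t - pre h u ≤ ns h r := by
  unfold pre ns
  rw [← neg_sub, ← Finset.sum_Ico_eq_sub _ htu, ← Finset.sum_neg_distrib]
  calc ∑ k ∈ Ico t u, -h k ≤ ∑ k ∈ Ico t u, max (-h k) 0 :=
        Finset.sum_le_sum fun _ _ => le_max_left _ _
    _ ≤ _ := by
        refine Finset.sum_le_sum_of_subset_of_nonneg ?_ (fun _ _ _ => le_max_right _ _)
        intro k hk
        rw [Finset.mem_Ico] at hk
        rw [Finset.mem_range]; omega

@[simp] lemma pre_zero (h : ℕ → ℤ) : pre h 0 = 0 := by simp [pre]

lemma pre_le {h : ℕ → ℤ} {t r : ℕ} (htr : t ≤ r) : pre h t ≤ ps h r := by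
  have := pre_sub_le (h := h) (Nat.zero_le t) htr
  simpa using this

lemma pre_ge {h : ℕ → ℤ} {t r : ℕ} (htr : t ≤ r) : -ns h r ≤ pre h t := by
  have := pre_sub_ge (h := h) (Nat.zero_le t) htr
  simp at this
  linarith

/-- The isoperimetric inequality. -/
theorem iso_gen {h w : ℕ → ℤ} {r : ℕ} {K : ℤ} (h1 : ps h r ≤ K) (h2 : ns h r ≤ K)
    (hY : 0 ≤ pre w r) {t : ℕ} (ht : t ≤ r) :
    ar h w r ≤ K * ps w r + pre h t * pre w r := by
  obtain ⟨t2, ht2, hmin⟩ := Finset.exists_min_image (range (r + 1)) (pre h)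
    ⟨0, by simp⟩
  rw [Finset.mem_range] at ht2
  have hK : ∀ u, u ≤ r → pre h u - pre h t2 ≤ K := by
    intro u hu
    rcases le_total t2 u with h3 | h3
    · exact (pre_sub_le h3 hu).trans h1
    · exact (pre_sub_ge h3 (by omega)).trans h2
  have e1 : ar h w r = ∑ u ∈ range r, w u * (pre h u - pre h t2) + pre h t2 * pre w r := by
    unfold ar
    have : pre h t2 * pre w r = ∑ u ∈ range r, w u * pre h t2 := by
      conv_lhs => rw [mul_comm]
      rw [show pre w r = ∑ u ∈ range r, w u from rfl, Finset.sum_mul]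
    rw [this, ← Finset.sum_add_distrib]
    exact Finset.sum_congr rfl fun u _ => by ring
  have e2 : ∑ u ∈ range r, w u * (pre h u - pre h t2) ≤ K * ps w r := by
    unfold ps
    rw [Finset.mul_sum]
    refine Finset.sum_le_sum fun u hu => ?_
    rw [Finset.mem_range] at hu
    have h3 := hK u hu.le
    have h4 : 0 ≤ pre h u - pre h t2 := by
      have := hmin u (by rw [Finset.mem_range]; omega)
      linarith
    rcases le_total (w u) 0 with h5 | h5
    · rw [max_eq_right h5, mul_zero]
      exact mul_nonpos_of_nonpos_of_nonneg h5 h4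
    · rw [max_eq_left h5, mul_comm K]
      exact mul_le_mul_of_nonneg_left h3 h5
  have e3 : pre h t2 * pre w r ≤ pre h t * pre w r :=
    mul_le_mul_of_nonneg_right (hmin t (by rw [Finset.mem_range]; omega)) hY
  linarith

theorem iso {h w : ℕ → ℤ} {r : ℕ} (hX : 0 ≤ pre h r) (hY : 0 ≤ pre w r) :
    ar h w r ≤ ps h r * ps w r := by
  have := iso_gen (h := h) (w := w) (r := r) (K := ps h r) le_rfl
    (by have := ps_sub_ns h r; linarith) hY (Nat.zero_le r)
  simpa using this

/-- move `c` from position `i` to position `j` -/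
def tr (f : ℕ → ℤ) (i j : ℕ) (c : ℤ) : ℕ → ℤ :=
  fun t => f t + (if t = j then c else 0) - (if t = i then c else 0)

lemma pre_tr {f : ℕ → ℤ} {i j r : ℕ} (hi : i < r) (hj : j < r) (c : ℤ) :
    pre (tr f i j c) r = pre f r := by
  unfold pre tr
  rw [Finset.sum_sub_distrib, Finset.sum_add_distrib, Finset.sum_ite_eq' , Finset.sum_ite_eq']
  simp [hi, hj]

lemma ar_tr_right {h w : ℕ → ℤ} {i j r : ℕ} (hi : i < r) (hj : j < r) (c : ℤ) :
    ar h (tr w i j c) r = ar h w r + c * (pre h j - pre h i) := by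
  unfold ar tr
  have : ∀ t, (w t + (if t = j then c else 0) - (if t = i then c else 0)) * pre h t =
      w t * pre h t + (if t = j then c * pre h t else 0) - (if t = i then c * pre h t else 0) := by
    intro t
    split_ifs <;> ring
  simp only [this]
  rw [Finset.sum_sub_distrib, Finset.sum_add_distrib, Finset.sum_ite_eq' , Finset.sum_ite_eq']
  simp only [Finset.mem_range, hi, hj, if_true]
  ring

lemma pre_ite (i : ℕ) (c : ℤ) (t : ℕ) :
    pre (fun u => if u = i then c else 0) t = if i < t then c else 0 := by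
  unfold pre
  rw [Finset.sum_ite_eq']
  simp

lemma sum_gt (w : ℕ → ℤ) {i r : ℕ} (hi : i < r) :
    ∑ t ∈ range r, (if i < t then w t else 0) = pre w r - pre w (i + 1) := by
  unfold pre
  rw [← Finset.sum_Ico_eq_sub _ hi, ← Finset.sum_filter]
  refine Finset.sum_congr ?_ fun _ _ => rfl
  ext t
  simp only [Finset.mem_filter, Finset.mem_range, Finset.mem_Ico]
  omega

lemma ar_tr_left {h w : ℕ → ℤ} {i j r : ℕ} (hi : i < r) (hj : j < r) (c : ℤ) :
    ar (tr h i j c) w r = ar h w r + c * (pre w (i + 1) - pre w (j + 1)) := by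
  unfold ar
  have : ∀ t, w t * pre (tr h i j c) t =
      w t * pre h t + c * (if j < t then w t else 0) - c * (if i < t then w t else 0) := by
    intro t
    have h1 : pre (tr h i j c) t = pre h t + (if j < t then c else 0) -
        (if i < t then c else 0) := by
      rw [← pre_ite j c t, ← pre_ite i c t]
      unfold pre tr
      rw [Finset.sum_sub_distrib, Finset.sum_add_distrib]
    rw [h1]
    split_ifs <;> ring
  simp only [this]
  rw [Finset.sum_sub_distrib, Finset.sum_add_distrib, ← Finset.mul_sum, ← Finset.mul_sum,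
    sum_gt w hi, sum_gt w hj]
  ring

lemma ps_tr {f : ℕ → ℤ} {i j r : ℕ} (hi : i < r) (hj : j < r) (hij : i ≠ j)
    (hs : 0 ≤ f i * f j) : ps (tr f i j (f i)) r = ps f r := by
  unfold ps tr
  have : ∀ t, max (f t + (if t = j then f i else 0) - (if t = i then f i else 0)) 0 =
      max (f t) 0 + (if t = j then max (f i) 0 else 0) - (if t = i then max (f i) 0 else 0) := by
    intro t
    by_cases h1 : t = i
    · subst h1
      simp [hij]
    · by_cases h2 : t = j
      · subst h2
        simp only [if_true, h1, if_false, sub_zero]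
        rcases lt_trichotomy (f i) 0 with h3 | h3 | h3
        · have h4 : f t ≤ 0 := by
            by_contra h5
            push Not at h5
            have := mul_neg_of_neg_of_pos h3 h5
            linarith
          rw [max_eq_right (by linarith), max_eq_right h4, max_eq_right h3.le]; rfl
        · rw [h3]; simp
        · have h4 : 0 ≤ f t := by
            by_contra h5
            push Not at h5
            have := mul_neg_of_pos_of_neg h3 h5
            linarith
          rw [max_eq_left (by linarith), max_eq_left h4, max_eq_left h3.le]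
      · simp [h1, h2]
  simp only [this]
  rw [Finset.sum_sub_distrib, Finset.sum_add_distrib, Finset.sum_ite_eq' , Finset.sum_ite_eq']
  simp [hi, hj]

/-- Transfer of vertical steps. -/
lemma transfer_v {h w : ℕ → ℤ} {i j r : ℕ} (hX : 0 ≤ pre h r) (hY : 0 ≤ pre w r)
    (hi : i < r) (hj : j < r) (hij : i ≠ j) (hs : 0 ≤ w i * w j) :
    ar h w r + w i * (pre h j - pre h i) ≤ ps h r * ps w r := by
  have h1 := iso (h := h) (w := tr w i j (w i)) hX (by rw [pre_tr hi hj]; exact hY)
  rwa [ar_tr_right hi hj, ps_tr hi hj hij hs] at h1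

/-- Transfer of horizontal steps. -/
lemma transfer_h {h w : ℕ → ℤ} {i j r : ℕ} (hX : 0 ≤ pre h r) (hY : 0 ≤ pre w r)
    (hi : i < r) (hj : j < r) (hij : i ≠ j) (hs : 0 ≤ h i * h j) :
    ar h w r + h i * (pre w (i + 1) - pre w (j + 1)) ≤ ps h r * ps w r := by
  have h1 := iso (h := tr h i j (h i)) (w := w) (by rw [pre_tr hi hj]; exact hX) hY
  rwa [ar_tr_left hi hj, ps_tr hi hj hij hs] at h1

/-- cancellation of `c` at positions of opposite signs -/
lemma ps_tr_cancel {f : ℕ → ℤ} {i j r : ℕ} (hi : i < r) (hj : j < r) (hij : i ≠ j) {c : ℤ}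
    (hs : (0 ≤ c ∧ c ≤ f i ∧ c ≤ -f j) ∨ (c ≤ 0 ∧ f i ≤ c ∧ -f j ≤ c)) :
    ps (tr f i j c) r = ps f r - |c| := by
  rcases hs with ⟨h0, h1, h2⟩ | ⟨h0, h1, h2⟩
  · rw [abs_of_nonneg h0]
    unfold ps tr
    have : ∀ t, max (f t + (if t = j then c else 0) - (if t = i then c else 0)) 0 =
        max (f t) 0 - (if t = i then c else 0) := by
      intro t
      by_cases h3 : t = i
      · subst h3
        simp only [hij, if_false, if_true]
        rw [max_eq_left (by linarith), max_eq_left (by linarith)]; ring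
      · by_cases h4 : t = j
        · subst h4
          simp only [if_true, h3, if_false, sub_zero]
          rw [max_eq_right (by linarith), max_eq_right (by linarith)]
        · simp [h3, h4]
    simp only [this]
    rw [Finset.sum_sub_distrib, Finset.sum_ite_eq']
    simp [hi]
  · rw [abs_of_nonpos h0]
    unfold ps tr
    have : ∀ t, max (f t + (if t = j then c else 0) - (if t = i then c else 0)) 0 =
        max (f t) 0 + (if t = j then c else 0) := by
      intro t
      by_cases h3 : t = i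
      · subst h3
        simp only [hij, if_false, if_true]
        rw [max_eq_right (by linarith), max_eq_right (by linarith)]; ring
      · by_cases h4 : t = j
        · subst h4
          simp only [if_true, h3, if_false, sub_zero]
          rw [max_eq_left (by linarith), max_eq_left (by linarith)]
        · simp [h3, h4]
    simp only [this]
    rw [Finset.sum_add_distrib, Finset.sum_ite_eq']
    simp [hj]

/-- Adjacent horizontal reversal. -/
lemma reversal_h {h w : ℕ → ℤ} {i r : ℕ} (hX : 0 ≤ pre h r) (hY : 0 ≤ pre w r)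
    (hi : i + 1 < r) (hw : w (i + 1) = 0) {c : ℤ}
    (hs : (0 ≤ c ∧ c ≤ h i ∧ c ≤ -h (i + 1)) ∨ (c ≤ 0 ∧ h i ≤ c ∧ -h (i + 1) ≤ c)) :
    ar h w r + |c| * ps w r ≤ ps h r * ps w r := by
  have h1 := iso (h := tr h i (i + 1) c) (w := w)
    (by rw [pre_tr (by omega) hi]; exact hX) hY
  rw [ar_tr_left (by omega) hi, ps_tr_cancel (by omega) hi (by omega) hs] at h1
  have h2 : pre w (i + 1) - pre w (i + 1 + 1) = 0 := by
    unfold pre
    rw [Finset.sum_range_succ _ (i + 1), hw]; ring
  rw [h2] at h1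
  linarith

/-- Adjacent vertical reversal. -/
lemma reversal_v {h w : ℕ → ℤ} {i r : ℕ} (hX : 0 ≤ pre h r) (hY : 0 ≤ pre w r)
    (hi : i + 1 < r) (hh : h i = 0) {c : ℤ}
    (hs : (0 ≤ c ∧ c ≤ w i ∧ c ≤ -w (i + 1)) ∨ (c ≤ 0 ∧ w i ≤ c ∧ -w (i + 1) ≤ c)) :
    ar h w r + |c| * ps h r ≤ ps h r * ps w r := by
  have h1 := iso (h := h) (w := tr w i (i + 1) c) hX
    (by rw [pre_tr (by omega) hi]; exact hY)
  rw [ar_tr_right (by omega) hi, ps_tr_cancel (by omega) hi (by omega) hs] at h1
  have h2 : pre h (i + 1) - pre h i = 0 := by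
    unfold pre
    rw [Finset.sum_range_succ, hh]; ring
  rw [h2] at h1
  linarith

end Pool.Agent.H21Geo
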