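import Pool.Agent.H21Geo.Rep

set_option autoImplicit false
set_option linter.unusedSimpArgs false
set_option linter.unusedVariables false

/-! Lane sorting. -/

namespace Pool.Agent.H21Geo

/-- direction form -/
def plusV (V : List Vis) : List Vis := V.map (fun p => (dir p, |p.2|))

/-- put the first `j` steps on the minus lane -/
def fillM : ℤ → List Vis → List Vis
  | _, [] => []
  | j, p :: P => if p.2 ≤ j then (p.1 + 2, -p.2) :: fillM (j - p.2) P
      else if j ≤ 0 then p :: P else (p.1 + 2, -j) :: (p.1, p.2 - j) :: P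

lemma hd_flip (d : Fin 4) (a : ℤ) : hd (d + 2, -a) = hd (d, a) := by
  revert d; simp only [forall_fin4]
  refine ⟨?_, ?_, ?_, ?_⟩ <;> simp [hd, show (1 : Fin 4) + 2 = 3 from rfl,
    show (2 : Fin 4) + 2 = 0 from rfl, show (3 : Fin 4) + 2 = 1 from rfl]

lemma vd_flip (d : Fin 4) (a : ℤ) : vd (d + 2, -a) = vd (d, a) := by
  revert d; simp only [forall_fin4]
  refine ⟨?_, ?_, ?_, ?_⟩ <;> simp [vd, show (1 : Fin 4) + 2 = 3 from rfl,
    show (2 : Fin 4) + 2 = 0 from rfl, show (3 : Fin 4) + 2 = 1 from rfl]

lemma dz_flip (d : Fin 4) (a : ℤ) : dz (d + 2, -a) = dz (d, a) - a := by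
  revert d; simp only [forall_fin4]
  refine ⟨?_, ?_, ?_, ?_⟩ <;> simp [dz, show (1 : Fin 4) + 2 = 3 from rfl,
    show (2 : Fin 4) + 2 = 0 from rfl, show (3 : Fin 4) + 2 = 1 from rfl]

lemma hd_add (d : Fin 4) (a b : ℤ) : hd (d, a + b) = hd (d, a) + hd (d, b) := by
  revert d; simp only [forall_fin4]
  refine ⟨?_, ?_, ?_, ?_⟩ <;> simp [hd]
  ring

lemma vd_add (d : Fin 4) (a b : ℤ) : vd (d, a + b) = vd (d, a) + vd (d, b) := by
  revert d; simp only [forall_fin4]
  refine ⟨?_, ?_, ?_, ?_⟩ <;> simp [vd]
  ring

lemma dz_add (d : Fin 4) (a b : ℤ) : dz (d, a + b) = dz (d, a) + dz (d, b) := by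
  revert d; simp only [forall_fin4]
  refine ⟨?_, ?_, ?_, ?_⟩ <;> simp [dz]

lemma hd_mul_vd' (d : Fin 4) (a b : ℤ) : hd (d, a) * vd (d, b) = 0 := by
  revert d; simp only [forall_fin4]
  refine ⟨?_, ?_, ?_, ?_⟩ <;> simp [hd, vd]

lemma XX_fillM (j : ℤ) (P : List Vis) : XX (fillM j P) = XX P := by
  induction P generalizing j with
  | nil => rfl
  | cons p P ih =>
    simp only [fillM]
    split_ifs with h1 h2
    · simp only [XX, ih, hd_flip]
    · rfl
    · simp only [XX, hd_flip]
      have := hd_add p.1 j (p.2 - j)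
      rw [show j + (p.2 - j) = p.2 by ring] at this
      rw [show hd p = hd (p.1, p.2) from rfl, this]; ring

lemma YY_fillM (j : ℤ) (P : List Vis) : YY (fillM j P) = YY P := by
  induction P generalizing j with
  | nil => rfl
  | cons p P ih =>
    simp only [fillM]
    split_ifs with h1 h2
    · simp only [YY, ih, vd_flip]
    · rfl
    · simp only [YY, vd_flip]
      have := vd_add p.1 j (p.2 - j)
      rw [show j + (p.2 - j) = p.2 by ring] at this
      rw [show vd p = vd (p.1, p.2) from rfl, this]; ring

lemma ZZ_fillM (j : ℤ) (P : List Vis) (hP : ∀ p ∈ P, 0 ≤ p.2) (h0 : 0 ≤ j)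
    (hj : j ≤ len P) : ZZ (fillM j P) = ZZ P - j := by
  induction P generalizing j with
  | nil =>
    simp at hj
    have : j = 0 := by omega
    subst this; simp [fillM, ZZ]
  | cons p P ih =>
    have hp : 0 ≤ p.2 := hP p List.mem_cons_self
    have hP' : ∀ q ∈ P, 0 ≤ q.2 := fun q hq => hP q (List.mem_cons_of_mem _ hq)
    rw [len_cons, abs_of_nonneg hp] at hj
    simp only [fillM]
    split_ifs with h1 h2
    · simp only [ZZ, hd_flip, dz_flip, YY_fillM]
      rw [ih (j - p.2) hP' (by linarith) (by linarith)]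
      rw [show hd p = hd (p.1, p.2) from rfl, show dz p = dz (p.1, p.2) from rfl]
      ring
    · have : j = 0 := by omega
      rw [this]; ring
    · simp only [ZZ, YY, hd_flip, dz_flip]
      have e1 := hd_add p.1 j (p.2 - j)
      have e2 := dz_add p.1 j (p.2 - j)
      have e3 := hd_mul_vd' p.1 j (p.2 - j)
      rw [show j + (p.2 - j) = p.2 by ring] at e1 e2
      rw [show hd p = hd (p.1, p.2) from rfl, show dz p = dz (p.1, p.2) from rfl, e1, e2]
      linear_combination e3

lemma cost_fillM (s : Fin 4) (j : ℤ) (P : List Vis) (hP : ∀ p ∈ P, 0 ≤ p.2) (f : Fin 4) :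
    cost (s + 2) (fillM j P) f ≤ cost s P f + 1 := by
  induction P generalizing j s with
  | nil => simp only [fillM, cost]; split_ifs <;> omega
  | cons p P ih =>
    have hp : 0 ≤ p.2 := hP p List.mem_cons_self
    have hP' : ∀ q ∈ P, 0 ≤ q.2 := fun q hq => hP q (List.mem_cons_of_mem _ hq)
    simp only [fillM]
    split_ifs with h1 h2
    · simp only [cost, Int.natAbs_neg]
      have h3 := ih p.1 (j - p.2) hP'
      have h4 : (s + 2 = p.1 + 2) ↔ (s = p.1) := by simp
      simp only [h4]
      omega
    · simp only [cost]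
      split_ifs <;> omega
    · push Not at h1 h2
      simp only [cost, Int.natAbs_neg]
      have h4 : (s + 2 = p.1 + 2) ↔ (s = p.1) := by simp
      simp only [h4]
      have h5 : j.natAbs + (p.2 - j).natAbs = p.2.natAbs := by omega
      have h6 : ¬ (p.1 + 2 = p.1) := by
        have : ∀ k : Fin 4, k + 2 ≠ k := by decide
        exact this p.1
      rw [if_neg h6]
      omega

lemma plusV_nonneg (V : List Vis) : ∀ p ∈ plusV V, 0 ≤ p.2 := by
  intro p hp
  unfold plusV at hp
  rw [List.mem_map] at hp
  obtain ⟨q, _, rfl⟩ := hp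
  exact abs_nonneg _

lemma hd_plus (p : Vis) : hd (dir p, |p.2|) = hd p := by
  obtain ⟨k, m⟩ := p
  unfold dir
  simp only
  split_ifs with h
  · rw [abs_of_pos h]
  · rw [abs_of_nonpos (by omega), hd_flip]

lemma vd_plus (p : Vis) : vd (dir p, |p.2|) = vd p := by
  obtain ⟨k, m⟩ := p
  unfold dir
  simp only
  split_ifs with h
  · rw [abs_of_pos h]
  · rw [abs_of_nonpos (by omega), vd_flip]

lemma dz_plus (p : Vis) : dz (dir p, |p.2|) = dz p + max (-p.2) 0 := by
  obtain ⟨k, m⟩ := p
  unfold dir
  simp only
  split_ifs with h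
  · rw [abs_of_pos h, max_eq_right (by omega)]; ring
  · rw [abs_of_nonpos (by omega), dz_flip, max_eq_left (by omega)]; ring

lemma XX_plusV (V : List Vis) : XX (plusV V) = XX V := by
  induction V with
  | nil => rfl
  | cons p V ih =>
    simp only [plusV, List.map_cons, XX] at ih ⊢
    rw [ih, hd_plus]

lemma YY_plusV (V : List Vis) : YY (plusV V) = YY V := by
  induction V with
  | nil => rfl
  | cons p V ih =>
    simp only [plusV, List.map_cons, YY] at ih ⊢
    rw [ih, vd_plus]

lemma ZZ_plusV (V : List Vis) : ZZ (plusV V) = ZZ V + mu V := by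
  induction V with
  | nil => rfl
  | cons p V ih =>
    have h1 := YY_plusV V
    simp only [plusV, List.map_cons, ZZ] at ih h1 ⊢
    rw [ih, h1, hd_plus, dz_plus, mu_cons]; ring

lemma len_plusV (V : List Vis) : len (plusV V) = len V := by
  induction V with
  | nil => rfl
  | cons p V ih =>
    simp only [plusV, List.map_cons] at ih ⊢
    rw [len_cons, ih, len_cons]
    simp

/-- number of changes of direction -/
def chg : List Vis → ℕ
  | [] => 0
  | [_] => 0
  | p :: q :: V => (if dir p = dir q then 0 else 1) + chg (q :: V)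

lemma tgs_plusV (p : Vis) (V : List Vis) (f : Fin 4) :
    tgs (dir p) (plusV (p :: V)) f ≤ chg (p :: V) + 1 := by
  induction V generalizing p with
  | nil =>
    simp only [plusV, List.map_cons, List.map_nil, tgs, chg, if_true]
    split_ifs <;> omega
  | cons q V ih =>
    have := ih q
    simp only [plusV, List.map_cons, tgs, chg, if_true] at this ⊢
    omega

/-- Lane sorting, first visit on the minus lane. -/
lemma lane_neg {p : Vis} {V : List Vis} {f : Fin 4} (h : Geo p.1 (p :: V) f) (hp : p.2 < 0) :
    tgs p.1 (p :: V) f ≤ chg (p :: V) + 2 := by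
  have hd : dir p = p.1 + 2 := by simp [dir, hp.le]
  have h1 := h (fillM (mu (p :: V)) (plusV (p :: V)))
    (by rw [XX_fillM, XX_plusV]) (by rw [YY_fillM, YY_plusV])
    (by rw [ZZ_fillM _ _ (plusV_nonneg _) (mu_nonneg _) (by rw [len_plusV]; exact mu_le_len _),
      ZZ_plusV]; ring)
  have h2 := cost_fillM (p.1 + 2) (mu (p :: V)) (plusV (p :: V)) (plusV_nonneg _) f
  rw [show p.1 + 2 + 2 = p.1 by
    have : ∀ k : Fin 4, k + 2 + 2 = k := by decide
    exact this p.1] at h2
  have h3 := tgs_plusV p V f
  rw [hd] at h3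
  have h4 := cost_eq (p.1 + 2) (plusV (p :: V)) f
  have h5 := cost_eq p.1 (p :: V) f
  rw [len_plusV] at h4
  have h6 : (cost p.1 (p :: V) f : ℤ) ≤ cost (p.1 + 2) (plusV (p :: V)) f + 1 := by
    exact_mod_cast h1.trans h2
  have h7 : (tgs (p.1 + 2) (plusV (p :: V)) f : ℤ) ≤ chg (p :: V) + 1 := by exact_mod_cast h3
  have h8 : (tgs p.1 (p :: V) f : ℤ) ≤ chg (p :: V) + 2 := by linarith
  exact_mod_cast h8

lemma dir_tp {p : Vis} (hp : p.2 ≠ 0) : dir (tp p) = 1 - dir p := by
  obtain ⟨k, m⟩ := p
  simp only at hp
  rcases lt_or_gt_of_ne hp with h | h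
  · have h' : ¬ 0 < m := by omega
    have h'' : 0 < -m := by omega
    simp only [dir, tp, h', h'', if_true, if_false]
    revert k; decide
  · have h' : ¬ 0 < -m := by omega
    simp only [dir, tp, h, h', if_true, if_false]
    revert k; decide

lemma chg_tV {V : List Vis} (hV : Red V) : chg (tV V) = chg V := by
  induction V with
  | nil => rfl
  | cons p V ih =>
    cases V with
    | nil => rfl
    | cons q V =>
      have h1 := ih hV.tail
      simp only [tV, List.map_cons, chg] at h1 ⊢
      rw [h1, dir_tp hV.head, dir_tp hV.tail.head]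
      simp

lemma tgs_tV (s : Fin 4) (V : List Vis) (f : Fin 4) :
    tgs (3 - s) (tV V) (3 - f) = tgs s V f := by
  induction V generalizing s with
  | nil => simp [tV, tgs]
  | cons p V ih =>
    simp only [tV, List.map_cons, tgs, tp] at ih ⊢
    rw [ih]
    simp

/-- Lane sorting. -/
theorem lane {p : Vis} {V : List Vis} {f : Fin 4} (h : Geo p.1 (p :: V) f)
    (hV : Red (p :: V)) : tgs p.1 (p :: V) f ≤ chg (p :: V) + 2 := by
  rcases lt_or_gt_of_ne hV.head with hp | hp
  · exact lane_neg h hp
  · have h1 := geo_tV h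
    have h2 : tV (p :: V) = tp p :: tV V := rfl
    have h3 : (3 : Fin 4) - p.1 = (tp p).1 := rfl
    rw [h2, h3] at h1
    have h4 := lane_neg h1 (by simpa [tp] using hp)
    rw [← h2, ← h3, tgs_tV, chg_tV hV] at h4
    exact h4

/-- A direction which is left and taken up again. -/
lemma repeat_dir (V : List Vis) (hV : V ≠ []) :
    (∃ i j, i + 1 < j ∧ j < V.length ∧ dir (gv V i) = dir (gv V j) ∧
      dir (gv V i) ≠ dir (gv V (i + 1))) ∨
    chg V + 1 ≤ ((V.map dir).toFinset).card := by
  induction V with
  | nil => exact absurd rfl hV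
  | cons p V ih =>
    cases V with
    | nil => right; simp [chg]
    | cons q V =>
      rcases ih (by simp) with ⟨i, j, h1, h2, h3, h4⟩ | h
      · left
        refine ⟨i + 1, j + 1, by omega, by simp only [List.length_cons] at h2 ⊢; omega, ?_, ?_⟩
        · simpa using h3
        · simpa using h4
      · by_cases hpq : dir p = dir q
        · right
          simp only [chg, if_pos hpq, zero_add]
          refine h.trans (Finset.card_le_card ?_)
          rw [List.map_cons (a := p), List.toFinset_cons]
          exact Finset.subset_insert _ _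
        · by_cases hmem : dir p ∈ (q :: V).map dir
          · left
            rw [List.mem_map] at hmem
            obtain ⟨a, ha, hda⟩ := hmem
            obtain ⟨n, hn, hn2⟩ := List.getElem_of_mem ha
            have hgv : gv (q :: V) n = a := by
              unfold gv
              rw [List.getD_eq_getElem _ _ hn, hn2]
            have hn0 : n ≠ 0 := by
              rintro rfl
              apply hpq
              rw [← hda, ← hgv, gv_zero]
            refine ⟨0, n + 1, by omega, by simp only [List.length_cons] at hn ⊢; omega, ?_, ?_⟩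
            · rw [gv_zero, gv_succ, hgv, hda]
            · rw [gv_zero, gv_succ, gv_zero]; exact hpq
          · right
            rw [List.map_cons (a := p), List.toFinset_cons,
              Finset.card_insert_of_notMem (by simpa using hmem)]
            simp only [chg, if_neg hpq]
            omega

end Pool.Agent.H21Geo
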