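import Pool.Agent.H21Geo.UpperAll

set_option autoImplicit false
set_option linter.unusedSimpArgs false
set_option linter.unusedVariables false

/-! A large family of geodesics. -/

namespace Pool.Agent.H21Geo

open Finset

/-- a cheapest list of visits, reduced -/
lemma exists_geo_red (s f : Fin 4) (V : List Vis) :
    ∃ V', Red V' ∧ XX V' = XX V ∧ YY V' = YY V ∧ ZZ V' = ZZ V ∧ cost s V' f ≤ cost s V f := by
  classical
  set w0 := wd s V f with hw0
  have hex : ∃ n, ∃ v : List Q, (∀ l ∈ v, IsLet l) ∧ v.prod = w0.prod ∧ v.length = n :=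
    ⟨w0.length, w0, wd_let s V f, rfl, rfl⟩
  obtain ⟨v, hv1, hv2, hv3⟩ := Nat.find_spec hex
  have hmin : ∀ u : List Q, (∀ l ∈ u, IsLet l) → u.prod = w0.prod → v.length ≤ u.length := by
    intro u hu1 hu2
    rw [hv3]
    exact Nat.find_min' hex ⟨u, hu1, hu2, rfl⟩
  have hgeo : IsGeo v := ⟨hv1, fun u hu1 hu2 => hmin u hu1 (hu2.trans hv2)⟩
  obtain ⟨V', f', hR, hwd⟩ := exists_red v hgeo s
  have h1 := wd_prod s V' f'
  rw [← hwd, hv2, hw0, wd_prod] at h1
  have hk := congrArg Q.k h1
  have hx := congrArg Q.x h1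
  have hy := congrArg Q.y h1
  have hz := congrArg Q.z h1
  simp [evq] at hk hx hy hz
  subst hk
  refine ⟨V', hR, hx.symm, hy.symm, hz.symm, ?_⟩
  rw [← wd_length, ← wd_length, ← hwd]
  exact hmin _ (wd_let s V f) rfl

lemma AR_short {V : List Vis} (hR : Red V) (h : tgs 1 V 0 ≤ 2) : AR V = 0 := by
  match V, hR, h with
  | [], _, _ => rfl
  | [p], _, _ => simp [AR_cons, YY]
  | [p, q], hR, h =>
    have h1 := tgs_red hR (by simp) 1 0
    simp only [kf, gv_zero, List.length_cons, List.length_nil] at h1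
    simp only [zero_add, Nat.add_sub_cancel, gv_succ, gv_zero] at h1
    by_cases hp : (1 : Fin 4) = p.1
    · have : hd p = 0 := by
        obtain ⟨k, m⟩ := p
        simp only at hp; subst hp; rfl
      simp [AR_cons, YY, this]
    · rw [if_neg hp] at h1
      by_cases hq : q.1 = 0
      · have : vd q = 0 := by
          obtain ⟨k, m⟩ := q
          simp only at hq; subst hq; rfl
        simp [AR_cons, YY, this]
      · rw [if_neg hq] at h1
        omega
  | [p, q, r], hR, h =>
    have h1 := tgs_red hR (by simp) 1 0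
    simp only [kf, gv_zero, List.length_cons, List.length_nil] at h1
    simp only [zero_add, Nat.add_sub_cancel, gv_succ, gv_zero] at h1
    have hp : (1 : Fin 4) = p.1 := by
      by_contra hp
      rw [if_neg hp] at h1
      omega
    have hr : r.1 = 0 := by
      by_contra hr
      simp only [Nat.reduceAdd, gv_succ, gv_zero] at h1
      rw [if_neg hr] at h1
      omega
    have h3 : hd p = 0 := by
      obtain ⟨k, m⟩ := p
      simp only at hp; subst hp; rfl
    have h4 : vd r = 0 := by
      obtain ⟨k, m⟩ := r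
      simp only at hr; subst hr; rfl
    simp [AR_cons, YY, h3, h4]
  | p :: q :: r :: t :: V, hR, h =>
    have h1 := tgs_ge hR (by simp) 1 0
    simp only [List.length_cons] at h1
    omega

/-- the quantity `hf` in terms of the lanes -/
lemma lane_h (p : Vis) (hp : p.1 = 2 ∨ ax p.1 = false) :
    hd p ≤ max (-p.2) 0 - max (-hd p) 0 := by
  obtain ⟨k, m⟩ := p
  simp only at hp
  revert k; simp only [forall_fin4]
  refine ⟨?_, ?_, ?_, ?_⟩ <;> simp [hd, ax]
  · rcases le_total m 0 with h | h
    · simp [h]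
    · simp [h]

lemma exists_state2 {V : List Vis} (h : mu V < nW V) : ∃ t, t < V.length ∧ kf V t = 2 := by
  obtain ⟨t, ht, h1⟩ := Finset.exists_lt_of_sum_lt (s := range V.length)
    (f := fun t => max (-(mf V t)) 0) (g := fun t => max (-(hf V t)) 0) h
  refine ⟨t, Finset.mem_range.1 ht, ?_⟩
  unfold mf hf at h1
  unfold kf
  generalize gv V t = p at h1 ⊢
  obtain ⟨k, m⟩ := p
  revert k; simp only [forall_fin4]
  refine ⟨?_, ?_, ?_, ?_⟩ <;> simp [hd]

lemma exists_state3 {V : List Vis} (h : mu V < nS V) : ∃ t, t < V.length ∧ kf V t = 3 := by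
  obtain ⟨t, ht, h1⟩ := Finset.exists_lt_of_sum_lt (s := range V.length)
    (f := fun t => max (-(mf V t)) 0) (g := fun t => max (-(vf V t)) 0) h
  refine ⟨t, Finset.mem_range.1 ht, ?_⟩
  unfold mf vf at h1
  unfold kf
  generalize gv V t = p at h1 ⊢
  obtain ⟨k, m⟩ := p
  revert k; simp only [forall_fin4]
  refine ⟨?_, ?_, ?_, ?_⟩ <;> simp [vd]

/-- At most four toggles leave no room for another visit to both `0` and `1`. -/
lemma states_cases {V : List Vis} (hR : Red V) (h4 : tgs 1 V 0 ≤ 4)
    (h2 : ∃ t, t < V.length ∧ kf V t = 2) (h3 : ∃ t, t < V.length ∧ kf V t = 3) :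
    (∀ t, t + 1 < V.length → kf V t ≠ 0) ∨ (∀ t, 1 ≤ t → t < V.length → kf V t ≠ 1) := by
  by_contra hc
  rw [not_or] at hc
  push Not at hc
  obtain ⟨⟨t0, a0, b0⟩, t1, a1, a1', b1⟩ := hc
  obtain ⟨t2, a2, b2⟩ := h2
  obtain ⟨t3, a3, b3⟩ := h3
  have hV : V ≠ [] := by rintro rfl; simp at a2
  have h1 := tgs_red hR hV 1 0
  have d01 : t0 ≠ t1 := by rintro rfl; rw [b0] at b1; simp at b1
  have d02 : t0 ≠ t2 := by rintro rfl; rw [b0] at b2; simp at b2
  have d03 : t0 ≠ t3 := by rintro rfl; rw [b0] at b3; simp at b3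
  have d12 : t1 ≠ t2 := by rintro rfl; rw [b1] at b2; simp at b2
  have d13 : t1 ≠ t3 := by rintro rfl; rw [b1] at b3; simp at b3
  have d23 : t2 ≠ t3 := by rintro rfl; rw [b2] at b3; simp at b3
  by_cases ha : (1 : Fin 4) = kf V 0
  · rw [if_pos ha] at h1
    have e0 : t0 ≠ 0 := by rintro rfl; rw [← ha] at b0; simp at b0
    have e2 : t2 ≠ 0 := by rintro rfl; rw [← ha] at b2; simp at b2
    have e3 : t3 ≠ 0 := by rintro rfl; rw [← ha] at b3; simp at b3
    by_cases hb : kf V (V.length - 1) = 0
    · rw [if_pos hb] at h1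
      have f1 : t1 ≠ V.length - 1 := by
        intro h; rw [← h, b1] at hb; simp at hb
      have f2 : t2 ≠ V.length - 1 := by
        intro h; rw [← h, b2] at hb; simp at hb
      have f3 : t3 ≠ V.length - 1 := by
        intro h; rw [← h, b3] at hb; simp at hb
      omega
    · rw [if_neg hb] at h1
      omega
  · rw [if_neg ha] at h1
    by_cases hb : kf V (V.length - 1) = 0
    · rw [if_pos hb] at h1
      have f1 : t1 ≠ V.length - 1 := by
        intro h; rw [← h, b1] at hb; simp at hb
      have f2 : t2 ≠ V.length - 1 := by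
        intro h; rw [← h, b2] at hb; simp at hb
      have f3 : t3 ≠ V.length - 1 := by
        intro h; rw [← h, b3] at hb; simp at hb
      omega
    · rw [if_neg hb] at h1
      omega

/-- state `0` only at the end -/
lemma defect_0 {V : List Vis} (hx : 0 ≤ XX V) (hy : 0 ≤ YY V)
    (h : ∀ t, t + 1 < V.length → kf V t ≠ 0) :
    AR V ≤ nE V * nN V + (mu V - nW V) * YY V := by
  set h'' : ℕ → ℤ := fun t => if kf V t = 0 then 0 else hf V t with hh
  have hval : ∀ t, h'' t = 0 ∨ h'' t = hf V t := by
    intro t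
    simp only [hh]
    split_ifs
    · left; rfl
    · right; rfl
  have h1 : AR V = ar h'' (vf V) V.length := by
    unfold AR ar
    refine Finset.sum_congr rfl fun t ht => ?_
    rw [Finset.mem_range] at ht
    congr 1
    unfold pre
    refine Finset.sum_congr rfl fun u hu => ?_
    rw [Finset.mem_range] at hu
    simp only [hh]
    rw [if_neg (h u (by omega))]
  have h2 : ps h'' V.length ≤ nE V := by
    unfold ps nE ps
    refine Finset.sum_le_sum fun t _ => ?_
    rcases hval t with h3 | h3
    · rw [h3, max_self]; exact le_max_right _ _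
    · rw [h3]
  have h3 : ns h'' V.length ≤ nW V := by
    unfold ns nW ns
    refine Finset.sum_le_sum fun t _ => ?_
    rcases hval t with h3 | h3
    · rw [h3, neg_zero, max_self]; exact le_max_right _ _
    · rw [h3]
  have hx' := XX_eq V
  have h4 := iso_gen (h := h'') (w := vf V) (r := V.length) (K := nE V) h2 (by linarith)
    (by rw [← YY_eq_pre]; exact hy) (t := V.length) le_rfl
  rw [← YY_eq_pre, ← h1] at h4
  have h5 : pre h'' V.length ≤ mu V - nW V := by
    unfold mu nW ns pre
    rw [← Finset.sum_sub_distrib]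
    refine Finset.sum_le_sum fun t _ => ?_
    simp only [hh]
    split_ifs with h6
    · have : hf V t = mf V t := by
        unfold hf mf
        unfold kf at h6
        generalize gv V t = p at h6 ⊢
        obtain ⟨k, m⟩ := p
        simp only at h6; subst h6; rfl
      rw [this, sub_self]
    · refine lane_h (gv V t) ?_
      have h7 : ∀ k : Fin 4, k ≠ 0 → (k = 2 ∨ ax k = false) := by decide
      exact h7 _ h6
  have h6 : pre h'' V.length * YY V ≤ (mu V - nW V) * YY V :=
    mul_le_mul_of_nonneg_right h5 hy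
  change AR V ≤ nE V * nN V + _ at h4
  linarith

/-- state `1` only at the start -/
lemma defect_1 {V : List Vis} (hx : 0 ≤ XX V) (hy : 0 ≤ YY V)
    (h : ∀ t, 1 ≤ t → t < V.length → kf V t ≠ 1) :
    AR V ≤ mu V * nE V + nS V * nW V := by
  have h1 : AR V ≤ ∑ t ∈ range V.length,
      (max (-(mf V t)) 0 * nE V + max (-(vf V t)) 0 * nW V) := by
    unfold AR ar
    refine Finset.sum_le_sum fun t ht => ?_
    rw [Finset.mem_range] at ht
    have hE := nE_nonneg V
    have hW := nW_nonneg V
    have n1 : 0 ≤ max (-(mf V t)) 0 * nE V := mul_nonneg (le_max_right _ _) hE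
    have n2 : 0 ≤ max (-(vf V t)) 0 * nW V := mul_nonneg (le_max_right _ _) hW
    rcases Nat.eq_zero_or_pos t with h0 | h0
    · subst h0
      rw [pre_zero, mul_zero]; linarith
    · have hk := h t h0 ht
      have p1 : pre (hf V) t ≤ nE V := pre_le ht.le
      have p2 : -nW V ≤ pre (hf V) t := pre_ge ht.le
      unfold kf at hk
      unfold mf at n1 ⊢
      unfold vf at n2 ⊢
      generalize gv V t = p at hk n1 n2 ⊢
      obtain ⟨k, m⟩ := p
      revert k; simp only [forall_fin4]
      refine ⟨?_, ?_, ?_, ?_⟩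
      · intro _ n1 n2
        simp only [vd] at n2 ⊢
        linarith
      · intro hk
        exact absurd rfl hk
      · intro _ n1 n2
        simp only [vd] at n2 ⊢
        linarith
      · intro _ n1 n2
        simp only [vd] at n2 ⊢
        rcases le_total m 0 with hm | hm
        · rw [max_eq_left (by linarith), max_eq_right (by linarith)]
          have := mul_le_mul_of_nonneg_left p1 (by linarith : 0 ≤ -m)
          linarith
        · rw [max_eq_right (by linarith), max_eq_left (by linarith)]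
          have := mul_le_mul_of_nonneg_left p2 hm
          linarith
  rw [Finset.sum_add_distrib, ← Finset.sum_mul, ← Finset.sum_mul] at h1
  exact h1

/-- the family -/
def fam (r1 r2 x y k l : ℤ) : List Vis :=
  [(1, -r1), (3, l - r1), (0, x + k), (1, y + l), (2, k - r2), (0, -r2)]

lemma fam_XX (r1 r2 x y k l : ℤ) : XX (fam r1 r2 x y k l) = x := by
  simp [fam, XX, hd]; ring

lemma fam_YY (r1 r2 x y k l : ℤ) : YY (fam r1 r2 x y k l) = y := by
  simp [fam, YY, vd]

lemma fam_ZZ (r1 r2 x y k l : ℤ) :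
    ZZ (fam r1 r2 x y k l) = (x + k) * (y + l) + l + k - r1 - r2 := by
  simp [fam, XX, YY, ZZ, hd, vd, dz]; ring

lemma fam_cost {r1 r2 x y k l : ℤ} (h1 : 0 ≤ r1) (h2 : 0 ≤ r2) (h3 : r1 ≤ l) (h4 : r2 ≤ k)
    (hx : 0 ≤ x + k) (hy : 0 ≤ y + l) :
    (cost 1 (fam r1 r2 x y k l) 0 : ℤ) = x + y + 2 * (k + l) + 5 := by
  rw [cost_eq]
  have : tgs 1 (fam r1 r2 x y k l) 0 = 5 := by simp [fam, tgs]
  rw [this]
  unfold fam
  simp only [len_cons, len_nil]
  rw [abs_neg, abs_of_nonneg h1, abs_of_nonneg (by linarith : 0 ≤ l - r1), abs_of_nonneg hx,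
    abs_of_nonneg hy, abs_of_nonneg (by linarith : 0 ≤ k - r2), abs_neg, abs_of_nonneg h2]
  push_cast
  ring

lemma fam_red {r1 r2 x y k l : ℤ} (h1 : 0 < r1) (h2 : 0 < r2) (h3 : r1 < l) (h4 : r2 < k)
    (hx : 0 < x + k) (hy : 0 < y + l) : Red (fam r1 r2 x y k l) := by
  simp only [fam, Red]
  refine ⟨by omega, by decide, by omega, by decide, by omega, by decide, by omega, by decide,
    by omega, by decide, by omega⟩

end Pool.Agent.H21Geo
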