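import Pool.Agent.H21Geo.Stat

set_option autoImplicit false
set_option linter.unusedSimpArgs false
set_option linter.unusedVariables false

/-! Explicit short representatives. -/

namespace Pool.Agent.H21Geo

lemma rep_step1 (x y k l r : ℤ) (hx : 0 ≤ x) (hk : 0 ≤ k) (hl : 0 ≤ l) (hr : 0 ≤ r)
    (hr2 : r ≤ y + l) :
    ∃ V, XX V = x ∧ YY V = y ∧ ZZ V + x + y + 1 = (x + 1 + k) * (y + 1 + l) - r ∧
      V.length ≤ 5 ∧ len V = x + y + 2 * (k + l) := by
  refine ⟨[(3, l), (0, x + k), (3, -r), (1, y + l - r), (2, k)], ?_, ?_, ?_, ?_, ?_⟩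
  · simp [XX, hd]
  · simp [YY, vd]
  · simp [XX, YY, ZZ, hd, vd, dz]; ring
  · simp
  · simp only [len_cons, len_nil]
    rw [abs_of_nonneg hl, abs_of_nonneg (by linarith : 0 ≤ x + k), abs_neg, abs_of_nonneg hr,
      abs_of_nonneg (by linarith : 0 ≤ y + l - r), abs_of_nonneg hk]
    ring

lemma rep_step2 (x y k l r : ℤ) (hy : 0 ≤ y) (hk : 0 ≤ k) (hl : 0 ≤ l) (hr : 0 ≤ r)
    (hr2 : r ≤ x + k) :
    ∃ V, XX V = x ∧ YY V = y ∧ ZZ V + x + y + 1 = (x + 1 + k) * (y + 1 + l) - r ∧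
      V.length ≤ 5 ∧ len V = x + y + 2 * (k + l) := by
  refine ⟨[(3, l), (2, -r), (0, x + k - r), (1, y + l), (2, k)], ?_, ?_, ?_, ?_, ?_⟩
  · simp [XX, hd]; ring
  · simp [YY, vd]
  · simp [XX, YY, ZZ, hd, vd, dz]; ring
  · simp
  · simp only [len_cons, len_nil]
    rw [abs_of_nonneg hl, abs_of_nonneg (by linarith : 0 ≤ y + l), abs_neg, abs_of_nonneg hr,
      abs_of_nonneg (by linarith : 0 ≤ x + k - r), abs_of_nonneg hk]
    ring

lemma rep (x y z : ℤ) (hx : 0 ≤ x) (hy : 0 ≤ y) (h1 : (x + 1) * (y + 1) < z + x + y + 1) :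
    ∀ e k l : ℕ, k + l = e → z + x + y + 1 ≤ (x + 1 + k) * (y + 1 + l) →
    ∃ V, XX V = x ∧ YY V = y ∧ ZZ V = z ∧ V.length ≤ 5 ∧ len V ≤ x + y + 2 * (k + l) := by
  intro e
  induction e with
  | zero =>
    intro k l hkl h2
    have hk : k = 0 := by omega
    have hl : l = 0 := by omega
    subst hk; subst hl
    simp at h2
    linarith
  | succ e ih =>
    intro k l hkl h2
    rcases Nat.eq_zero_or_pos k with hk | hk
    · have hl : 0 < l := by omega
      by_cases h3 : (x + 1 + k) * (y + 1 + l) - (z + x + y + 1) ≤ x + k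
      · obtain ⟨V, v1, v2, v3, v4, v5⟩ := rep_step2 x y k l
          ((x + 1 + k) * (y + 1 + l) - (z + x + y + 1)) hy (by positivity) (by positivity)
          (by linarith) h3
        exact ⟨V, v1, v2, by linarith, v4, v5.le⟩
      · push Not at h3
        obtain ⟨V, v1, v2, v3, v4, v5⟩ := ih k (l - 1) (by omega) (by
          push_cast [Nat.cast_sub (show 1 ≤ l from hl)]
          nlinarith)
        refine ⟨V, v1, v2, v3, v4, v5.trans ?_⟩
        push_cast [Nat.cast_sub (show 1 ≤ l from hl)]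
        linarith
    · by_cases h3 : (x + 1 + k) * (y + 1 + l) - (z + x + y + 1) ≤ y + l
      · obtain ⟨V, v1, v2, v3, v4, v5⟩ := rep_step1 x y k l
          ((x + 1 + k) * (y + 1 + l) - (z + x + y + 1)) hx (by positivity) (by positivity)
          (by linarith) h3
        exact ⟨V, v1, v2, by linarith, v4, v5.le⟩
      · push Not at h3
        obtain ⟨V, v1, v2, v3, v4, v5⟩ := ih (k - 1) l (by omega) (by
          push_cast [Nat.cast_sub (show 1 ≤ k from hk)]
          nlinarith)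
        refine ⟨V, v1, v2, v3, v4, v5.trans ?_⟩
        push_cast [Nat.cast_sub (show 1 ≤ k from hk)]
        linarith

lemma ushape1 (x y e r : ℤ) (hy : 0 ≤ y) (he : 0 ≤ e) (hr : 0 ≤ r) (hr2 : r ≤ x) :
    ∃ V, XX V = x ∧ YY V = y ∧ ZZ V + x + y + 1 = (x + 1) * (y + 1 + e) - r ∧
      V.length ≤ 4 ∧ len V = x + y + 2 * e := by
  refine ⟨[(3, e), (2, -r), (0, x - r), (1, y + e)], ?_, ?_, ?_, ?_, ?_⟩
  · simp [XX, hd]
  · simp [YY, vd]
  · simp [XX, YY, ZZ, hd, vd, dz]; ring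
  · simp
  · simp only [len_cons, len_nil]
    rw [abs_of_nonneg he, abs_of_nonneg (by linarith : 0 ≤ x - r), abs_neg, abs_of_nonneg hr,
      abs_of_nonneg (by linarith : 0 ≤ y + e)]
    ring

lemma ushape2 (x y e r : ℤ) (hx : 0 ≤ x) (he : 0 ≤ e) (hr : 0 ≤ r) (hr2 : r ≤ y) :
    ∃ V, XX V = x ∧ YY V = y ∧ ZZ V + x + y + 1 = (x + 1 + e) * (y + 1) - r ∧
      V.length ≤ 4 ∧ len V = x + y + 2 * e := by
  refine ⟨[(0, x + e), (3, -r), (1, y - r), (2, e)], ?_, ?_, ?_, ?_, ?_⟩
  · simp [XX, hd]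
  · simp [YY, vd]
  · simp [XX, YY, ZZ, hd, vd, dz]; ring
  · simp
  · simp only [len_cons, len_nil]
    rw [abs_of_nonneg he, abs_of_nonneg (by linarith : 0 ≤ y - r), abs_neg, abs_of_nonneg hr,
      abs_of_nonneg (by linarith : 0 ≤ x + e)]
    ring

/-- Representatives of flat elements, initial state `0`. -/
lemma flat0 (x y z : ℤ) (hx : 0 ≤ x) (hy : 0 ≤ y) (h1 : 1 ≤ z + x + y + 1)
    (h2 : z + x + y + 1 ≤ (x + 1) * (y + 1)) (f : Fin 4) :
    ∃ V, XX V = x ∧ YY V = y ∧ ZZ V = z ∧ (cost 0 V f : ℤ) ≤ x + y + 4 := by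
  set i := (z + x + y) / (y + 1) with hi
  set ν := (z + x + y) % (y + 1) with hν
  have hdiv : (y + 1) * i + ν = z + x + y := Int.mul_ediv_add_emod _ _
  have hν0 : 0 ≤ ν := Int.emod_nonneg _ (by omega)
  have hν1 : ν < y + 1 := Int.emod_lt_of_pos _ (by omega)
  have hi0 : 0 ≤ i := Int.ediv_nonneg (by linarith) (by linarith)
  have hi1 : i ≤ x := by
    by_contra h
    push Not at h
    have : (y + 1) * (x + 1) ≤ (y + 1) * i := mul_le_mul_of_nonneg_left (by omega) (by omega)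
    nlinarith
  refine ⟨[(0, i), (1, ν), (3, -(y - ν)), (2, -(x - i))], ?_, ?_, ?_, ?_⟩
  · simp [XX, hd]
  · simp [YY, vd]
  · simp [XX, YY, ZZ, hd, vd, dz]; linarith
  · rw [cost_eq]
    have h3 := tgs_cons_self 0 i [(1, ν), (3, -(y - ν)), (2, -(x - i))] f
    simp only [List.length_cons, List.length_nil] at h3
    have h4 : len [((0 : Fin 4), i), (1, ν), (3, -(y - ν)), (2, -(x - i))] = x + y := by
      simp only [len_cons, len_nil]
      rw [abs_of_nonneg hi0, abs_of_nonneg hν0, abs_neg, abs_of_nonneg (by linarith : 0 ≤ y - ν),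
        abs_neg, abs_of_nonneg (by linarith : 0 ≤ x - i)]
      ring
    rw [h4]
    push_cast
    have : (tgs 0 [((0 : Fin 4), i), (1, ν), (3, -(y - ν)), (2, -(x - i))] f : ℤ) ≤ 4 := by
      exact_mod_cast h3
    linarith

/-- Representatives of flat elements, initial state `2`. -/
lemma flat2 (x y z : ℤ) (hx : 0 ≤ x) (hy : 0 ≤ y) (h1 : 1 ≤ z + x + y + 1)
    (h2 : z + x + y + 1 ≤ (x + 1) * (y + 1)) (f : Fin 4) :
    ∃ V, XX V = x ∧ YY V = y ∧ ZZ V = z ∧ (cost 2 V f : ℤ) ≤ x + y + 4 := by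
  by_cases hc : z + y ≤ 0
  · -- (c)
    set ν := -(z + y) with hν
    refine ⟨[(3, -y), (2, -ν), (0, x - ν)], ?_, ?_, ?_, ?_⟩
    · simp [XX, hd]
    · simp [YY, vd]
    · simp [XX, YY, ZZ, hd, vd, dz]; linarith
    · rw [cost_eq]
      have h3 := tgs_le 2 [((3 : Fin 4), -y), (2, -ν), (0, x - ν)] f
      simp only [List.length_cons, List.length_nil] at h3
      have h4 : len [((3 : Fin 4), -y), (2, -ν), (0, x - ν)] = x + y := by
        simp only [len_cons, len_nil]
        rw [abs_neg, abs_of_nonneg hy, abs_neg, abs_of_nonneg (by linarith : 0 ≤ ν),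
          abs_of_nonneg (by linarith : 0 ≤ x - ν)]
        ring
      rw [h4]
      have : (tgs 2 [((3 : Fin 4), -y), (2, -ν), (0, x - ν)] f : ℤ) ≤ 4 := by
        exact_mod_cast h3
      linarith
  · push Not at hc
    by_cases hb : z + y ≤ (x + 1) * (y - 1)
    · -- (a)
      have hy2 : 2 ≤ y := by
        by_contra h
        push Not at h
        have : (x + 1) * (y - 1) ≤ 0 :=
          mul_nonpos_of_nonneg_of_nonpos (by linarith) (by linarith)
        linarith
      set i := (z + y - 1) / (y - 1) with hi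
      set ν := (z + y - 1) % (y - 1) with hν
      have hdiv : (y - 1) * i + ν = z + y - 1 := Int.mul_ediv_add_emod _ _
      have hν0 : 0 ≤ ν := Int.emod_nonneg _ (by omega)
      have hν1 : ν < y - 1 := Int.emod_lt_of_pos _ (by omega)
      have hi0 : 0 ≤ i := Int.ediv_nonneg (by linarith) (by linarith)
      have hi1 : i ≤ x := by
        by_contra h
        push Not at h
        have : (y - 1) * (x + 1) ≤ (y - 1) * i :=
          mul_le_mul_of_nonneg_left (by omega) (by omega)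
        nlinarith
      refine ⟨[(2, -i), (1, ν + 1), (3, -(y - (ν + 1))), (0, x - i)], ?_, ?_, ?_, ?_⟩
      · simp [XX, hd]
      · simp [YY, vd]
      · simp [XX, YY, ZZ, hd, vd, dz]; linarith
      · rw [cost_eq]
        have h3 := tgs_cons_self 2 (-i) [(1, ν + 1), (3, -(y - (ν + 1))), (0, x - i)] f
        simp only [List.length_cons, List.length_nil] at h3
        have h4 : len [((2 : Fin 4), -i), (1, ν + 1), (3, -(y - (ν + 1))), (0, x - i)] =
            x + y := by
          simp only [len_cons, len_nil]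
          rw [abs_neg, abs_of_nonneg hi0, abs_of_nonneg (by linarith : 0 ≤ ν + 1), abs_neg,
            abs_of_nonneg (by linarith : 0 ≤ y - (ν + 1)),
            abs_of_nonneg (by linarith : 0 ≤ x - i)]
          ring
        rw [h4]
        have : (tgs 2 [((2 : Fin 4), -i), (1, ν + 1), (3, -(y - (ν + 1))), (0, x - i)] f : ℤ)
            ≤ 4 := by
          exact_mod_cast h3
        linarith
    · -- (b)
      push Not at hb
      set ν := (x + 1) * (y + 1) - (z + x + y + 1) with hν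
      have hν0 : 0 ≤ ν := by linarith
      have hν1 : ν ≤ x := by nlinarith
      refine ⟨[(2, -ν), (0, x - ν), (1, y)], ?_, ?_, ?_, ?_⟩
      · simp [XX, hd]
      · simp [YY, vd]
      · simp [XX, YY, ZZ, hd, vd, dz]; linarith
      · rw [cost_eq]
        have h3 := tgs_le 2 [((2 : Fin 4), -ν), (0, x - ν), (1, y)] f
        simp only [List.length_cons, List.length_nil] at h3
        have h4 : len [((2 : Fin 4), -ν), (0, x - ν), (1, y)] = x + y := by
          simp only [len_cons, len_nil]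
          rw [abs_neg, abs_of_nonneg hν0, abs_of_nonneg (by linarith : 0 ≤ x - ν),
            abs_of_nonneg hy]
          ring
        rw [h4]
        have : (tgs 2 [((2 : Fin 4), -ν), (0, x - ν), (1, y)] f : ℤ) ≤ 4 := by
          exact_mod_cast h3
        linarith

/-- Representatives of flat elements. -/
lemma flat (x y z : ℤ) (hx : 0 ≤ x) (hy : 0 ≤ y) (h1 : 1 ≤ z + x + y + 1)
    (h2 : z + x + y + 1 ≤ (x + 1) * (y + 1)) (s f : Fin 4) :
    ∃ V, XX V = x ∧ YY V = y ∧ ZZ V = z ∧ (cost s V f : ℤ) ≤ x + y + 4 := by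
  have key : ∀ s', (∀ x y z : ℤ, 0 ≤ x → 0 ≤ y → 1 ≤ z + x + y + 1 →
      z + x + y + 1 ≤ (x + 1) * (y + 1) → ∀ f : Fin 4,
      ∃ V, XX V = x ∧ YY V = y ∧ ZZ V = z ∧ (cost s' V f : ℤ) ≤ x + y + 4) →
      ∃ V, XX V = x ∧ YY V = y ∧ ZZ V = z ∧ (cost (3 - s') V f : ℤ) ≤ x + y + 4 := by
    intro s' h
    obtain ⟨V, v1, v2, v3, v4⟩ := h y x (x * y - x - y - z) hy hx (by nlinarith) (by nlinarith)
      (3 - f)
    refine ⟨tV V, ?_, ?_, ?_, ?_⟩
    · rw [XX_tV, v2]
    · rw [YY_tV, v1]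
    · rw [ZZ_tV, v1, v2, v3]; ring
    · have := cost_tV s' V (3 - f)
      rw [show (3 : Fin 4) - (3 - f) = f by simp] at this
      rw [this]; linarith
  revert s
  simp only [forall_fin4]
  exact ⟨flat0 x y z hx hy h1 h2 f, key 2 flat2, flat2 x y z hx hy h1 h2 f, key 0 flat0⟩

end Pool.Agent.H21Geo
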