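import Pool.Agent.H21Geo.Symm
import Pool.Agent.H21Geo.Iso

set_option autoImplicit false
set_option linter.unusedSimpArgs false
set_option linter.unusedVariables false

/-! Statistics of lists of visits. -/

namespace Pool.Agent.H21Geo

open Finset

/-- the `t`-th visit -/
def gv (V : List Vis) (t : ℕ) : Vis := V.getD t (0, 0)

@[simp] lemma gv_zero (p : Vis) (V : List Vis) : gv (p :: V) 0 = p := by simp [gv]
@[simp] lemma gv_succ (p : Vis) (V : List Vis) (t : ℕ) : gv (p :: V) (t + 1) = gv V t := by
  simp [gv]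

lemma sum_gv_cons (φ : Vis → ℤ) (p : Vis) (V : List Vis) :
    ∑ t ∈ range (p :: V).length, φ (gv (p :: V) t) =
      φ p + ∑ t ∈ range V.length, φ (gv V t) := by
  rw [List.length_cons, Finset.sum_range_succ']
  simp only [gv_zero, gv_succ]
  ring

def hf (V : List Vis) (t : ℕ) : ℤ := hd (gv V t)
def vf (V : List Vis) (t : ℕ) : ℤ := vd (gv V t)
def mf (V : List Vis) (t : ℕ) : ℤ := (gv V t).2
def kf (V : List Vis) (t : ℕ) : Fin 4 := (gv V t).1

def nE (V : List Vis) : ℤ := ps (hf V) V.length
def nW (V : List Vis) : ℤ := ns (hf V) V.length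
def nN (V : List Vis) : ℤ := ps (vf V) V.length
def nS (V : List Vis) : ℤ := ns (vf V) V.length
def mu (V : List Vis) : ℤ := ns (mf V) V.length
def len (V : List Vis) : ℤ := ∑ t ∈ range V.length, |mf V t|
def AR (V : List Vis) : ℤ := ar (hf V) (vf V) V.length

@[simp] lemma nE_nil : nE [] = 0 := rfl
@[simp] lemma nW_nil : nW [] = 0 := rfl
@[simp] lemma nN_nil : nN [] = 0 := rfl
@[simp] lemma nS_nil : nS [] = 0 := rfl
@[simp] lemma mu_nil : mu [] = 0 := rfl
@[simp] lemma len_nil : len [] = 0 := rfl
@[simp] lemma AR_nil : AR [] = 0 := rfl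

lemma nE_cons (p : Vis) (V : List Vis) : nE (p :: V) = max (hd p) 0 + nE V :=
  sum_gv_cons (fun p => max (hd p) 0) p V
lemma nW_cons (p : Vis) (V : List Vis) : nW (p :: V) = max (-hd p) 0 + nW V :=
  sum_gv_cons (fun p => max (-hd p) 0) p V
lemma nN_cons (p : Vis) (V : List Vis) : nN (p :: V) = max (vd p) 0 + nN V :=
  sum_gv_cons (fun p => max (vd p) 0) p V
lemma nS_cons (p : Vis) (V : List Vis) : nS (p :: V) = max (-vd p) 0 + nS V :=
  sum_gv_cons (fun p => max (-vd p) 0) p V
lemma mu_cons (p : Vis) (V : List Vis) : mu (p :: V) = max (-p.2) 0 + mu V :=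
  sum_gv_cons (fun p => max (-p.2) 0) p V
lemma len_cons (p : Vis) (V : List Vis) : len (p :: V) = |p.2| + len V :=
  sum_gv_cons (fun p => |p.2|) p V

lemma XX_eq_pre (V : List Vis) : XX V = pre (hf V) V.length := by
  induction V with
  | nil => rfl
  | cons p V ih =>
    rw [XX, ih]
    exact (sum_gv_cons hd p V).symm

lemma YY_eq_pre (V : List Vis) : YY V = pre (vf V) V.length := by
  induction V with
  | nil => rfl
  | cons p V ih =>
    rw [YY, ih]
    exact (sum_gv_cons vd p V).symm

lemma pre_cons_succ (φ : Vis → ℤ) (p : Vis) (V : List Vis) (t : ℕ) :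
    pre (fun t => φ (gv (p :: V) t)) (t + 1) = φ p + pre (fun t => φ (gv V t)) t := by
  unfold pre
  rw [Finset.sum_range_succ']
  simp only [gv_zero, gv_succ]
  ring

lemma AR_cons (p : Vis) (V : List Vis) : AR (p :: V) = AR V + hd p * YY V := by
  unfold AR ar
  rw [List.length_cons, Finset.sum_range_succ']
  simp only [pre_zero, mul_zero, add_zero]
  have h1 : ∀ t, pre (hf (p :: V)) (t + 1) = hd p + pre (hf V) t := fun t =>
    pre_cons_succ hd p V t
  have h2 : ∀ t, vf (p :: V) (t + 1) = vf V t := fun t => by simp [vf]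
  simp only [h1, h2]
  rw [YY_eq_pre]
  unfold pre
  rw [Finset.mul_sum, ← Finset.sum_add_distrib]
  exact Finset.sum_congr rfl fun t _ => by ring

lemma XX_eq (V : List Vis) : XX V = nE V - nW V := by
  rw [XX_eq_pre, ← ps_sub_ns]; rfl

lemma YY_eq (V : List Vis) : YY V = nN V - nS V := by
  rw [YY_eq_pre, ← ps_sub_ns]; rfl

lemma dz_eq (p : Vis) : dz p = max (-hd p) 0 + max (-vd p) 0 - max (-p.2) 0 := by
  obtain ⟨k, m⟩ := p
  revert k; simp only [forall_fin4]
  refine ⟨?_, ?_, ?_, ?_⟩ <;> simp only [dz, hd, vd] <;>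
  · rcases le_total m 0 with h | h
    · simp [h]
    · simp [h]

lemma abs_eq (p : Vis) : |p.2| =
    max (hd p) 0 + max (-hd p) 0 + max (vd p) 0 + max (-vd p) 0 := by
  obtain ⟨k, m⟩ := p
  revert k; simp only [forall_fin4]
  refine ⟨?_, ?_, ?_, ?_⟩ <;> simp only [hd, vd] <;>
  · rcases le_total m 0 with h | h
    · simp [h, abs_of_nonpos h]
    · simp [h, abs_of_nonneg h]

lemma ZZ_eq (V : List Vis) : ZZ V = AR V + nW V + nS V - mu V := by
  induction V with
  | nil => rfl
  | cons p V ih =>
    rw [ZZ, ih, AR_cons, nW_cons, nS_cons, mu_cons, dz_eq]; ring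

lemma len_eq (V : List Vis) : len V = nE V + nW V + nN V + nS V := by
  induction V with
  | nil => rfl
  | cons p V ih =>
    rw [len_cons, ih, nE_cons, nW_cons, nN_cons, nS_cons, abs_eq]; ring

lemma nE_nonneg (V : List Vis) : 0 ≤ nE V := ps_nonneg _ _
lemma nW_nonneg (V : List Vis) : 0 ≤ nW V := ns_nonneg _ _
lemma nN_nonneg (V : List Vis) : 0 ≤ nN V := ps_nonneg _ _
lemma nS_nonneg (V : List Vis) : 0 ≤ nS V := ns_nonneg _ _
lemma mu_nonneg (V : List Vis) : 0 ≤ mu V := ns_nonneg _ _
lemma len_nonneg (V : List Vis) : 0 ≤ len V := Finset.sum_nonneg fun _ _ => abs_nonneg _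

lemma mu_le_len (V : List Vis) : mu V ≤ len V := by
  unfold mu ns len
  refine Finset.sum_le_sum fun t _ => ?_
  rcases le_total (mf V t) 0 with h | h
  · rw [max_eq_left (by linarith), abs_of_nonpos h]
  · rw [max_eq_right (by linarith)]; exact abs_nonneg _

/-- number of toggles -/
def tgs : Fin 4 → List Vis → Fin 4 → ℕ
  | s, [], f => if s = f then 0 else 1
  | s, p :: V, f => (if s = p.1 then 0 else 1) + tgs p.1 V f

lemma cost_eq (s : Fin 4) (V : List Vis) (f : Fin 4) :
    (cost s V f : ℤ) = len V + tgs s V f := by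
  induction V generalizing s with
  | nil => simp [cost, tgs]
  | cons p V ih =>
    simp only [cost, tgs, len_cons]
    push_cast
    rw [ih, ← Int.natCast_natAbs]
    ring

lemma tgs_le (s : Fin 4) (V : List Vis) (f : Fin 4) : tgs s V f ≤ V.length + 1 := by
  induction V generalizing s with
  | nil => simp only [tgs]; split_ifs <;> simp
  | cons p V ih =>
    simp only [tgs, List.length_cons]
    have := ih p.1
    split_ifs <;> omega

lemma tgs_cons_self (s : Fin 4) (m : ℤ) (V : List Vis) (f : Fin 4) :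
    tgs s ((s, m) :: V) f ≤ V.length + 1 := by
  simp only [tgs, if_true]
  have := tgs_le s V f
  omega

lemma abs_mf_le (V : List Vis) (t : ℕ) : |mf V t| ≤ len V := by
  by_cases h : t < V.length
  · exact Finset.single_le_sum (f := fun t => |mf V t|) (fun _ _ => abs_nonneg _)
      (Finset.mem_range.2 h)
  · have : mf V t = 0 := by
      simp only [mf, gv]
      rw [List.getD_eq_default _ _ (by omega)]
    rw [this, abs_zero]
    exact len_nonneg V

lemma mf_ne_zero {V : List Vis} (h : Red V) {t : ℕ} (ht : t < V.length) : mf V t ≠ 0 := by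
  induction V generalizing t with
  | nil => simp at ht
  | cons p V ih =>
    cases t with
    | zero => simpa [mf] using h.head
    | succ t =>
      have := ih h.tail (t := t) (by simpa using ht)
      simpa [mf] using this

lemma kf_ne {V : List Vis} (h : Red V) {t : ℕ} (ht : t + 1 < V.length) :
    kf V t ≠ kf V (t + 1) := by
  induction V generalizing t with
  | nil => simp at ht
  | cons p V ih =>
    cases t with
    | zero =>
      cases V with
      | nil => simp at ht
      | cons q V => simpa [kf] using h.2.1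
    | succ t =>
      have := ih h.tail (t := t) (by simpa using ht)
      simpa [kf] using this

/-- toggles of a reduced list -/
lemma tgs_red {V : List Vis} (h : Red V) (hV : V ≠ []) (s f : Fin 4) :
    tgs s V f + 1 = (if s = kf V 0 then 0 else 1) + V.length +
      (if kf V (V.length - 1) = f then 0 else 1) := by
  induction V generalizing s with
  | nil => exact absurd rfl hV
  | cons p V ih =>
    cases V with
    | nil =>
      simp only [tgs, kf, gv_zero, List.length_cons, List.length_nil]
      simp only [zero_add, Nat.sub_self, gv_zero]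
      ring
    | cons q V =>
      have h1 := ih h.tail (by simp) p.1
      have h2 : p.1 ≠ q.1 := h.2.1
      have h3 : kf (p :: q :: V) ((p :: q :: V).length - 1) =
          kf (q :: V) ((q :: V).length - 1) := by
        simp [kf, List.length_cons]
      rw [h3]
      have h4 : kf (p :: q :: V) 0 = p.1 := by simp [kf]
      have h5 : kf (q :: V) 0 = q.1 := by simp [kf]
      rw [h4]
      rw [h5, if_neg h2] at h1
      simp only [tgs, List.length_cons] at h1 ⊢
      omega

/-- direction of a visit -/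
def dir (p : Vis) : Fin 4 := if 0 < p.2 then p.1 else p.1 + 2

lemma hd_dir {p : Vis} (hp : p.2 ≠ 0) :
    (dir p = 0 ∧ hd p = |p.2| ∧ vd p = 0 ∧ (p.1 = 0 ∨ p.1 = 2)) ∨
    (dir p = 1 ∧ hd p = 0 ∧ vd p = |p.2| ∧ (p.1 = 1 ∨ p.1 = 3)) ∨
    (dir p = 2 ∧ hd p = -|p.2| ∧ vd p = 0 ∧ (p.1 = 0 ∨ p.1 = 2)) ∨
    (dir p = 3 ∧ hd p = 0 ∧ vd p = -|p.2| ∧ (p.1 = 1 ∨ p.1 = 3)) := by
  obtain ⟨k, m⟩ := p
  simp only at hp
  rcases lt_or_gt_of_ne hp with h | h
  · have h' : ¬ 0 < m := by omega
    revert k; simp only [forall_fin4, dir, hd, vd, h', if_false, abs_of_neg h]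
    simp [show (1 : Fin 4) + 2 = 3 from rfl, show (2 : Fin 4) + 2 = 0 from rfl,
      show (3 : Fin 4) + 2 = 1 from rfl]
  · revert k; simp only [forall_fin4, dir, hd, vd, h, if_true, abs_of_pos h]
    simp

end Pool.Agent.H21Geo
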