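import Pool.Agent.H21Geo.Lane

set_option autoImplicit false
set_option linter.unusedSimpArgs false
set_option linter.unusedVariables false

/-! Structure of long geodesics. -/

namespace Pool.Agent.H21Geo

open Finset

/-- standard position -/
structure Std (V : List Vis) : Prop where
  hx : 0 ≤ XX V
  hy : 0 ≤ YY V
  hz : (XX V + 1) * (YY V + 1) < ZZ V + XX V + YY V + 1

lemma AR_le {V : List Vis} (hx : 0 ≤ XX V) (hy : 0 ≤ YY V) : AR V ≤ nE V * nN V := by
  rw [XX_eq_pre] at hx
  rw [YY_eq_pre] at hy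
  exact iso hx hy

lemma Zval (V : List Vis) :
    ZZ V + XX V + YY V + 1 = AR V + nE V + nN V + 1 - mu V := by
  rw [ZZ_eq, XX_eq, YY_eq]; ring

lemma Zval' (V : List Vis) : ZZ V + XX V + YY V + 1 =
    (nE V + 1) * (nN V + 1) - (nE V * nN V - AR V) - mu V := by
  rw [Zval]; ring

lemma tgs_ge {V : List Vis} (h : Red V) (hV : V ≠ []) (s f : Fin 4) :
    V.length ≤ tgs s V f + 1 := by
  rw [tgs_red h hV s f]; omega

lemma geo_cmp {s f : Fin 4} {V V' : List Vis} (h : Geo s V f) (hx : XX V' = XX V)
    (hy : YY V' = YY V) (hz : ZZ V' = ZZ V) :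
    len V + tgs s V f ≤ len V' + tgs s V' f := by
  have := h V' hx hy hz
  rw [← cost_eq, ← cost_eq]
  exact_mod_cast this

section
variable {V : List Vis} {s f : Fin 4}

lemma exc_pos (hS : Std V) : 1 ≤ nW V + nS V := by
  by_contra hc
  have h1 := nW_nonneg V
  have h2 := nS_nonneg V
  have h3 : nW V = 0 := by omega
  have h4 : nS V = 0 := by omega
  have h5 := hS.hz
  rw [Zval'] at h5
  have h6 := AR_le hS.hx hS.hy
  have h7 := mu_nonneg V
  have h8 := XX_eq V
  have h9 := YY_eq V
  rw [h3] at h8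
  rw [h4] at h9
  rw [h8, h9] at h5
  nlinarith

lemma upper6 (hS : Std V) (h : Geo s V f) : tgs s V f ≤ 6 := by
  have h1 := nW_nonneg V
  have h2 := nS_nonneg V
  have hx := XX_eq V
  have hy := YY_eq V
  have e1 : ((nW V).toNat : ℤ) = nW V := Int.toNat_of_nonneg h1
  have e2 : ((nS V).toNat : ℤ) = nS V := Int.toNat_of_nonneg h2
  obtain ⟨V', v1, v2, v3, v4, v5⟩ := rep (XX V) (YY V) (ZZ V) hS.hx hS.hy hS.hz _
    (nW V).toNat (nS V).toNat rfl (by
      rw [e1, e2, Zval']
      have h6 := AR_le hS.hx hS.hy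
      have h7 := mu_nonneg V
      rw [hx, hy]
      nlinarith)
  rw [e1, e2] at v5
  have h3 := geo_cmp h v1 v2 v3
  have h4 := len_eq V
  have h5 : (tgs s V' f : ℤ) ≤ 6 := by
    have := tgs_le s V' f
    exact_mod_cast this.trans (by omega)
  have : (tgs s V f : ℤ) ≤ 6 := by linarith
  exact_mod_cast this

lemma near (hS : Std V) (h : Geo s V f) (hR : Red V) (h6 : 6 ≤ V.length) {k l : ℤ}
    (hk : 0 ≤ k) (hl : 0 ≤ l) (hkl : k + l + 1 = nW V + nS V) :
    (XX V + 1 + k) * (YY V + 1 + l) < ZZ V + XX V + YY V + 1 := by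
  by_contra hc
  push Not at hc
  have hx := XX_eq V
  have hy := YY_eq V
  have e1 : (k.toNat : ℤ) = k := Int.toNat_of_nonneg hk
  have e2 : (l.toNat : ℤ) = l := Int.toNat_of_nonneg hl
  obtain ⟨V', v1, v2, v3, v4, v5⟩ := rep (XX V) (YY V) (ZZ V) hS.hx hS.hy hS.hz _
    k.toNat l.toNat rfl (by rw [e1, e2]; exact hc)
  rw [e1, e2] at v5
  have h3 := geo_cmp h v1 v2 v3
  have h4 := len_eq V
  have h5 : (tgs s V' f : ℤ) ≤ 6 := by
    have := tgs_le s V' f
    exact_mod_cast this.trans (by omega)
  have h7 : V ≠ [] := by rintro rfl; simp at h6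
  have h8 := tgs_ge hR h7 s f
  have h9 : (5 : ℤ) ≤ tgs s V f := by
    have : 5 ≤ tgs s V f := by omega
    exact_mod_cast this
  linarith

lemma shape1 (hS : Std V) (h : Geo s V f) (hR : Red V) (h6 : 6 ≤ V.length)
    (hZ : ZZ V + XX V + YY V + 1 ≤ (XX V + 1) * (YY V + 1 + (nW V + nS V))) :
    tgs s V f ≤ 5 := by
  have he := exc_pos hS
  have h1 := near hS h hR h6 (k := 0) (l := nW V + nS V - 1) le_rfl (by linarith) (by ring)
  have hx := XX_eq V
  have hy := YY_eq V
  obtain ⟨V', v1, v2, v3, v4, v5⟩ := ushape1 (XX V) (YY V) (nW V + nS V)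
    ((XX V + 1) * (YY V + 1 + (nW V + nS V)) - (ZZ V + XX V + YY V + 1)) hS.hy
    (by linarith) (by linarith) (by nlinarith)
  have h3 := geo_cmp h v1 v2 (by linarith)
  have h4 := len_eq V
  have h5 : (tgs s V' f : ℤ) ≤ 5 := by
    have := tgs_le s V' f
    exact_mod_cast this.trans (by omega)
  have : (tgs s V f : ℤ) ≤ 5 := by linarith
  exact_mod_cast this

lemma shape2 (hS : Std V) (h : Geo s V f) (hR : Red V) (h6 : 6 ≤ V.length)
    (hZ : ZZ V + XX V + YY V + 1 ≤ (XX V + 1 + (nW V + nS V)) * (YY V + 1)) :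
    tgs s V f ≤ 5 := by
  have he := exc_pos hS
  have h1 := near hS h hR h6 (k := nW V + nS V - 1) (l := 0) (by linarith) le_rfl (by ring)
  have hx := XX_eq V
  have hy := YY_eq V
  obtain ⟨V', v1, v2, v3, v4, v5⟩ := ushape2 (XX V) (YY V) (nW V + nS V)
    ((XX V + 1 + (nW V + nS V)) * (YY V + 1) - (ZZ V + XX V + YY V + 1)) hS.hx
    (by linarith) (by linarith) (by nlinarith)
  have h3 := geo_cmp h v1 v2 (by linarith)
  have h4 := len_eq V
  have h5 : (tgs s V' f : ℤ) ≤ 5 := by
    have := tgs_le s V' f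
    exact_mod_cast this.trans (by omega)
  have : (tgs s V f : ℤ) ≤ 5 := by linarith
  exact_mod_cast this

lemma defect_l (hS : Std V) (h : Geo s V f) (hR : Red V) (h6 : 6 ≤ V.length)
    (hl : 1 ≤ nS V) : nE V * nN V - AR V + mu V ≤ nE V := by
  have h1 := near hS h hR h6 (k := nW V) (l := nS V - 1) (nW_nonneg V) (by linarith) (by ring)
  rw [Zval', XX_eq, YY_eq] at h1
  nlinarith

lemma defect_k (hS : Std V) (h : Geo s V f) (hR : Red V) (h6 : 6 ≤ V.length)
    (hk : 1 ≤ nW V) : nE V * nN V - AR V + mu V ≤ nN V := by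
  have h1 := near hS h hR h6 (k := nW V - 1) (l := nS V) (by linarith) (nS_nonneg V) (by ring)
  rw [Zval', XX_eq, YY_eq] at h1
  nlinarith

lemma small_k (hS : Std V) (h : Geo s V f) (hR : Red V) (h6 : 6 ≤ V.length) {S : ℤ}
    (hS0 : 1 ≤ S) (hn : len V < S ^ 2 + S) (hd : 2 * S ≤ nE V - nN V) : nW V < S := by
  by_contra hc
  push Not at hc
  have h1 := near hS h hR h6 (k := nW V - S) (l := nS V + S - 1) (by linarith)
    (by have := nS_nonneg V; linarith) (by ring)
  rw [Zval', XX_eq, YY_eq] at h1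
  have h2 := AR_le hS.hx hS.hy
  have h3 := mu_nonneg V
  have h4 := len_eq V
  have h5 := nN_nonneg V
  have h6 := nS_nonneg V
  have h7 := nW_nonneg V
  nlinarith

lemma small_l (hS : Std V) (h : Geo s V f) (hR : Red V) (h6 : 6 ≤ V.length) {S : ℤ}
    (hS0 : 1 ≤ S) (hn : len V < S ^ 2 + S) (hd : 2 * S ≤ nN V - nE V) : nS V < S := by
  by_contra hc
  push Not at hc
  have h1 := near hS h hR h6 (k := nW V + S - 1) (l := nS V - S)
    (by have := nW_nonneg V; linarith) (by linarith) (by ring)
  rw [Zval', XX_eq, YY_eq] at h1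
  have h2 := AR_le hS.hx hS.hy
  have h3 := mu_nonneg V
  have h4 := len_eq V
  have h5 := nE_nonneg V
  have h6 := nS_nonneg V
  have h7 := nW_nonneg V
  nlinarith

end

/-- axis of a state -/
def ax (k : Fin 4) : Bool := k == 0 || k == 2

def comp (b : Bool) (p : Vis) : ℤ := if b then hd p else vd p

lemma comp_ne {b : Bool} {p : Vis} (h : ax p.1 ≠ b) : comp b p = 0 := by
  obtain ⟨k, m⟩ := p
  revert h
  cases b
  · revert k; simp only [forall_fin4]; simp [ax, comp, vd]
  · revert k; simp only [forall_fin4]; simp [ax, comp, hd]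

lemma comp_inj {b : Bool} {k : Fin 4} (h : ax k = b) {m m' : ℤ}
    (he : comp b (k, m) = comp b (k, m')) : m = m' := by
  revert h he
  cases b
  · revert k; simp only [forall_fin4]; simp [ax, comp, vd]
  · revert k; simp only [forall_fin4]; simp [ax, comp, hd]

/-- perpendicular displacement strictly between two visits -/
def Dl (b : Bool) (V : List Vis) (i j : ℕ) : ℤ := ∑ u ∈ Ico (i + 1) j, comp b (gv V u)

lemma Dl_true {V : List Vis} {i j : ℕ} (hij : i + 1 ≤ j) :
    Dl true V i j = pre (hf V) j - pre (hf V) (i + 1) := by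
  unfold Dl pre
  rw [← Finset.sum_Ico_eq_sub _ hij]
  rfl

lemma Dl_false {V : List Vis} {i j : ℕ} (hij : i + 1 ≤ j) :
    Dl false V i j = pre (vf V) j - pre (vf V) (i + 1) := by
  unfold Dl pre
  rw [← Finset.sum_Ico_eq_sub _ hij]
  rfl

lemma ax_of {k : Fin 4} (h : k = 0 ∨ k = 2) : ax k = true := by
  rcases h with rfl | rfl <;> rfl

lemma ax_of' {k : Fin 4} (h : k = 1 ∨ k = 3) : ax k = false := by
  rcases h with rfl | rfl <;> rfl

/-- The transfer estimate for two visits in the same direction. -/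
lemma pair_bound {V : List Vis} (hx : 0 ≤ XX V) (hy : 0 ≤ YY V) (hR : Red V) {i j : ℕ}
    (hij : i + 1 < j) (hj : j < V.length) (hd : dir (gv V i) = dir (gv V j)) :
    ∃ b : Bool, ∃ i' : ℕ, (i' = i ∨ i' = j) ∧ ax (kf V i) ≠ b ∧ ax (kf V j) ≠ b ∧
      |mf V i'| * |Dl b V i j| ≤ nE V * nN V - AR V := by
  have hX := hx
  have hY := hy
  rw [XX_eq_pre] at hX
  rw [YY_eq_pre] at hY
  have mi := mf_ne_zero hR (t := i) (by omega)
  have mj := mf_ne_zero hR (t := j) hj
  have h1 := hd_dir (p := gv V i) mi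
  have h2 := hd_dir (p := gv V j) mj
  have pi : 0 < |mf V i| := abs_pos.2 mi
  have pj : 0 < |mf V j| := abs_pos.2 mj
  rcases h1 with ⟨d1, a1, b1, c1⟩ | ⟨d1, a1, b1, c1⟩ | ⟨d1, a1, b1, c1⟩ | ⟨d1, a1, b1, c1⟩
  · -- both east
    rcases h2 with ⟨d2, a2, b2, c2⟩ | ⟨d2, a2, b2, c2⟩ | ⟨d2, a2, b2, c2⟩ | ⟨d2, a2, b2, c2⟩
    rotate_left
    · rw [d1, d2] at hd; simp at hd
    · rw [d1, d2] at hd; simp at hd
    · rw [d1, d2] at hd; simp at hd
    have t1 := transfer_h (h := hf V) (w := vf V) hX hY (i := i) (j := j) (by omega) hj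
      (by omega) (by rw [show hf V i = |mf V i| from a1, show hf V j = |mf V j| from a2]
                     positivity)
    have t2 := transfer_h (h := hf V) (w := vf V) hX hY (i := j) (j := i) hj (by omega)
      (by omega) (by rw [show hf V i = |mf V i| from a1, show hf V j = |mf V j| from a2]
                     positivity)
    have e1 : pre (vf V) (j + 1) = pre (vf V) j := by
      unfold pre; rw [Finset.sum_range_succ, show vf V j = 0 from b2, add_zero]
    rw [show hf V i = |mf V i| from a1, e1] at t1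
    rw [show hf V j = |mf V j| from a2, e1] at t2
    have e2 := Dl_false (V := V) hij.le
    have b0 : ax (kf V i) = true := ax_of c1
    have b0' : ax (kf V j) = true := ax_of c2
    rcases le_total 0 (Dl false V i j) with h3 | h3
    · refine ⟨false, j, Or.inr rfl, by rw [b0]; simp, by rw [b0']; simp, ?_⟩
      rw [abs_of_nonneg h3, e2]
      change ar (hf V) (vf V) V.length + _ ≤ nE V * nN V at t2
      change _ ≤ nE V * nN V - ar (hf V) (vf V) V.length
      linarith
    · refine ⟨false, i, Or.inl rfl, by rw [b0]; simp, by rw [b0']; simp, ?_⟩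
      rw [abs_of_nonpos h3, e2]
      change ar (hf V) (vf V) V.length + _ ≤ nE V * nN V at t1
      change _ ≤ nE V * nN V - ar (hf V) (vf V) V.length
      linarith
  · -- both north
    rcases h2 with ⟨d2, a2, b2, c2⟩ | ⟨d2, a2, b2, c2⟩ | ⟨d2, a2, b2, c2⟩ | ⟨d2, a2, b2, c2⟩
    · rw [d1, d2] at hd; simp at hd
    rotate_left
    · rw [d1, d2] at hd; simp at hd
    · rw [d1, d2] at hd; simp at hd
    have t1 := transfer_v (h := hf V) (w := vf V) hX hY (i := i) (j := j) (by omega) hj
      (by omega) (by rw [show vf V i = |mf V i| from b1, show vf V j = |mf V j| from b2]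
                     positivity)
    have t2 := transfer_v (h := hf V) (w := vf V) hX hY (i := j) (j := i) hj (by omega)
      (by omega) (by rw [show vf V i = |mf V i| from b1, show vf V j = |mf V j| from b2]
                     positivity)
    have e1 : pre (hf V) (i + 1) = pre (hf V) i := by
      unfold pre; rw [Finset.sum_range_succ, show hf V i = 0 from a1, add_zero]
    rw [show vf V i = |mf V i| from b1, ← e1] at t1
    rw [show vf V j = |mf V j| from b2, ← e1] at t2
    have e2 := Dl_true (V := V) hij.le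
    have b0 : ax (kf V i) = false := ax_of' c1
    have b0' : ax (kf V j) = false := ax_of' c2
    rcases le_total 0 (Dl true V i j) with h3 | h3
    · refine ⟨true, i, Or.inl rfl, by rw [b0]; simp, by rw [b0']; simp, ?_⟩
      rw [abs_of_nonneg h3, e2]
      change ar (hf V) (vf V) V.length + _ ≤ nE V * nN V at t1
      change _ ≤ nE V * nN V - ar (hf V) (vf V) V.length
      linarith
    · refine ⟨true, j, Or.inr rfl, by rw [b0]; simp, by rw [b0']; simp, ?_⟩
      rw [abs_of_nonpos h3, e2]
      change ar (hf V) (vf V) V.length + _ ≤ nE V * nN V at t2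
      change _ ≤ nE V * nN V - ar (hf V) (vf V) V.length
      linarith
  · -- both west
    rcases h2 with ⟨d2, a2, b2, c2⟩ | ⟨d2, a2, b2, c2⟩ | ⟨d2, a2, b2, c2⟩ | ⟨d2, a2, b2, c2⟩
    · rw [d1, d2] at hd; simp at hd
    · rw [d1, d2] at hd; simp at hd
    rotate_left
    · rw [d1, d2] at hd; simp at hd
    have t1 := transfer_h (h := hf V) (w := vf V) hX hY (i := i) (j := j) (by omega) hj
      (by omega) (by rw [show hf V i = -|mf V i| from a1, show hf V j = -|mf V j| from a2]
                     nlinarith)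
    have t2 := transfer_h (h := hf V) (w := vf V) hX hY (i := j) (j := i) hj (by omega)
      (by omega) (by rw [show hf V i = -|mf V i| from a1, show hf V j = -|mf V j| from a2]
                     nlinarith)
    have e1 : pre (vf V) (j + 1) = pre (vf V) j := by
      unfold pre; rw [Finset.sum_range_succ, show vf V j = 0 from b2, add_zero]
    rw [show hf V i = -|mf V i| from a1, e1] at t1
    rw [show hf V j = -|mf V j| from a2, e1] at t2
    have e2 := Dl_false (V := V) hij.le
    have b0 : ax (kf V i) = true := ax_of c1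
    have b0' : ax (kf V j) = true := ax_of c2
    rcases le_total 0 (Dl false V i j) with h3 | h3
    · refine ⟨false, i, Or.inl rfl, by rw [b0]; simp, by rw [b0']; simp, ?_⟩
      rw [abs_of_nonneg h3, e2]
      change ar (hf V) (vf V) V.length + _ ≤ nE V * nN V at t1
      change _ ≤ nE V * nN V - ar (hf V) (vf V) V.length
      linarith
    · refine ⟨false, j, Or.inr rfl, by rw [b0]; simp, by rw [b0']; simp, ?_⟩
      rw [abs_of_nonpos h3, e2]
      change ar (hf V) (vf V) V.length + _ ≤ nE V * nN V at t2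
      change _ ≤ nE V * nN V - ar (hf V) (vf V) V.length
      linarith
  · -- both south
    rcases h2 with ⟨d2, a2, b2, c2⟩ | ⟨d2, a2, b2, c2⟩ | ⟨d2, a2, b2, c2⟩ | ⟨d2, a2, b2, c2⟩
    · rw [d1, d2] at hd; simp at hd
    · rw [d1, d2] at hd; simp at hd
    · rw [d1, d2] at hd; simp at hd
    have t1 := transfer_v (h := hf V) (w := vf V) hX hY (i := i) (j := j) (by omega) hj
      (by omega) (by rw [show vf V i = -|mf V i| from b1, show vf V j = -|mf V j| from b2]
                     nlinarith)
    have t2 := transfer_v (h := hf V) (w := vf V) hX hY (i := j) (j := i) hj (by omega)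
      (by omega) (by rw [show vf V i = -|mf V i| from b1, show vf V j = -|mf V j| from b2]
                     nlinarith)
    have e1 : pre (hf V) (i + 1) = pre (hf V) i := by
      unfold pre; rw [Finset.sum_range_succ, show hf V i = 0 from a1, add_zero]
    rw [show vf V i = -|mf V i| from b1, ← e1] at t1
    rw [show vf V j = -|mf V j| from b2, ← e1] at t2
    have e2 := Dl_true (V := V) hij.le
    have b0 : ax (kf V i) = false := ax_of' c1
    have b0' : ax (kf V j) = false := ax_of' c2
    rcases le_total 0 (Dl true V i j) with h3 | h3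
    · refine ⟨true, j, Or.inr rfl, by rw [b0]; simp, by rw [b0']; simp, ?_⟩
      rw [abs_of_nonneg h3, e2]
      change ar (hf V) (vf V) V.length + _ ≤ nE V * nN V at t2
      change _ ≤ nE V * nN V - ar (hf V) (vf V) V.length
      linarith
    · refine ⟨true, i, Or.inl rfl, by rw [b0]; simp, by rw [b0']; simp, ?_⟩
      rw [abs_of_nonpos h3, e2]
      change ar (hf V) (vf V) V.length + _ ≤ nE V * nN V at t1
      change _ ≤ nE V * nN V - ar (hf V) (vf V) V.length
      linarith

end Pool.Agent.H21Geo
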