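import Pool.Agent.H21Geo.Words

set_option autoImplicit false

/-! Symmetries: rotation and transposition. -/

namespace Pool.Agent.H21Geo

def rotp (p : Vis) : Vis := (p.1 + 1, p.2)
def tp (p : Vis) : Vis := (3 - p.1, -p.2)

def rotV (V : List Vis) : List Vis := V.map rotp
def tV (V : List Vis) : List Vis := V.map tp

lemma vis_cases {P : Vis → Prop} (h : ∀ k m, P (k, m)) (p : Vis) : P p := h p.1 p.2

lemma hd_mul_vd (p : Vis) : hd p * vd p = 0 := by
  obtain ⟨k, m⟩ := p
  revert k; simp only [forall_fin4]; simp [hd, vd]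

lemma hd_rotp (p : Vis) : hd (rotp p) = -vd p := by
  obtain ⟨k, m⟩ := p
  revert k; simp only [forall_fin4]
  refine ⟨?_, ?_, ?_, ?_⟩ <;> simp [hd, vd, rotp, show (1 : Fin 4) + 1 = 2 from rfl,
    show (2 : Fin 4) + 1 = 3 from rfl, show (3 : Fin 4) + 1 = 0 from rfl]

lemma vd_rotp (p : Vis) : vd (rotp p) = hd p := by
  obtain ⟨k, m⟩ := p
  revert k; simp only [forall_fin4]
  refine ⟨?_, ?_, ?_, ?_⟩ <;> simp [hd, vd, rotp, show (1 : Fin 4) + 1 = 2 from rfl,
    show (2 : Fin 4) + 1 = 3 from rfl, show (3 : Fin 4) + 1 = 0 from rfl]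

lemma dz_rotp (p : Vis) : dz (rotp p) = dz p + vd p := by
  obtain ⟨k, m⟩ := p
  revert k; simp only [forall_fin4]
  refine ⟨?_, ?_, ?_, ?_⟩ <;> simp [dz, vd, rotp, show (1 : Fin 4) + 1 = 2 from rfl,
    show (2 : Fin 4) + 1 = 3 from rfl, show (3 : Fin 4) + 1 = 0 from rfl]

lemma hd_tp (p : Vis) : hd (tp p) = vd p := by
  obtain ⟨k, m⟩ := p
  revert k; simp only [forall_fin4]
  refine ⟨?_, ?_, ?_, ?_⟩ <;> simp [hd, vd, tp, show (3 : Fin 4) - 0 = 3 from rfl,
    show (3 : Fin 4) - 1 = 2 from rfl, show (3 : Fin 4) - 2 = 1 from rfl,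
    show (3 : Fin 4) - 3 = 0 from rfl]

lemma vd_tp (p : Vis) : vd (tp p) = hd p := by
  obtain ⟨k, m⟩ := p
  revert k; simp only [forall_fin4]
  refine ⟨?_, ?_, ?_, ?_⟩ <;> simp [hd, vd, tp, show (3 : Fin 4) - 0 = 3 from rfl,
    show (3 : Fin 4) - 1 = 2 from rfl, show (3 : Fin 4) - 2 = 1 from rfl,
    show (3 : Fin 4) - 3 = 0 from rfl]

lemma dz_tp (p : Vis) : dz (tp p) = -dz p - hd p - vd p := by
  obtain ⟨k, m⟩ := p
  revert k; simp only [forall_fin4]
  refine ⟨?_, ?_, ?_, ?_⟩ <;> simp [hd, vd, dz, tp, show (3 : Fin 4) - 0 = 3 from rfl,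
    show (3 : Fin 4) - 1 = 2 from rfl, show (3 : Fin 4) - 2 = 1 from rfl,
    show (3 : Fin 4) - 3 = 0 from rfl]

lemma XX_rotV (V : List Vis) : XX (rotV V) = -YY V := by
  induction V with
  | nil => simp [rotV, XX, YY]
  | cons p V ih =>
    simp only [rotV, List.map_cons, XX, YY] at ih ⊢
    rw [ih, hd_rotp]; ring

lemma YY_rotV (V : List Vis) : YY (rotV V) = XX V := by
  induction V with
  | nil => simp [rotV, XX, YY]
  | cons p V ih =>
    simp only [rotV, List.map_cons, XX, YY] at ih ⊢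
    rw [ih, vd_rotp]

lemma ZZ_rotV (V : List Vis) : ZZ (rotV V) = ZZ V + YY V - XX V * YY V := by
  induction V with
  | nil => simp [rotV, XX, YY, ZZ]
  | cons p V ih =>
    have h1 := YY_rotV V
    simp only [rotV, List.map_cons, XX, YY, ZZ] at ih h1 ⊢
    rw [ih, h1, dz_rotp, hd_rotp]
    linear_combination (-1 : ℤ) * (-hd_mul_vd p)

lemma XX_tV (V : List Vis) : XX (tV V) = YY V := by
  induction V with
  | nil => simp [tV, XX, YY]
  | cons p V ih =>
    simp only [tV, List.map_cons, XX, YY] at ih ⊢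
    rw [ih, hd_tp]

lemma YY_tV (V : List Vis) : YY (tV V) = XX V := by
  induction V with
  | nil => simp [tV, XX, YY]
  | cons p V ih =>
    simp only [tV, List.map_cons, XX, YY] at ih ⊢
    rw [ih, vd_tp]

lemma ZZ_tV (V : List Vis) : ZZ (tV V) = XX V * YY V - XX V - YY V - ZZ V := by
  induction V with
  | nil => simp [tV, XX, YY, ZZ]
  | cons p V ih =>
    have h1 := YY_tV V
    simp only [tV, List.map_cons, XX, YY, ZZ] at ih h1 ⊢
    rw [ih, h1, dz_tp, hd_tp]
    linear_combination (-1 : ℤ) * hd_mul_vd p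

lemma cost_map (φ : Fin 4 → Fin 4) (hφ : Function.Injective φ) (e : ℤ) (he : e.natAbs = 1)
    (s : Fin 4) (V : List Vis) (f : Fin 4) :
    cost (φ s) (V.map (fun p => (φ p.1, e * p.2))) (φ f) = cost s V f := by
  induction V generalizing s with
  | nil => simp [cost, hφ.eq_iff]
  | cons p V ih =>
    simp only [List.map_cons, cost, ih, hφ.eq_iff, Int.natAbs_mul, he, one_mul]

lemma cost_rotV (s : Fin 4) (V : List Vis) (f : Fin 4) :
    cost (s + 1) (rotV V) (f + 1) = cost s V f := by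
  have := cost_map (fun k => k + 1) (add_left_injective 1) 1 rfl s V f
  simp only [one_mul] at this
  exact this

lemma cost_tV (s : Fin 4) (V : List Vis) (f : Fin 4) :
    cost (3 - s) (tV V) (3 - f) = cost s V f := by
  have := cost_map (fun k => 3 - k) (fun a b h => by simpa using h) (-1) rfl s V f
  simp only [neg_mul, one_mul] at this
  exact this

lemma rotV4 (V : List Vis) : rotV (rotV (rotV (rotV V))) = V := by
  simp only [rotV, List.map_map]
  conv_rhs => rw [← List.map_id V]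
  congr 1
  funext p
  obtain ⟨k, m⟩ := p
  simp only [Function.comp, rotp, id]
  revert k; simp only [forall_fin4]
  exact ⟨rfl, rfl, rfl, rfl⟩

lemma tV2 (V : List Vis) : tV (tV V) = V := by
  simp only [tV, List.map_map]
  conv_rhs => rw [← List.map_id V]
  congr 1
  funext p
  obtain ⟨k, m⟩ := p
  simp [Function.comp, tp]

lemma geo_rotV {s : Fin 4} {V : List Vis} {f : Fin 4} (h : Geo s V f) :
    Geo (s + 1) (rotV V) (f + 1) := by
  intro V' hx hy hz
  rw [cost_rotV]
  rw [XX_rotV] at hx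
  rw [YY_rotV] at hy
  rw [ZZ_rotV] at hz
  have h1 := h (rotV (rotV (rotV V')))
    (by rw [XX_rotV, YY_rotV, XX_rotV, hy]; ring)
    (by rw [YY_rotV, XX_rotV, YY_rotV, hx]; ring)
    (by simp only [ZZ_rotV, XX_rotV, YY_rotV]; rw [hx, hy, hz]; ring)
  have h2 := cost_rotV s (rotV (rotV (rotV V'))) f
  rw [rotV4] at h2
  rw [h2]; exact h1

lemma geo_tV {s : Fin 4} {V : List Vis} {f : Fin 4} (h : Geo s V f) :
    Geo (3 - s) (tV V) (3 - f) := by
  intro V' hx hy hz
  rw [cost_tV]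
  rw [XX_tV] at hx
  rw [YY_tV] at hy
  rw [ZZ_tV] at hz
  have h1 := h (tV V') (by rw [XX_tV, hy]) (by rw [YY_tV, hx])
    (by rw [ZZ_tV, hx, hy, hz]; ring)
  have h2 := cost_tV s (tV V') f
  rw [tV2] at h2
  rw [h2]; exact h1

lemma red_map (φ : Vis → Vis) (h0 : ∀ p, p.2 ≠ 0 → (φ p).2 ≠ 0)
    (h1 : ∀ p q, p.1 ≠ q.1 → (φ p).1 ≠ (φ q).1) {V : List Vis} (h : Red V) :
    Red (V.map φ) := by
  induction V with
  | nil => trivial
  | cons p V ih =>
    cases V with
    | nil => exact h0 p h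
    | cons q V => exact ⟨h0 p h.1, h1 p q h.2.1, ih h.2.2⟩

lemma red_rotV {V : List Vis} (h : Red V) : Red (rotV V) :=
  red_map rotp (fun p hp => hp) (fun p q hpq h => hpq (add_left_injective 1 h)) h

lemma red_tV {V : List Vis} (h : Red V) : Red (tV V) :=
  red_map tp (fun p hp => by simpa [tp] using hp)
    (fun p q hpq h => hpq (by simpa [tp] using h)) h

end Pool.Agent.H21Geo
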