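import Pool.Agent.H21Geo.Count

set_option autoImplicit false
set_option linter.unusedSimpArgs false
set_option linter.unusedVariables false

/-! Upper bounds. -/

namespace Pool.Agent.H21Geo

open Finset

/-- lists in standard position which are geodesic for some pair of states -/
def Good (r q : ℕ) (V : List Vis) : Prop :=
  V.length = r ∧ len V ≤ ((q : ℤ) ^ 6) ∧ Red V ∧ Std V ∧ ∃ s f, Geo s V f

lemma vec_eq_of_update {r : ℕ} {V V' : List Vis} {j : Fin r} {p p' : Vis}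
    (h : Function.update (vec r V) j p = Function.update (vec r V') j p') :
    (∀ t, t < r → t ≠ j → gv V t = gv V' t) ∧ p = p' := by
  constructor
  · intro t ht htj
    have := congrFun h ⟨t, ht⟩
    have hne : (⟨t, ht⟩ : Fin r) ≠ j := fun h => htj (by rw [← h])
    rwa [Function.update_of_ne hne, Function.update_of_ne hne] at this
  · have := congrFun h j
    rwa [Function.update_self, Function.update_self] at this

lemma vec_eq_of_update2 {r : ℕ} {V V' : List Vis} {a j : Fin r} (haj : a ≠ j) {x x' p p' : Vis}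
    (h : Function.update (Function.update (vec r V) a x) j p =
      Function.update (Function.update (vec r V') a x') j p') :
    (∀ t, t < r → t ≠ a → t ≠ j → gv V t = gv V' t) ∧ x = x' ∧ p = p' := by
  refine ⟨?_, ?_, ?_⟩
  · intro t ht hta htj
    have := congrFun h ⟨t, ht⟩
    have hne : (⟨t, ht⟩ : Fin r) ≠ j := fun h => htj (by rw [← h])
    have hne2 : (⟨t, ht⟩ : Fin r) ≠ a := fun h => hta (by rw [← h])
    rwa [Function.update_of_ne hne, Function.update_of_ne hne, Function.update_of_ne hne2,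
      Function.update_of_ne hne2] at this
  · have := congrFun h a
    rwa [Function.update_of_ne haj, Function.update_of_ne haj, Function.update_self,
      Function.update_self] at this
  · have := congrFun h j
    rwa [Function.update_self, Function.update_self] at this

lemma pow_le_two {q : ℕ} (hq : 1 ≤ q) (a : ℕ) : (1 : ℤ) ≤ 2 * (q : ℤ) ^ a := by
  have : 1 ≤ q ^ a := Nat.one_le_pow _ _ hq
  have h : (1 : ℤ) ≤ (q : ℤ) ^ a := by exact_mod_cast this
  linarith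

/-- seven visits, first kind -/
def P7a (q : ℕ) (x : Fin 7 × Fin 7) (V : List Vis) : Prop :=
  x.1 ≠ x.2 ∧ |mf V x.1| ≤ 1 ∧ (dir (gv V x.2) = 0 ∨ dir (gv V x.2) = 1) ∧
    |LL V| ≤ 2 * (q : ℤ) ^ 3

def ce1 : Fin 3 → ℕ := ![2, 6, 4]
def ce2 : Fin 3 → ℕ := ![6, 2, 4]

lemma ce_sum (c : Fin 3) : ce1 c + ce2 c = 8 := by revert c; decide

/-- seven visits, second kind: `x = (a, j, i', j0)` -/
def P7b (q : ℕ) (x : (Fin 7 × Fin 7 × Fin 7 × Fin 7) × Bool × Fin 3) (V : List Vis) : Prop :=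
  (x.1.1 : ℕ) < x.1.2.1 ∧ x.1.2.2.1 ≠ x.1.1 ∧ x.1.2.2.2 ≠ x.1.2.2.1 ∧
  ax (kf V x.1.1) = x.2.1 ∧ ax (kf V x.1.2.2.2) ≠ x.2.1 ∧
  (dir (gv V x.1.2.2.2) = 0 ∨ dir (gv V x.1.2.2.2) = 1) ∧
  |mf V x.1.2.2.1| ≤ (q : ℤ) ^ (ce1 x.2.2) ∧
  |∑ u ∈ Ico (x.1.1 : ℕ) x.1.2.1, comp x.2.1 (gv V u)| ≤ (q : ℤ) ^ (ce2 x.2.2) ∧
  |LL V| ≤ 2 * (q : ℤ) ^ 3

lemma card7a {q : ℕ} (hq : 1 ≤ q) (x : Fin 7 × Fin 7) (Ω : Finset (List Vis))
    (h : ∀ V ∈ Ω, Good 7 q V ∧ P7a q x V) : Ω.card ≤ 20 ^ 7 * q ^ 35 := by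
  classical
  by_cases hx : x.1 = x.2
  · have : Ω = ∅ := by
      rw [Finset.eq_empty_iff_forall_notMem]
      intro V hV
      exact (h V hV).2.1 hx
    rw [this]; simp
  obtain ⟨i0, j0⟩ := x
  simp only at hx
  set e : Fin 7 → ℕ := Function.update (Function.update (fun _ => 6) i0 0) j0 3 with he
  have hsum : ∑ i, e i = 33 := by
    have h1 := sum_upd (fun _ : Fin 7 => 6) i0 0
    have h2 := sum_upd (Function.update (fun _ : Fin 7 => 6) i0 0) j0 3
    rw [Function.update_of_ne (Ne.symm hx)] at h2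
    simp only [Finset.sum_const, Finset.card_univ, Fintype.card_fin, smul_eq_mul] at h1
    rw [he]
    omega
  have h1 := count_box hq e Ω (fun V => Function.update (vec 7 V) j0 (kf V j0, LL V)) ?_ ?_
  · rw [hsum] at h1
    refine h1.trans (Nat.mul_le_mul_left _ (Nat.pow_le_pow_right hq (by norm_num)))
  · intro V hV V' hV' heq
    obtain ⟨⟨v1, v2, v3, v4, v5⟩, w1, w2, w3, w4⟩ := h V hV
    obtain ⟨⟨v1', v2', v3', v4', v5'⟩, w1', w2', w3', w4'⟩ := h V' hV'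
    obtain ⟨g1, g2⟩ := vec_eq_of_update heq
    rw [Prod.mk.injEq] at g2
    exact LL_det v3 v3' (by omega) (j := j0) (by rw [v1]; exact j0.2)
      (fun t ht htj => g1 t (by omega) htj) w3 w3' g2.1 g2.2
  · intro V hV i
    obtain ⟨⟨v1, v2, v3, v4, v5⟩, w1, w2, w3, w4⟩ := h V hV
    simp only at w2 w3 w4
    by_cases hi : i = j0
    · subst hi
      rw [Function.update_self, he, Function.update_self]
      exact w4
    · rw [Function.update_of_ne hi, he, Function.update_of_ne hi]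
      by_cases hi2 : i = i0
      · subst hi2
        rw [Function.update_self]
        have : |(vec 7 V i).2| ≤ 1 := w2
        simpa using this.trans (by norm_num)
      · rw [Function.update_of_ne hi2]
        have : |(vec 7 V i).2| ≤ len V := abs_mf_le V i
        have h0 : (0 : ℤ) ≤ (q : ℤ) ^ 6 := by positivity
        linarith

lemma card7b {q : ℕ} (hq : 1 ≤ q) (x : (Fin 7 × Fin 7 × Fin 7 × Fin 7) × Bool × Fin 3)
    (Ω : Finset (List Vis))
    (h : ∀ V ∈ Ω, Good 7 q V ∧ P7b q x V) : Ω.card ≤ 20 ^ 7 * q ^ 35 := by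
  classical
  obtain ⟨⟨a, j, i', j0⟩, b, c⟩ := x
  rcases Finset.eq_empty_or_nonempty Ω with hΩ | ⟨V0, hV0⟩
  · rw [hΩ]; simp
  have hx1 : i' ≠ a := (h V0 hV0).2.2.1
  have hx2 : j0 ≠ i' := (h V0 hV0).2.2.2.1
  have hx0 : (a : ℕ) < j := (h V0 hV0).2.1
  have hx3 : j0 ≠ a := by
    rintro rfl
    exact (h V0 hV0).2.2.2.2.2.1 (h V0 hV0).2.2.2.2.1
  set e : Fin 7 → ℕ := Function.update (Function.update (Function.update (fun _ => 6)
    a (ce2 c)) i' (ce1 c)) j0 3 with he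
  have hsum : ∑ i, e i = 35 := by
    have h1 := sum_upd (fun _ : Fin 7 => 6) a (ce2 c)
    have h2 := sum_upd (Function.update (fun _ : Fin 7 => 6) a (ce2 c)) i' (ce1 c)
    have h3 := sum_upd (Function.update (Function.update (fun _ : Fin 7 => 6) a (ce2 c))
      i' (ce1 c)) j0 3
    rw [Function.update_of_ne hx1] at h2
    rw [Function.update_of_ne hx2, Function.update_of_ne hx3] at h3
    simp only [Finset.sum_const, Finset.card_univ, Fintype.card_fin, smul_eq_mul] at h1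
    have h4 := ce_sum c
    rw [he]
    omega
  have h1 := count_box hq e Ω (fun V => Function.update (Function.update (vec 7 V) a
    (kf V a, ∑ u ∈ Ico (a : ℕ) j, comp b (gv V u))) j0 (kf V j0, LL V)) ?_ ?_
  · rw [hsum] at h1
    exact h1
  · intro V hV V' hV' heq
    obtain ⟨⟨v1, v2, v3, v4, v5⟩, w0, w1, w2, w3, w4, w5, w6, w7, w8⟩ := h V hV
    obtain ⟨⟨v1', v2', v3', v4', v5'⟩, w0', w1', w2', w3', w4', w5', w6', w7', w8'⟩ := h V' hV'
    simp only at w0 w1 w2 w3 w4 w5 w6 w7 w8 w0' w1' w2' w3' w4' w5' w6' w7' w8'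
    obtain ⟨g1, g2, g3⟩ := vec_eq_of_update2 (Ne.symm hx3) heq
    rw [Prod.mk.injEq] at g2 g3
    have g4 : gv V a = gv V' a := by
      refine Dl_det hx0 ?_ g2.1 w3 g2.2
      intro t hta htj hne
      by_cases ht : t = j0
      · subst ht
        rw [comp_ne w4, comp_ne w4']
      · rw [g1 t (by have := j.2; omega) hne ht]
    refine LL_det v3 v3' (by omega) (j := j0) (by rw [v1]; exact j0.2) ?_ w5 w5' g3.1 g3.2
    intro t ht htj
    by_cases hta : t = a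
    · rw [hta]; exact g4
    · exact g1 t (by omega) hta htj
  · intro V hV i
    obtain ⟨⟨v1, v2, v3, v4, v5⟩, w0, w1, w2, w3, w4, w5, w6, w7, w8⟩ := h V hV
    simp only at w0 w1 w2 w3 w4 w5 w6 w7 w8
    by_cases hi : i = j0
    · subst hi
      rw [Function.update_self, he, Function.update_self]
      exact w8
    · rw [Function.update_of_ne hi, he, Function.update_of_ne hi]
      by_cases hi2 : i = i'
      · subst hi2
        rw [Function.update_self, Function.update_of_ne hx1]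
        have h2 : |(vec 7 V i).2| ≤ (q : ℤ) ^ (ce1 c) := w6
        have h0 : (0 : ℤ) ≤ (q : ℤ) ^ (ce1 c) := by positivity
        linarith
      · rw [Function.update_of_ne hi2]
        by_cases hi3 : i = a
        · subst hi3
          rw [Function.update_self, Function.update_self]
          have h0 : (0 : ℤ) ≤ (q : ℤ) ^ (ce2 c) := by positivity
          simp only
          linarith
        · rw [Function.update_of_ne hi3, Function.update_of_ne hi3]
          have : |(vec 7 V i).2| ≤ len V := abs_mf_le V i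
          have h0 : (0 : ℤ) ≤ (q : ℤ) ^ 6 := by positivity
          linarith

/-- hyperbola trichotomy -/
lemma hyper {q : ℕ} (hq : 1 ≤ q) {a d : ℤ} (ha : 0 ≤ a) (hd : 0 ≤ d) (ha6 : a ≤ (q : ℤ) ^ 6)
    (hd6 : d ≤ (q : ℤ) ^ 6) (had : a * d ≤ (q : ℤ) ^ 6) :
    ∃ c : Fin 3, a ≤ (q : ℤ) ^ (ce1 c) ∧ d ≤ (q : ℤ) ^ (ce2 c) := by
  have hq0 : (0 : ℤ) < (q : ℤ) ^ 2 := by positivity
  by_cases h1 : a ≤ (q : ℤ) ^ 2
  · exact ⟨0, h1, hd6⟩
  · by_cases h2 : d ≤ (q : ℤ) ^ 2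
    · exact ⟨1, ha6, h2⟩
    · push Not at h1 h2
      refine ⟨2, ?_, ?_⟩
      · change a ≤ (q : ℤ) ^ 4
        by_contra h3
        push Not at h3
        have : (q : ℤ) ^ 4 * (q : ℤ) ^ 2 < a * d :=
          mul_lt_mul'' h3 h2 (by positivity) hq0.le
        have h4 : (q : ℤ) ^ 4 * (q : ℤ) ^ 2 = (q : ℤ) ^ 6 := by ring
        linarith
      · change d ≤ (q : ℤ) ^ 4
        by_contra h3
        push Not at h3
        have : (q : ℤ) ^ 2 * (q : ℤ) ^ 4 < a * d :=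
          mul_lt_mul'' h1 h3 hq0.le (by positivity)
        have h4 : (q : ℤ) ^ 2 * (q : ℤ) ^ 4 = (q : ℤ) ^ 6 := by ring
        linarith

lemma card7 {q : ℕ} (hq : 1 ≤ q) (Ω : Finset (List Vis)) (h : ∀ V ∈ Ω, Good 7 q V) :
    Ω.card ≤ (49 + 7 ^ 4 * 6) * (20 ^ 7 * q ^ 35) := by
  have h1 := count_union (G := Ω)
    (ι := (Fin 7 × Fin 7) ⊕ ((Fin 7 × Fin 7 × Fin 7 × Fin 7) × Bool × Fin 3))
    (fun x V => Sum.elim (fun x => P7a q x V) (fun x => P7b q x V) x) ?_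
    (M := 20 ^ 7 * q ^ 35) ?_
  · refine h1.trans (Nat.mul_le_mul_right _ ?_)
    simp
  · intro V hV
    obtain ⟨v1, v2, v3, v4, s, f, v5⟩ := h V hV
    have hq3 : (1 : ℤ) ≤ (q : ℤ) ^ 3 := by
      have : 1 ≤ q ^ 3 := Nat.one_le_pow _ _ hq
      exact_mod_cast this
    obtain ⟨g1, g2⟩ := feat7 v4 v5 v3 v1 (S := (q : ℤ) ^ 3) (n := (q : ℤ) ^ 6) hq3
      (by nlinarith) v2
    rcases g2 with ⟨i0, j0, k1, k2, k3, k4, k5⟩ | ⟨i, j, b, i', j0, k1, k2, k3, k4, k5, k6, k7,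
      k8, k9, k10⟩
    · refine ⟨Sum.inl (⟨i0, k1⟩, ⟨j0, k2⟩), ?_, k4, k5, g1⟩
      simp only [ne_eq, Fin.mk.injEq]
      exact k3
    · have hD : |Dl b V i j| ≤ (q : ℤ) ^ 6 := (Dl_abs_le b V (by omega)).trans v2
      obtain ⟨c, c1, c2⟩ := hyper hq (abs_nonneg (mf V i')) (abs_nonneg (Dl b V i j))
        ((abs_mf_le V i').trans v2) hD k10
      refine ⟨Sum.inr ((⟨i + 1, by omega⟩, ⟨j, k2⟩, ⟨i', k3⟩, ⟨j0, k4⟩), b, c), k1, ?_, ?_, k7,
        k8, k9, c1, c2, g1⟩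
      · simp only [ne_eq, Fin.mk.injEq]; exact k5
      · simp only [ne_eq, Fin.mk.injEq]; exact k6
  · rintro (x | x) Ω' hΩ'
    · exact card7a hq x Ω' fun V hV => ⟨h V (hΩ' V hV).1, (hΩ' V hV).2⟩
    · exact card7b hq x Ω' fun V hV => ⟨h V (hΩ' V hV).1, (hΩ' V hV).2⟩

/-- six visits -/
def P6a (q : ℕ) (x : Fin 6) (V : List Vis) : Prop :=
  (dir (gv V x) = 0 ∨ dir (gv V x) = 1) ∧ |LL V| ≤ 2 * (q : ℤ) ^ 3

def P6b (q : ℕ) (x : Fin 6) (V : List Vis) : Prop := |mf V x| ≤ (q : ℤ) ^ 3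

def P6c (q : ℕ) (x : (Fin 6 × Fin 6 × Fin 6) × Bool × Fin 3) (V : List Vis) : Prop :=
  (x.1.1 : ℕ) < x.1.2.1 ∧ x.1.2.2 ≠ x.1.1 ∧
  ax (kf V x.1.1) = x.2.1 ∧
  |mf V x.1.2.2| ≤ (q : ℤ) ^ (ce1 x.2.2) ∧
  |∑ u ∈ Ico (x.1.1 : ℕ) x.1.2.1, comp x.2.1 (gv V u)| ≤ (q : ℤ) ^ (ce2 x.2.2)

lemma card6a {q : ℕ} (hq : 1 ≤ q) (j0 : Fin 6) (Ω : Finset (List Vis))
    (h : ∀ V ∈ Ω, Good 6 q V ∧ P6a q j0 V) : Ω.card ≤ 20 ^ 6 * q ^ 35 := by
  classical
  set e : Fin 6 → ℕ := Function.update (fun _ => 6) j0 3 with he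
  have hsum : ∑ i, e i = 33 := by
    have h1 := sum_upd (fun _ : Fin 6 => 6) j0 3
    simp only [Finset.sum_const, Finset.card_univ, Fintype.card_fin, smul_eq_mul] at h1
    rw [he]
    omega
  have h1 := count_box hq e Ω (fun V => Function.update (vec 6 V) j0 (kf V j0, LL V)) ?_ ?_
  · rw [hsum] at h1
    refine h1.trans (Nat.mul_le_mul_left _ (Nat.pow_le_pow_right hq (by norm_num)))
  · intro V hV V' hV' heq
    obtain ⟨⟨v1, v2, v3, v4, v5⟩, w3, w4⟩ := h V hV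
    obtain ⟨⟨v1', v2', v3', v4', v5'⟩, w3', w4'⟩ := h V' hV'
    obtain ⟨g1, g2⟩ := vec_eq_of_update heq
    rw [Prod.mk.injEq] at g2
    exact LL_det v3 v3' (by omega) (j := j0) (by rw [v1]; exact j0.2)
      (fun t ht htj => g1 t (by omega) htj) w3 w3' g2.1 g2.2
  · intro V hV i
    obtain ⟨⟨v1, v2, v3, v4, v5⟩, w3, w4⟩ := h V hV
    by_cases hi : i = j0
    · subst hi
      rw [Function.update_self, he, Function.update_self]
      exact w4
    · rw [Function.update_of_ne hi, he, Function.update_of_ne hi]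
      have : |(vec 6 V i).2| ≤ len V := abs_mf_le V i
      have h0 : (0 : ℤ) ≤ (q : ℤ) ^ 6 := by positivity
      linarith

lemma card6b {q : ℕ} (hq : 1 ≤ q) (j0 : Fin 6) (Ω : Finset (List Vis))
    (h : ∀ V ∈ Ω, Good 6 q V ∧ P6b q j0 V) : Ω.card ≤ 20 ^ 6 * q ^ 35 := by
  classical
  set e : Fin 6 → ℕ := Function.update (fun _ => 6) j0 3 with he
  have hsum : ∑ i, e i = 33 := by
    have h1 := sum_upd (fun _ : Fin 6 => 6) j0 3
    simp only [Finset.sum_const, Finset.card_univ, Fintype.card_fin, smul_eq_mul] at h1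
    rw [he]
    omega
  have h1 := count_box hq e Ω (fun V => vec 6 V) ?_ ?_
  · rw [hsum] at h1
    refine h1.trans (Nat.mul_le_mul_left _ (Nat.pow_le_pow_right hq (by norm_num)))
  · intro V hV V' hV' heq
    obtain ⟨⟨v1, v2, v3, v4, v5⟩, w4⟩ := h V hV
    obtain ⟨⟨v1', v2', v3', v4', v5'⟩, w4'⟩ := h V' hV'
    refine eq_of_gv (by omega) fun t ht => ?_
    exact congrFun heq ⟨t, by omega⟩
  · intro V hV i
    obtain ⟨⟨v1, v2, v3, v4, v5⟩, w4⟩ := h V hV
    by_cases hi : i = j0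
    · subst hi
      rw [he, Function.update_self]
      have h2 : |(vec 6 V i).2| ≤ (q : ℤ) ^ 3 := w4
      have h0 : (0 : ℤ) ≤ (q : ℤ) ^ 3 := by positivity
      linarith
    · rw [he, Function.update_of_ne hi]
      have : |(vec 6 V i).2| ≤ len V := abs_mf_le V i
      have h0 : (0 : ℤ) ≤ (q : ℤ) ^ 6 := by positivity
      linarith

lemma card6c {q : ℕ} (hq : 1 ≤ q) (x : (Fin 6 × Fin 6 × Fin 6) × Bool × Fin 3)
    (Ω : Finset (List Vis))
    (h : ∀ V ∈ Ω, Good 6 q V ∧ P6c q x V) : Ω.card ≤ 20 ^ 6 * q ^ 35 := by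
  classical
  obtain ⟨⟨a, j, i'⟩, b, c⟩ := x
  rcases Finset.eq_empty_or_nonempty Ω with hΩ | ⟨V0, hV0⟩
  · rw [hΩ]; simp
  have hx1 : i' ≠ a := (h V0 hV0).2.2.1
  have hx0 : (a : ℕ) < j := (h V0 hV0).2.1
  set e : Fin 6 → ℕ := Function.update (Function.update (fun _ => 6)
    a (ce2 c)) i' (ce1 c) with he
  have hsum : ∑ i, e i = 32 := by
    have h1 := sum_upd (fun _ : Fin 6 => 6) a (ce2 c)
    have h2 := sum_upd (Function.update (fun _ : Fin 6 => 6) a (ce2 c)) i' (ce1 c)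
    rw [Function.update_of_ne hx1] at h2
    simp only [Finset.sum_const, Finset.card_univ, Fintype.card_fin, smul_eq_mul] at h1
    have h4 := ce_sum c
    rw [he]
    omega
  have h1 := count_box hq e Ω (fun V => Function.update (vec 6 V) a
    (kf V a, ∑ u ∈ Ico (a : ℕ) j, comp b (gv V u))) ?_ ?_
  · rw [hsum] at h1
    refine h1.trans (Nat.mul_le_mul_left _ (Nat.pow_le_pow_right hq (by norm_num)))
  · intro V hV V' hV' heq
    obtain ⟨⟨v1, v2, v3, v4, v5⟩, w0, w1, w3, w6, w7⟩ := h V hV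
    obtain ⟨⟨v1', v2', v3', v4', v5'⟩, w0', w1', w3', w6', w7'⟩ := h V' hV'
    simp only at w0 w1 w3 w6 w7 w0' w1' w3' w6' w7'
    obtain ⟨g1, g2⟩ := vec_eq_of_update heq
    rw [Prod.mk.injEq] at g2
    have g4 : gv V a = gv V' a := by
      refine Dl_det hx0 ?_ g2.1 w3 g2.2
      intro t hta htj hne
      rw [g1 t (by have := j.2; omega) hne]
    refine eq_of_gv (by omega) fun t ht => ?_
    by_cases hta : t = a
    · rw [hta]; exact g4
    · exact g1 t (by omega) hta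
  · intro V hV i
    obtain ⟨⟨v1, v2, v3, v4, v5⟩, w0, w1, w3, w6, w7⟩ := h V hV
    simp only at w0 w1 w3 w6 w7
    by_cases hi2 : i = i'
    · subst hi2
      rw [he, Function.update_self, Function.update_of_ne hx1]
      have h2 : |(vec 6 V i).2| ≤ (q : ℤ) ^ (ce1 c) := w6
      have h0 : (0 : ℤ) ≤ (q : ℤ) ^ (ce1 c) := by positivity
      linarith
    · rw [he, Function.update_of_ne hi2]
      by_cases hi3 : i = a
      · subst hi3
        rw [Function.update_self, Function.update_self]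
        have h0 : (0 : ℤ) ≤ (q : ℤ) ^ (ce2 c) := by positivity
        simp only
        linarith
      · rw [Function.update_of_ne hi3, Function.update_of_ne hi3]
        have : |(vec 6 V i).2| ≤ len V := abs_mf_le V i
        have h0 : (0 : ℤ) ≤ (q : ℤ) ^ 6 := by positivity
        linarith

lemma card6 {q : ℕ} (hq : 1 ≤ q) (Ω : Finset (List Vis)) (h : ∀ V ∈ Ω, Good 6 q V) :
    Ω.card ≤ (12 + 6 ^ 3 * 6) * (20 ^ 6 * q ^ 35) := by
  have h1 := count_union (G := Ω)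
    (ι := (Fin 6 ⊕ Fin 6) ⊕ ((Fin 6 × Fin 6 × Fin 6) × Bool × Fin 3))
    (fun x V => Sum.elim (fun y => Sum.elim (fun x => P6a q x V) (fun x => P6b q x V) y)
      (fun x => P6c q x V) x) ?_
    (M := 20 ^ 6 * q ^ 35) ?_
  · refine h1.trans (Nat.mul_le_mul_right _ ?_)
    simp
  · intro V hV
    obtain ⟨v1, v2, v3, v4, s, f, v5⟩ := h V hV
    have hq3 : (1 : ℤ) ≤ (q : ℤ) ^ 3 := by
      have : 1 ≤ q ^ 3 := Nat.one_le_pow _ _ hq
      exact_mod_cast this
    have g2 := feat6 v4 v5 v3 v1 (S := (q : ℤ) ^ 3) (n := (q : ℤ) ^ 6) hq3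
      (by nlinarith) v2
    rcases g2 with ⟨g1, j0, k1, k2⟩ | ⟨i0, k1, k2⟩ | ⟨i, j, b, i', k1, k2, k3, k5, k7, k10⟩
    · exact ⟨Sum.inl (Sum.inl ⟨j0, k1⟩), k2, g1⟩
    · exact ⟨Sum.inl (Sum.inr ⟨i0, k1⟩), k2⟩
    · have hD : |Dl b V i j| ≤ (q : ℤ) ^ 6 := (Dl_abs_le b V (by omega)).trans v2
      obtain ⟨c, c1, c2⟩ := hyper hq (abs_nonneg (mf V i')) (abs_nonneg (Dl b V i j))
        ((abs_mf_le V i').trans v2) hD k10
      refine ⟨Sum.inr ((⟨i + 1, by omega⟩, ⟨j, k2⟩, ⟨i', k3⟩), b, c), k1, ?_, k7, c1, c2⟩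
      simp only [ne_eq, Fin.mk.injEq]; exact k5
  · rintro ((x | x) | x) Ω' hΩ'
    · exact card6a hq x Ω' fun V hV => ⟨h V (hΩ' V hV).1, (hΩ' V hV).2⟩
    · exact card6b hq x Ω' fun V hV => ⟨h V (hΩ' V hV).1, (hΩ' V hV).2⟩
    · exact card6c hq x Ω' fun V hV => ⟨h V (hΩ' V hV).1, (hΩ' V hV).2⟩

end Pool.Agent.H21Geo
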