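import Pool.Agent.H21Geo.Upper

set_option autoImplicit false
set_option linter.unusedSimpArgs false
set_option linter.unusedVariables false

/-! Upper bounds for the number of geodesic words. -/

namespace Pool.Agent.H21Geo

open Finset

lemma rotV_inj : Function.Injective rotV := by
  intro V V' h
  have := congrArg (fun W => rotV (rotV (rotV W))) h
  simpa only [rotV4] using this

lemma tV_inj : Function.Injective tV := by
  intro V V' h
  have := congrArg tV h
  simpa only [tV2] using this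

/-- the eight symmetries -/
def sy (x : Fin 4 × Bool) (V : List Vis) : List Vis :=
  if x.2 then tV (rotV^[(x.1 : ℕ)] V) else rotV^[(x.1 : ℕ)] V

lemma sy_inj (x : Fin 4 × Bool) : Function.Injective (sy x) := by
  intro V V' h
  unfold sy at h
  split_ifs at h
  · exact (rotV_inj.iterate _) (tV_inj h)
  · exact (rotV_inj.iterate _) h

lemma len_map (φ : Vis → Vis) (hφ : ∀ p, |(φ p).2| = |p.2|) (V : List Vis) :
    len (V.map φ) = len V := by
  induction V with
  | nil => rfl
  | cons p V ih => rw [List.map_cons, len_cons, len_cons, ih, hφ]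

lemma len_rotV (V : List Vis) : len (rotV V) = len V := len_map rotp (fun p => rfl) V
lemma len_tV (V : List Vis) : len (tV V) = len V := len_map tp (fun p => abs_neg _) V

/-- `V` is reduced and geodesic for some states -/
def RG (V : List Vis) : Prop := Red V ∧ ∃ s f, Geo s V f

lemma RG.rot {V : List Vis} (h : RG V) : RG (rotV V) := by
  obtain ⟨h1, s, f, h2⟩ := h
  exact ⟨red_rotV h1, _, _, geo_rotV h2⟩

lemma RG.t {V : List Vis} (h : RG V) : RG (tV V) := by
  obtain ⟨h1, s, f, h2⟩ := h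
  exact ⟨red_tV h1, _, _, geo_tV h2⟩

lemma std_of_quad {V : List Vis} (h : RG V) (h6 : 6 ≤ V.length) (hx : 0 ≤ XX V)
    (hy : 0 ≤ YY V) : Std V ∨ Std (tV V) := by
  by_cases h1 : (XX V + 1) * (YY V + 1) < ZZ V + XX V + YY V + 1
  · exact Or.inl ⟨hx, hy, h1⟩
  · by_cases h2 : ZZ V + XX V + YY V + 1 < 1
    · right
      refine ⟨by rw [XX_tV]; exact hy, by rw [YY_tV]; exact hx, ?_⟩
      rw [XX_tV, YY_tV, ZZ_tV]
      nlinarith
    · exfalso
      push Not at h1 h2
      obtain ⟨hR, s, f, hG⟩ := h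
      obtain ⟨V', v1, v2, v3, v4⟩ := flat (XX V) (YY V) (ZZ V) hx hy h2 h1 s f
      have h3 := hG V' v1 v2 v3
      have h4 : (cost s V f : ℤ) ≤ cost s V' f := by exact_mod_cast h3
      rw [cost_eq s V f] at h4
      have hne : V ≠ [] := by rintro rfl; simp at h6
      have h5 := tgs_ge hR hne s f
      have h7 : (5 : ℤ) ≤ tgs s V f := by
        have : 5 ≤ tgs s V f := by omega
        exact_mod_cast this
      have h8 := len_eq V
      have h9 := XX_eq V
      have h10 := YY_eq V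
      have h11 := nW_nonneg V
      have h12 := nS_nonneg V
      linarith

lemma exists_sy {V : List Vis} (h : RG V) (h6 : 6 ≤ V.length) :
    ∃ x, RG (sy x V) ∧ Std (sy x V) ∧ (sy x V).length = V.length ∧ len (sy x V) = len V := by
  have key : ∀ j : Fin 4, 0 ≤ XX (rotV^[(j : ℕ)] V) → 0 ≤ YY (rotV^[(j : ℕ)] V) →
      ∃ x, RG (sy x V) ∧ Std (sy x V) ∧ (sy x V).length = V.length ∧ len (sy x V) = len V := by
    intro j hx hy
    have hRG : ∀ n : ℕ, RG (rotV^[n] V) ∧ (rotV^[n] V).length = V.length ∧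
        len (rotV^[n] V) = len V := by
      intro n
      induction n with
      | zero => exact ⟨h, rfl, rfl⟩
      | succ n ih =>
        rw [Function.iterate_succ_apply']
        refine ⟨ih.1.rot, ?_, by rw [len_rotV]; exact ih.2.2⟩
        rw [← ih.2.1]; simp [rotV]
    obtain ⟨g1, g2, g3⟩ := hRG j
    rcases std_of_quad g1 (by rw [g2]; exact h6) hx hy with h1 | h1
    · exact ⟨(j, false), g1, h1, g2, g3⟩
    · refine ⟨(j, true), ?_, ?_, ?_, ?_⟩
      · simp only [sy, if_true]; exact g1.t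
      · simp only [sy, if_true]; exact h1
      · simp only [sy, if_true]; rw [← g2]; simp [tV]
      · simp only [sy, if_true]; rw [len_tV, g3]
  rcases le_total 0 (XX V) with hx | hx <;> rcases le_total 0 (YY V) with hy | hy
  · exact key 0 hx hy
  · refine key 1 ?_ ?_
    · change 0 ≤ XX (rotV V); rw [XX_rotV]; linarith
    · change 0 ≤ YY (rotV V); rw [YY_rotV]; exact hx
  · refine key 3 ?_ ?_
    · change 0 ≤ XX (rotV (rotV (rotV V))); rw [XX_rotV, YY_rotV, XX_rotV]; linarith
    · change 0 ≤ YY (rotV (rotV (rotV V))); rw [YY_rotV, XX_rotV, YY_rotV]; linarith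
  · refine key 2 ?_ ?_
    · change 0 ≤ XX (rotV (rotV V)); rw [XX_rotV, YY_rotV]; linarith
    · change 0 ≤ YY (rotV (rotV V)); rw [YY_rotV, XX_rotV]; linarith

lemma length_le {V : List Vis} (h : RG V) : V.length ≤ 7 := by
  by_contra hc
  push Not at hc
  obtain ⟨x, ⟨h1, s, f, h2⟩, h3, h4, h5⟩ := exists_sy h (by omega)
  have h6 := upper6 h3 h2
  have hne : sy x V ≠ [] := by
    intro h7
    rw [h7] at h4
    simp at h4
    omega
  have h7 := tgs_ge h1 hne s f
  omega

lemma card_short {q : ℕ} (hq : 1 ≤ q) {r k : ℕ} (Ω : Finset (List Vis))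
    (h : ∀ V ∈ Ω, V.length = r ∧ len V ≤ (q : ℤ) ^ k) : Ω.card ≤ 20 ^ r * q ^ (k * r) := by
  have h1 := count_box hq (fun _ : Fin r => k) Ω (fun V => vec r V) ?_ ?_
  · simpa [mul_comm] using h1
  · intro V hV V' hV' heq
    obtain ⟨v1, v2⟩ := h V hV
    obtain ⟨v1', v2'⟩ := h V' hV'
    refine eq_of_gv (by omega) fun t ht => ?_
    exact congrFun heq ⟨t, by omega⟩
  · intro V hV i
    obtain ⟨v1, v2⟩ := h V hV
    have : |(vec r V i).2| ≤ len V := abs_mf_le V i
    have h0 : (0 : ℤ) ≤ (q : ℤ) ^ k := by positivity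
    linarith

/-- Polynomial bound. -/
lemma card_poly {n : ℕ} (hn : 1 ≤ n) (Ω : Finset (List Vis))
    (h : ∀ V ∈ Ω, RG V ∧ len V ≤ n) : Ω.card ≤ 8 * (20 ^ 7 * n ^ 7) := by
  have h1 := count_union (G := Ω) (ι := Fin 8) (fun x V => V.length = x) ?_
    (M := 20 ^ 7 * n ^ 7) ?_
  · simpa using h1
  · intro V hV
    exact ⟨⟨V.length, by have := length_le (h V hV).1; omega⟩, rfl⟩
  · intro x Ω' hΩ'
    have h2 := card_short hn (r := x) (k := 1) Ω' fun V hV =>
      ⟨(hΩ' V hV).2, by simpa using (h V (hΩ' V hV).1).2⟩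
    refine h2.trans ?_
    have hx : (x : ℕ) ≤ 7 := by have := x.2; omega
    exact Nat.mul_le_mul (Nat.pow_le_pow_right (by norm_num) hx)
      (Nat.pow_le_pow_right hn (by omega))

/-- the constant -/
def CU : ℕ := 22 * ((49 + 7 ^ 4 * 6) * (20 ^ 7))

lemma card_all {q : ℕ} (hq : 1 ≤ q) (Ω : Finset (List Vis))
    (h : ∀ V ∈ Ω, RG V ∧ len V ≤ (q : ℤ) ^ 6) : Ω.card ≤ CU * q ^ 35 := by
  classical
  have h1 := count_union (G := Ω) (ι := Fin 6 ⊕ ((Fin 4 × Bool) × Bool))
    (fun x V => Sum.elim (fun r : Fin 6 => V.length = r)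
      (fun y => Good (if y.2 then 7 else 6) q (sy y.1 V)) x) ?_
    (M := (49 + 7 ^ 4 * 6) * (20 ^ 7 * q ^ 35)) ?_
  · refine h1.trans (le_of_eq ?_)
    simp only [Fintype.card_sum, Fintype.card_prod, Fintype.card_fin, Fintype.card_bool, CU]
    ring
  · intro V hV
    obtain ⟨v1, v2⟩ := h V hV
    have h7 := length_le v1
    by_cases h6 : V.length ≤ 5
    · exact ⟨Sum.inl ⟨V.length, by omega⟩, rfl⟩
    · push Not at h6
      obtain ⟨x, ⟨g1, s, f, g2⟩, g3, g4, g5⟩ := exists_sy v1 h6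
      rcases Nat.lt_or_ge V.length 7 with h8 | h8
      · exact ⟨Sum.inr (x, false), by
          simp only [Sum.elim_inr, Good]
          exact ⟨by simp; omega, by rw [g5]; exact v2, g1, g3, s, f, g2⟩⟩
      · exact ⟨Sum.inr (x, true), by
          simp only [Sum.elim_inr, Good]
          exact ⟨by simp; omega, by rw [g5]; exact v2, g1, g3, s, f, g2⟩⟩
  · rintro (r | ⟨x, b⟩) Ω' hΩ'
    · have h2 := card_short hq (r := r) (k := 6) Ω' fun V hV =>
        ⟨(hΩ' V hV).2, (h V (hΩ' V hV).1).2⟩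
      refine h2.trans ?_
      have hr : (r : ℕ) ≤ 5 := by have := r.2; omega
      calc 20 ^ (r : ℕ) * q ^ (6 * (r : ℕ)) ≤ 20 ^ 7 * q ^ 35 :=
            Nat.mul_le_mul (Nat.pow_le_pow_right (by norm_num) (by omega))
              (Nat.pow_le_pow_right hq (by omega))
        _ ≤ _ := Nat.le_mul_of_pos_left _ (by norm_num)
    · have h2 : (Ω'.image (sy x)).card = Ω'.card :=
        Finset.card_image_of_injective _ (sy_inj x)
      rw [← h2]
      cases b
      · refine (card6 hq _ ?_).trans ?_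
        · intro V hV
          rw [Finset.mem_image] at hV
          obtain ⟨W, hW, rfl⟩ := hV
          exact (hΩ' W hW).2
        · refine Nat.mul_le_mul (by norm_num) (Nat.mul_le_mul_right _ (by norm_num))
      · refine card7 hq _ ?_
        intro V hV
        rw [Finset.mem_image] at hV
        obtain ⟨W, hW, rfl⟩ := hV
        exact (hΩ' W hW).2

/-- From words to lists of visits. -/
lemma words_le {n : ℕ} (M : ℕ)
    (hM : ∀ Ω : Finset (List Vis), (∀ V ∈ Ω, RG V ∧ len V ≤ n) → Ω.card ≤ M)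
    (W : Finset (List Q)) (hW : ∀ w ∈ W, IsGeo w ∧ w.length ≤ n) : W.card ≤ M * 4 := by
  classical
  choose! φ ψ h1 h2 using fun (w : List Q) (hw : IsGeo w) => exists_red w hw 0
  have hinj : Set.InjOn (fun w => (φ w, ψ w)) W := by
    intro w hw w' hw' heq
    simp only [Prod.mk.injEq] at heq
    rw [h2 w (hW w hw).1, h2 w' (hW w' hw').1, heq.1, heq.2]
  have h3 : W.card ≤ ((W.image φ) ×ˢ (Finset.univ : Finset (Fin 4))).card := by
    refine Finset.card_le_card_of_injOn _ ?_ hinj
    intro w hw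
    rw [Finset.mem_coe, Finset.mem_product]
    exact ⟨Finset.mem_image_of_mem _ hw, Finset.mem_univ _⟩
  refine h3.trans ?_
  rw [Finset.card_product, Finset.card_univ, Fintype.card_fin]
  refine Nat.mul_le_mul_right _ (hM _ ?_)
  intro V hV
  rw [Finset.mem_image] at hV
  obtain ⟨w, hw, rfl⟩ := hV
  have hg := (hW w hw).1
  have hgeo : Geo 0 (φ w) (ψ w) := geo_of_isGeo (by rw [← h2 w hg]; exact hg)
  refine ⟨⟨h1 w hg, 0, ψ w, hgeo⟩, ?_⟩
  have h4 := wd_length 0 (φ w) (ψ w)
  rw [← h2 w hg] at h4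
  have h5 := cost_eq 0 (φ w) (ψ w)
  have h6 := (hW w hw).2
  have h7 : ((cost 0 (φ w) (ψ w) : ℕ) : ℤ) ≤ n := by
    rw [← h4]; exact_mod_cast h6
  have h8 : (0 : ℤ) ≤ (tgs 0 (φ w) (ψ w) : ℤ) := by positivity
  linarith

end Pool.Agent.H21Geo
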