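import Pool.Agent.H21Geo.Grp

set_option autoImplicit false

/-! Words over the generators `a`, `ρ`, `ρ²` and their inverses, described by lists of visits. -/

namespace Pool.Agent.H21Geo

/-- A visit: the current power of the rotation and a signed number of steps. -/
abbrev Vis := Fin 4 × ℤ

def hd (p : Vis) : ℤ := match p.1 with
  | 0 => p.2
  | 1 => 0
  | 2 => -p.2
  | 3 => 0

def vd (p : Vis) : ℤ := match p.1 with
  | 0 => 0
  | 1 => p.2
  | 2 => 0
  | 3 => -p.2

def dz (p : Vis) : ℤ := match p.1 with
  | 0 => 0
  | 1 => 0
  | 2 => p.2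
  | 3 => p.2

def XX : List Vis → ℤ
  | [] => 0
  | p :: V => hd p + XX V

def YY : List Vis → ℤ
  | [] => 0
  | p :: V => vd p + YY V

def ZZ : List Vis → ℤ
  | [] => 0
  | p :: V => dz p + ZZ V + hd p * YY V

/-- Length of the word given by a list of visits with initial state `s` and final state `f`. -/
def cost : Fin 4 → List Vis → Fin 4 → ℕ
  | s, [], f => if s = f then 0 else 1
  | s, p :: V, f => (if s = p.1 then 0 else 1) + p.2.natAbs + cost p.1 V f

def tg (j : Fin 4) : Q := ⟨0, 0, 0, j⟩
def am (m : ℤ) : Q := ⟨m, 0, 0, 0⟩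

@[simp] lemma tg_x (j : Fin 4) : (tg j).x = 0 := rfl
@[simp] lemma tg_y (j : Fin 4) : (tg j).y = 0 := rfl
@[simp] lemma tg_z (j : Fin 4) : (tg j).z = 0 := rfl
@[simp] lemma tg_k (j : Fin 4) : (tg j).k = j := rfl
@[simp] lemma am_x (m : ℤ) : (am m).x = m := rfl
@[simp] lemma am_y (m : ℤ) : (am m).y = 0 := rfl
@[simp] lemma am_z (m : ℤ) : (am m).z = 0 := rfl
@[simp] lemma am_k (m : ℤ) : (am m).k = 0 := rfl

def pw (m : ℤ) : List Q := List.replicate m.natAbs (am m.sign)
def tog (j : Fin 4) : List Q := if j = 0 then [] else [tg j]

def wd : Fin 4 → List Vis → Fin 4 → List Q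
  | s, [], f => tog (f - s)
  | s, p :: V, f => tog (p.1 - s) ++ (pw p.2 ++ wd p.1 V f)

lemma tog_length (j : Fin 4) : (tog j).length = if j = 0 then 0 else 1 := by
  unfold tog; split_ifs <;> rfl

lemma pw_length (m : ℤ) : (pw m).length = m.natAbs := by simp [pw]

lemma wd_length (s : Fin 4) (V : List Vis) (f : Fin 4) : (wd s V f).length = cost s V f := by
  induction V generalizing s with
  | nil =>
    simp only [wd, cost, tog_length, sub_eq_zero]
    by_cases h : f = s
    · simp [h]
    · simp [h, Ne.symm h]
  | cons p V ih =>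
    simp only [wd, cost, List.length_append, tog_length, pw_length, ih, sub_eq_zero]
    by_cases h : p.1 = s
    · simp [h]
    · simp [h, Ne.symm h, add_assoc]

/-- the set of letters -/
def IsLet (l : Q) : Prop := l = am 1 ∨ l = am (-1) ∨ l = tg 1 ∨ l = tg 2 ∨ l = tg 3

lemma am_mul (m n : ℤ) : am m * am n = am (m + n) := by
  ext <;> simp [am]

lemma am_zero : am 0 = 1 := rfl

lemma am_inv (m : ℤ) : (am m)⁻¹ = am (-m) := by
  rw [inv_eq_iff_mul_eq_one, am_mul, add_neg_cancel, am_zero]

lemma tg_mul (i j : Fin 4) : tg i * tg j = tg (i + j) := by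
  ext <;> simp [tg]

lemma tg_zero : tg 0 = 1 := rfl

lemma tg_inv (j : Fin 4) : (tg j)⁻¹ = tg (-j) := by
  rw [inv_eq_iff_mul_eq_one, tg_mul, add_neg_cancel, tg_zero]

lemma prod_tog (j : Fin 4) : (tog j).prod = tg j := by
  unfold tog
  split_ifs with h
  · rw [h]; rfl
  · simp

lemma prod_pw (m : ℤ) : (pw m).prod = am m := by
  have h : ∀ n : ℕ, ∀ e : ℤ, (List.replicate n (am e)).prod = am (n * e) := by
    intro n e
    induction n with
    | zero => simp [am_zero]
    | succ n ih =>
      rw [List.replicate_succ, List.prod_cons, ih, am_mul]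
      congr 1; push_cast; ring
  rw [pw, h]
  congr 1
  rw [mul_comm]
  exact Int.sign_mul_natAbs m

/-- the element of the Heisenberg group reached by a list of visits -/
def evq (V : List Vis) : Q := ⟨XX V, YY V, ZZ V, 0⟩

lemma tg_am (k : Fin 4) (m : ℤ) : tg k * am m = ⟨hd (k, m), vd (k, m), dz (k, m), 0⟩ * tg k := by
  revert k
  simp only [forall_fin4]
  refine ⟨?_, ?_, ?_, ?_⟩ <;> ext <;>
    simp [tg, am, rx, ry, rz, hd, vd, dz]

lemma wd_prod (s : Fin 4) (V : List Vis) (f : Fin 4) :
    tg s * (wd s V f).prod = evq V * tg f := by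
  induction V generalizing s with
  | nil =>
    simp only [wd, prod_tog, tg_mul, add_sub_cancel]
    ext <;> simp [evq, XX, YY, ZZ]
  | cons p V ih =>
    simp only [wd, List.prod_append, prod_tog, prod_pw]
    rw [← mul_assoc, tg_mul, add_sub_cancel, ← mul_assoc, tg_am, mul_assoc, ih, ← mul_assoc]
    congr 1

lemma isLet_tg {j : Fin 4} (hj : j ≠ 0) : IsLet (tg j) := by
  revert j
  simp only [forall_fin4, IsLet]
  simp

lemma wd_let (s : Fin 4) (V : List Vis) (f : Fin 4) : ∀ l ∈ wd s V f, IsLet l := by
  have htog : ∀ j : Fin 4, ∀ l ∈ tog j, IsLet l := by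
    intro j l hl
    unfold tog at hl
    split_ifs at hl with h
    · simp at hl
    · rw [List.mem_singleton] at hl
      rw [hl]; exact isLet_tg h
  have hpw : ∀ m : ℤ, ∀ l ∈ pw m, IsLet l := by
    intro m l hl
    have h := List.eq_of_mem_replicate hl
    have hne : m.natAbs ≠ 0 := by
      intro h0
      rw [pw, h0] at hl
      simp at hl
    rcases lt_trichotomy m 0 with h1 | h1 | h1
    · rw [h, Int.sign_eq_neg_one_of_neg h1]; exact Or.inr (Or.inl rfl)
    · exact absurd (by rw [h1]; rfl) hne
    · rw [h, Int.sign_eq_one_of_pos h1]; exact Or.inl rfl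
  induction V generalizing s with
  | nil => intro l hl; exact htog _ l hl
  | cons p V ih =>
    intro l hl
    simp only [wd, List.mem_append] at hl
    rcases hl with h | h | h
    · exact htog _ l h
    · exact hpw _ l h
    · exact ih _ l h

/-- reduced lists: all numbers of steps are nonzero and consecutive states are distinct -/
def Red : List Vis → Prop
  | [] => True
  | [p] => p.2 ≠ 0
  | p :: q :: V => p.2 ≠ 0 ∧ p.1 ≠ q.1 ∧ Red (q :: V)

lemma Red.tail {p : Vis} {V : List Vis} (h : Red (p :: V)) : Red V := by
  cases V with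
  | nil => trivial
  | cons q V => exact h.2.2

lemma Red.head {p : Vis} {V : List Vis} (h : Red (p :: V)) : p.2 ≠ 0 := by
  cases V with
  | nil => exact h
  | cons q V => exact h.1

/-- A word is geodesic. -/
def IsGeo (w : List Q) : Prop :=
  (∀ l ∈ w, IsLet l) ∧ ∀ v : List Q, (∀ l ∈ v, IsLet l) → v.prod = w.prod → w.length ≤ v.length

lemma IsGeo.tail {l : Q} {w : List Q} (h : IsGeo (l :: w)) : IsGeo w := by
  refine ⟨fun x hx => h.1 x (List.mem_cons_of_mem _ hx), fun v hv hp => ?_⟩
  have := h.2 (l :: v) (by
    intro x hx
    rcases List.mem_cons.1 hx with rfl | hx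
    · exact h.1 _ List.mem_cons_self
    · exact hv x hx) (by rw [List.prod_cons, List.prod_cons, hp])
  simpa using this

lemma pw_cons_pos {m : ℤ} (hm : 0 ≤ m) : am 1 :: pw m = pw (m + 1) := by
  have h1 : (m + 1).natAbs = m.natAbs + 1 := by omega
  rw [pw, pw, h1, List.replicate_succ, Int.sign_eq_one_of_pos (by omega : 0 < m + 1)]
  rcases hm.eq_or_lt with h | h
  · rw [← h]; simp
  · rw [Int.sign_eq_one_of_pos h]

lemma pw_cons_neg {m : ℤ} (hm : m ≤ 0) : am (-1) :: pw m = pw (m - 1) := by
  have h1 : (m - 1).natAbs = m.natAbs + 1 := by omega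
  rw [pw, pw, h1, List.replicate_succ, Int.sign_eq_neg_one_of_neg (by omega : m - 1 < 0)]
  rcases hm.eq_or_lt with h | h
  · rw [h]; simp
  · rw [Int.sign_eq_neg_one_of_neg h]

lemma pw_pos_eq {m : ℤ} (hm : 0 < m) : pw m = am 1 :: pw (m - 1) := by
  have := pw_cons_pos (m := m - 1) (by omega)
  rw [this]; congr 1; ring

lemma pw_neg_eq {m : ℤ} (hm : m < 0) : pw m = am (-1) :: pw (m + 1) := by
  have := pw_cons_neg (m := m + 1) (by omega)
  rw [this]; congr 1; ring

lemma tog_ne {j : Fin 4} (h : j ≠ 0) : tog j = [tg j] := by simp [tog, h]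
@[simp] lemma tog_zero : tog 0 = [] := rfl

/-- Every geodesic word comes from a reduced list of visits. -/
lemma exists_red (w : List Q) (hw : IsGeo w) (s : Fin 4) :
    ∃ V f, Red V ∧ w = wd s V f := by
  induction w generalizing s with
  | nil => exact ⟨[], s, trivial, by simp [wd]⟩
  | cons l w ih =>
    have hlet : IsLet l := hw.1 l List.mem_cons_self
    have hlets : ∀ x ∈ w, IsLet x := fun x hx => hw.1 x (List.mem_cons_of_mem _ hx)
    have hA : ∀ e : ℤ, (e = 1 ∨ e = -1) → l = am e → ∃ V f, Red V ∧ l :: w = wd s V f := by
      intro e he hl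
      obtain ⟨V, f, hV, hwd⟩ := ih hw.tail s
      -- the first letter of `w` cannot cancel `l`
      have hcan : ∀ w', w ≠ am (-e) :: w' := by
        intro w' hw'
        have h2 := hw.2 w' (fun x hx => hlets x (by rw [hw']; exact List.mem_cons_of_mem _ hx))
          (by rw [hl, hw', List.prod_cons, List.prod_cons, ← mul_assoc, am_mul,
            add_neg_cancel, am_zero, one_mul])
        rw [hw'] at h2
        simp at h2
      have hnew : (∀ p V', V = p :: V' → p.1 ≠ s) → ∃ V f, Red V ∧ l :: w = wd s V f := by
        intro hne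
        refine ⟨(s, e) :: V, f, ?_, ?_⟩
        · cases V with
          | nil => rcases he with h | h <;> simp [Red, h]
          | cons p V' =>
            refine ⟨by rcases he with h | h <;> simp [h], (hne p V' rfl).symm, hV⟩
        · simp only [wd, sub_self, tog_zero, List.nil_append]
          rw [← hwd, hl]
          rcases he with h | h <;> subst h <;> rfl
      cases V with
      | nil => exact hnew (by simp)
      | cons p V' =>
        by_cases hps : p.1 = s
        · have hp0 := hV.head
          have hw' : w = pw p.2 ++ wd p.1 V' f := by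
            rw [hwd]; simp [wd, hps]
          rcases lt_or_gt_of_ne hp0 with hneg | hpos
          · -- negative
            rcases he with he | he
            · exfalso
              rw [pw_neg_eq hneg, List.cons_append, ← he] at hw'
              exact hcan _ hw'
            · refine ⟨(s, p.2 - 1) :: V', f, ?_, ?_⟩
              · cases V' with
                | nil => simp only [Red]; omega
                | cons q V' => exact ⟨by simp only; omega, by simpa [hps] using hV.2.1, hV.2.2⟩
              · simp only [wd, sub_self, tog_zero, List.nil_append]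
                rw [← pw_cons_neg hneg.le, hl, he, hw', hps]; rfl
          · rcases he with he | he
            · refine ⟨(s, p.2 + 1) :: V', f, ?_, ?_⟩
              · cases V' with
                | nil => simp only [Red]; omega
                | cons q V' => exact ⟨by simp only; omega, by simpa [hps] using hV.2.1, hV.2.2⟩
              · simp only [wd, sub_self, tog_zero, List.nil_append]
                rw [← pw_cons_pos hpos.le, hl, he, hw', hps]; rfl
            · exfalso
              rw [pw_pos_eq hpos, List.cons_append] at hw'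
              refine hcan (pw (p.2 - 1) ++ wd p.1 V' f) ?_
              rw [hw', he, neg_neg]
        · exact hnew (by
            intro p' V'' h
            rw [List.cons.injEq] at h
            rw [← h.1]; exact hps)
    have hT : ∀ j : Fin 4, j ≠ 0 → l = tg j → ∃ V f, Red V ∧ l :: w = wd s V f := by
      intro j hj hl
      obtain ⟨V, f, hV, hwd⟩ := ih hw.tail (s + j)
      have hcan : ∀ i w', w ≠ tg i :: w' := by
        intro i w' hw'
        have h2 := hw.2 (tog (j + i) ++ w') (by
            intro x hx
            rcases List.mem_append.1 hx with hx | hx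
            · unfold tog at hx
              split_ifs at hx with h0
              · simp at hx
              · rw [List.mem_singleton] at hx
                rw [hx]; exact isLet_tg h0
            · exact hlets x (by rw [hw']; exact List.mem_cons_of_mem _ hx))
          (by rw [hl, hw', List.prod_cons, List.prod_cons, ← mul_assoc, tg_mul,
            List.prod_append, prod_tog])
        rw [hw', List.length_append, tog_length] at h2
        simp only [List.length_cons] at h2
        split_ifs at h2 <;> omega
      cases V with
      | nil =>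
        by_cases hf : f = s + j
        · refine ⟨[], f, trivial, ?_⟩
          rw [hl, hwd]
          simp only [wd, hf, sub_self, tog_zero, add_sub_cancel_left]
          rw [tog_ne hj]
        · exfalso
          refine hcan (f - (s + j)) [] ?_
          rw [hwd]
          simp only [wd]
          exact tog_ne (sub_ne_zero.2 hf)
      | cons p V' =>
        by_cases hps : p.1 = s + j
        · refine ⟨p :: V', f, hV, ?_⟩
          rw [hl, hwd]
          simp only [wd, hps, sub_self, tog_zero, add_sub_cancel_left, List.nil_append]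
          rw [tog_ne hj]; rfl
        · exfalso
          refine hcan (p.1 - (s + j)) (pw p.2 ++ wd p.1 V' f) ?_
          rw [hwd]
          simp only [wd]
          rw [tog_ne (sub_ne_zero.2 hps)]; rfl
    rcases hlet with h | h | h | h | h
    · exact hA 1 (Or.inl rfl) h
    · exact hA (-1) (Or.inr rfl) h
    · exact hT 1 (by decide) h
    · exact hT 2 (by decide) h
    · exact hT 3 (by decide) h

/-- The list of visits `V` with initial state `s` and final state `f` has minimal cost. -/
def Geo (s : Fin 4) (V : List Vis) (f : Fin 4) : Prop :=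
  ∀ V' : List Vis, XX V' = XX V → YY V' = YY V → ZZ V' = ZZ V → cost s V f ≤ cost s V' f

lemma geo_of_isGeo {s : Fin 4} {V : List Vis} {f : Fin 4} (h : IsGeo (wd s V f)) : Geo s V f := by
  intro V' hx hy hz
  have h2 := h.2 (wd s V' f) (wd_let s V' f) (by
    have h3 : tg s * (wd s V' f).prod = tg s * (wd s V f).prod := by
      rw [wd_prod, wd_prod]
      congr 1
      ext <;> simp [evq, hx, hy, hz]
    exact mul_left_cancel h3)
  rwa [wd_length, wd_length] at h2

/-- Conversion of an arbitrary word to a list of visits. -/
lemma exists_visits (w : List Q) (hw : ∀ l ∈ w, IsLet l) (s : Fin 4) :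
    ∃ V f, cost s V f ≤ w.length ∧ tg s * w.prod = evq V * tg f := by
  induction w generalizing s with
  | nil => exact ⟨[], s, by simp [cost], by simp [evq, XX, YY, ZZ]; rfl⟩
  | cons l w ih =>
    have hlet : IsLet l := hw l List.mem_cons_self
    have hlets : ∀ x ∈ w, IsLet x := fun x hx => hw x (List.mem_cons_of_mem _ hx)
    have hA : ∀ e : ℤ, (e = 1 ∨ e = -1) → l = am e →
        ∃ V f, cost s V f ≤ (l :: w).length ∧ tg s * (l :: w).prod = evq V * tg f := by
      intro e he hl
      obtain ⟨V, f, hc, hp⟩ := ih hlets s
      refine ⟨(s, e) :: V, f, ?_, ?_⟩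
      · simp only [cost, if_true, List.length_cons]
        have : e.natAbs = 1 := by rcases he with h | h <;> simp [h]
        omega
      · rw [hl, List.prod_cons, ← mul_assoc, tg_am, mul_assoc, hp, ← mul_assoc]
        congr 1
    have hT : ∀ j : Fin 4, l = tg j →
        ∃ V f, cost s V f ≤ (l :: w).length ∧ tg s * (l :: w).prod = evq V * tg f := by
      intro j hl
      obtain ⟨V, f, hc, hp⟩ := ih hlets (s + j)
      refine ⟨V, f, ?_, ?_⟩
      · have : cost s V f ≤ 1 + cost (s + j) V f := by
          cases V with
          | nil => simp only [cost]; split_ifs <;> omega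
          | cons p V => simp only [cost]; split_ifs <;> omega
        simp only [List.length_cons]; omega
      · rw [hl, List.prod_cons, ← mul_assoc, tg_mul, hp]
    rcases hlet with h | h | h | h | h
    · exact hA 1 (Or.inl rfl) h
    · exact hA (-1) (Or.inr rfl) h
    · exact hT 1 h
    · exact hT 2 h
    · exact hT 3 h

lemma isGeo_of_geo {s : Fin 4} {V : List Vis} {f : Fin 4} (h : Geo s V f) :
    IsGeo (wd s V f) := by
  refine ⟨wd_let s V f, fun v hv hp => ?_⟩
  obtain ⟨V', f', hc, hp'⟩ := exists_visits v hv s
  rw [hp, wd_prod] at hp'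
  have hk := congrArg Q.k hp'
  have hx := congrArg Q.x hp'
  have hy := congrArg Q.y hp'
  have hz := congrArg Q.z hp'
  simp [evq] at hk hx hy hz
  subst hk
  rw [wd_length]
  exact (h V' hx.symm hy.symm hz.symm).trans hc

end Pool.Agent.H21Geo
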